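import Pool.Agent.Helper94.SH.Restrict
import Pool.Agent.Helper24.PGN.Fam

/-!
AllGeometricGenera (MP_b8862a_ag), construction QUAT: Hodge structures of weight two on the image of a rational
idempotent, given by one operator.
-/

set_option linter.unusedSectionVars false

open Matrix MH

namespace QU55

open SH94 (cC cC_mul cC_one cC_conj cC_inj)

variable {N m : Type*} [Fintype N] [DecidableEq N] [Fintype m] [DecidableEq m]

/-- The data of an operator on the image of the rational idempotent `C * B`. -/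
structure Opr (Q : Matrix N N ℚ) (B : Matrix m N ℚ) (C : Matrix N m ℚ) (K : Matrix N N ℂ) : Prop where
  bc : B * C = 1
  com : toC (C * B) * K = K * toC (C * B)
  cub : K * K * K * toC (C * B) = K * toC (C * B)
  conj : K.map (starRingEnd ℂ) = -K
  symm : Qᵀ = Q
  skew : Kᵀ * toC Q = -(toC Q * K)
  pos : ∀ v : N → ℂ, toC (C * B) *ᵥ v = v → v ≠ 0 →
    0 < (v ⬝ᵥ (toC Q *ᵥ ((1 - (2 : ℂ) • (K * K)) *ᵥ star v))).re

namespace Opr

variable {Q : Matrix N N ℚ} {B : Matrix m N ℚ} {C : Matrix N m ℚ} {K : Matrix N N ℂ} (H : Opr Q B C K)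

/-- the operator in the coordinates of the image -/
noncomputable def sm (B : Matrix m N ℚ) (C : Matrix N m ℚ) (K : Matrix N N ℂ) : Matrix m m ℂ := cC B * K * cC C

include H

theorem bcC : cC B * cC C = 1 := by rw [← cC_mul, H.bc, cC_one]

theorem cbK : cC C * cC B * K = K * (cC C * cC B) := by
  have := H.com
  rwa [show toC (C * B) = cC C * cC B from cC_mul C B] at this

/-- `K C = C H` -/
theorem K_c : K * cC C = cC C * sm B C K := by
  calc K * cC C = K * (cC C * (cC B * cC C)) := by rw [H.bcC, Matrix.mul_one]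
    _ = K * (cC C * cC B) * cC C := by simp only [Matrix.mul_assoc]
    _ = cC C * sm B C K := by rw [← H.cbK, sm]; simp only [Matrix.mul_assoc]

/-- `B K = H B` -/
theorem b_K : cC B * K = sm B C K * cC B := by
  calc cC B * K = (cC B * cC C) * cC B * K := by rw [H.bcC, Matrix.one_mul]
    _ = cC B * (cC C * cC B * K) := by simp only [Matrix.mul_assoc]
    _ = sm B C K * cC B := by rw [H.cbK, sm]; simp only [Matrix.mul_assoc]

theorem sm_mul_sm : sm B C K * sm B C K = cC B * (K * K) * cC C := by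
  calc sm B C K * sm B C K = cC B * K * (cC C * sm B C K) := by
        conv_lhs => enter [1]; rw [sm]
        rw [Matrix.mul_assoc]
    _ = cC B * (K * K) * cC C := by rw [← H.K_c]; simp only [Matrix.mul_assoc]

theorem cube : sm B C K * sm B C K * sm B C K = sm B C K := by
  have e1 : K * K * K * cC C = K * cC C := by
    have h0 := H.cub
    rw [show toC (C * B) = cC C * cC B from cC_mul C B] at h0
    calc K * K * K * cC C = K * K * K * (cC C * (cC B * cC C)) := by rw [H.bcC, Matrix.mul_one]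
      _ = K * K * K * (cC C * cC B) * cC C := by simp only [Matrix.mul_assoc]
      _ = K * (cC C * cC B) * cC C := by rw [h0]
      _ = K * (cC C * (cC B * cC C)) := by simp only [Matrix.mul_assoc]
      _ = K * cC C := by rw [H.bcC, Matrix.mul_one]
  calc sm B C K * sm B C K * sm B C K = cC B * (K * K) * (cC C * sm B C K) := by
        rw [H.sm_mul_sm, Matrix.mul_assoc]
    _ = cC B * (K * K * K * cC C) := by rw [← H.K_c]; simp only [Matrix.mul_assoc]
    _ = sm B C K := by rw [e1, sm, Matrix.mul_assoc]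

theorem conj' : (sm B C K).map (starRingEnd ℂ) = -sm B C K := by
  rw [sm, Matrix.map_mul, Matrix.map_mul, cC_conj, cC_conj, H.conj, Matrix.mul_neg, Matrix.neg_mul]

theorem symm' : (Cᵀ * Q * C)ᵀ = Cᵀ * Q * C := by
  rw [Matrix.transpose_mul, Matrix.transpose_mul, Matrix.transpose_transpose, H.symm, Matrix.mul_assoc]

omit H [DecidableEq N] [Fintype m] [DecidableEq m] in
theorem toC_sm : toC (Cᵀ * Q * C) = (cC C)ᵀ * toC Q * cC C := by
  show cC (Cᵀ * Q * C) = _
  rw [cC_mul, cC_mul]
  rfl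

theorem skew' : (sm B C K)ᵀ * toC (Cᵀ * Q * C) = -(toC (Cᵀ * Q * C) * sm B C K) := by
  rw [toC_sm]
  calc (sm B C K)ᵀ * ((cC C)ᵀ * toC Q * cC C) = (cC C * sm B C K)ᵀ * toC Q * cC C := by
        rw [Matrix.transpose_mul]
        simp only [Matrix.mul_assoc]
    _ = (cC C)ᵀ * (Kᵀ * toC Q) * cC C := by
        rw [← H.K_c, Matrix.transpose_mul]
        simp only [Matrix.mul_assoc]
    _ = -((cC C)ᵀ * toC Q * (K * cC C)) := by
        rw [H.skew, Matrix.mul_neg, Matrix.neg_mul]
        simp only [Matrix.mul_assoc]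
    _ = _ := by rw [H.K_c]; simp only [Matrix.mul_assoc]

theorem pos' (v : m → ℂ) (hv : v ≠ 0) :
    0 < (v ⬝ᵥ (toC (Cᵀ * Q * C) *ᵥ ((1 - (2 : ℂ) • (sm B C K * sm B C K)) *ᵥ star v))).re := by
  have e1 : v = cC B *ᵥ (cC C *ᵥ v) := by rw [Matrix.mulVec_mulVec, H.bcC, Matrix.one_mulVec]
  have e2 : cC C *ᵥ v ≠ 0 := by
    intro h
    rw [h, Matrix.mulVec_zero] at e1
    exact hv e1
  have e3 : toC (C * B) *ᵥ (cC C *ᵥ v) = cC C *ᵥ v := by
    rw [show toC (C * B) = cC C * cC B from cC_mul C B, ← Matrix.mulVec_mulVec, ← e1]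
  have e4 := H.pos _ e3 e2
  have e5 : star (cC C *ᵥ v) = cC C *ᵥ star v := by
    funext i
    simp only [Pi.star_apply, Matrix.mulVec, dotProduct, star_sum, star_mul']
    refine Finset.sum_congr rfl fun j _ => ?_
    congr 1
    have h1 := congrFun (congrFun (cC_conj C) i) j
    rwa [Matrix.map_apply, starRingEnd_apply] at h1
  have e6 : (1 - (2 : ℂ) • (K * K)) * cC C = cC C * (1 - (2 : ℂ) • (sm B C K * sm B C K)) := by
    have e7 : K * K * cC C = cC C * (sm B C K * sm B C K) := by
      rw [Matrix.mul_assoc, H.K_c, ← Matrix.mul_assoc, H.K_c, Matrix.mul_assoc]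
    rw [Matrix.sub_mul, Matrix.mul_sub, Matrix.one_mul, Matrix.mul_one, Matrix.smul_mul, Matrix.mul_smul, e7]
  have e8 : v ⬝ᵥ (toC (Cᵀ * Q * C) *ᵥ ((1 - (2 : ℂ) • (sm B C K * sm B C K)) *ᵥ star v)) =
      (cC C *ᵥ v) ⬝ᵥ (toC Q *ᵥ ((1 - (2 : ℂ) • (K * K)) *ᵥ star (cC C *ᵥ v))) := by
    rw [toC_sm, e5, Matrix.mulVec_mulVec (star v) _ (cC C), e6, ← Matrix.mulVec_mulVec (star v) (cC C),
      ← Matrix.vecMul_transpose (cC C) v, ← Matrix.dotProduct_mulVec]
    simp only [Matrix.mulVec_mulVec, Matrix.mul_assoc]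
  rw [e8]
  exact e4

theorem isHW : IsHW 2 (Cᵀ * Q * C) {2, 1, 0} (PH24 (sm B C K)) :=
  isHW_PH24 H.cube H.conj' H.symm' H.skew' H.pos'

theorem trace' : (sm B C K).trace = (K * toC (C * B)).trace := by
  rw [sm, Matrix.mul_assoc, Matrix.trace_mul_comm, show toC (C * B) = cC C * cC B from cC_mul C B, Matrix.mul_assoc]

theorem trace2 : (sm B C K * sm B C K).trace = (K * K * toC (C * B)).trace := by
  rw [H.sm_mul_sm, Matrix.mul_assoc, Matrix.trace_mul_comm, show toC (C * B) = cC C * cC B from cC_mul C B,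
    Matrix.mul_assoc]

/-- the endomorphisms -/
theorem comm {A : Matrix m m ℚ} (hA : toC A * sm B C K = sm B C K * toC A) :
    toC (C * A * B) * K = K * toC (C * A * B) := by
  have e3 : toC (C * A * B) = cC C * toC A * cC B := by
    show cC (C * A * B) = _
    rw [cC_mul, cC_mul]
    rfl
  calc toC (C * A * B) * K = cC C * toC A * (cC B * K) := by rw [e3, Matrix.mul_assoc]
    _ = cC C * (toC A * sm B C K) * cC B := by rw [H.b_K]; simp only [Matrix.mul_assoc]
    _ = (cC C * sm B C K) * toC A * cC B := by rw [hA]; simp only [Matrix.mul_assoc]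
    _ = K * toC (C * A * B) := by rw [← H.K_c, e3]; simp only [Matrix.mul_assoc]

end Opr

end QU55
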