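import Pool.Agent.Helper55.QU.Quart
import Pool.Agent.Helper55.QU.Small
import Pool.Agent.Helper81.PGN.Tens
import Pool.Agent.Helper98.MH.CD
import Pool.Agent.Helper2.PGN.Defs

/-!
AllGeometricGenera (MP_b8862a_ag), construction QUAT: the Mumford-Tate group preserves the quartic form, so it is not the
full group.
-/

set_option linter.unusedSectionVars false

open Matrix MH
open scoped Kronecker

namespace QU55

open SH94 (cC cC_mul cC_one cC_conj cC_inj)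

variable {W m : Type*} [Fintype W] [DecidableEq W] [Fintype m] [DecidableEq m]

theorem T_vc {R : Type*} [CommRing R] (X Y : Matrix W W R) : vc X ⬝ᵥ (MH.PGN.T W R *ᵥ vc Y) = (X * Y).trace := by
  have h : ∀ p : W × W, (MH.PGN.T W R *ᵥ vc Y) p = Y p.2 p.1 := by
    intro p
    rw [Matrix.mulVec, dotProduct, Finset.sum_eq_single p.swap]
    · rw [MH.PGN.T, if_pos (Prod.swap_swap p).symm, one_mul]
      rfl
    · intro q _ hq
      rw [MH.PGN.T, if_neg, zero_mul]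
      rintro rfl
      exact hq (Prod.swap_swap q).symm
    · intro h
      exact absurd (Finset.mem_univ _) h
  rw [dotProduct, Fintype.sum_prod_type, Matrix.trace]
  simp only [h, Matrix.diag_apply, Matrix.mul_apply, vc]

variable {B : Matrix m (W × W) ℚ} {C : Matrix (W × W) m ℚ} {K : Matrix (W × W) (W × W) ℂ}

/-- the pairing in small coordinates -/
theorem pair_sm {X Y : Matrix W W ℂ} {x y : m → ℂ} (hx : cC C *ᵥ x = vc X) (hy : cC C *ᵥ y = vc Y) :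
    x ⬝ᵥ (toC (Cᵀ * MH.PGN.T W ℚ * C) *ᵥ y) = (X * Y).trace := by
  have hT : toC (MH.PGN.T W ℚ) = MH.PGN.T W ℂ := MH.PGN.T_map _
  rw [Opr.toC_sm, Matrix.mul_assoc, ← Matrix.mulVec_mulVec, ← Matrix.mulVec_mulVec, hy, hT, Matrix.dotProduct_mulVec,
    Matrix.vecMul_transpose, hx, T_vc]

theorem not_full (H : Opr (MH.PGN.T W ℚ) B C K) {J : Matrix W W ℂ} {c : ℂ}
    (hK : ∀ X : Matrix W W ℂ, K *ᵥ vc X = vc (c • (J * X - X * J))) {v1 v2 X Y D : Matrix W W ℂ}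
    (h1 : toC (C * B) *ᵥ vc v1 = vc v1) (h2 : toC (C * B) *ᵥ vc v2 = vc v2) (hX : toC (C * B) *ᵥ vc X = vc X)
    (hY : toC (C * B) *ᵥ vc Y = vc Y) (hD : toC (C * B) *ᵥ vc D = vc D) (q11 : (v1 * v1).trace ≠ 0)
    (q22 : (v2 * v2).trace ≠ 0) (q12 : (v2 * v1).trace = 0) (q1X : (v1 * X).trace = 0) (q2X : (v2 * X).trace = 0)
    (q1Y : (v1 * Y).trace = 0) (q2Y : (v2 * Y).trace = 0) (q1D : (v1 * D).trace = 0) (q2D : (v2 * D).trace = 0)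
    (hq : quart v1 X Y D ≠ 0) :
    ∃ g : GL m ℂ, (g : Matrix m m ℂ)ᵀ * toC (Cᵀ * MH.PGN.T W ℚ * C) * (g : Matrix m m ℂ) =
      toC (Cᵀ * MH.PGN.T W ℚ * C) ∧ (g : Matrix m m ℂ).det = 1 ∧ g ∉ MT {2, 1, 0} (PH24 (Opr.sm B C K)) := by
  obtain ⟨Q, hQ⟩ : ∃ Q : Matrix m m ℚ, Q = Cᵀ * MH.PGN.T W ℚ * C := ⟨_, rfl⟩
  have hcb : toC (C * B) = cC C * cC B := cC_mul C B
  have cor : ∀ Z : Matrix W W ℂ, toC (C * B) *ᵥ vc Z = vc Z → cC C *ᵥ (cC B *ᵥ vc Z) = vc Z := by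
    intro Z hZ
    rw [Matrix.mulVec_mulVec, ← hcb, hZ]
  have c1 := cor v1 h1
  have c2 := cor v2 h2
  have cX := cor X hX
  have cY := cor Y hY
  have cD := cor D hD
  generalize cC B *ᵥ vc v1 = b1 at c1
  generalize cC B *ᵥ vc v2 = b2 at c2
  generalize cC B *ᵥ vc X = x at cX
  generalize cC B *ᵥ vc Y = y at cY
  generalize cC B *ᵥ vc D = d at cD
  have hs : (toC Q)ᵀ = toC Q := by
    have := congrArg (fun M : Matrix m m ℚ => M.map (algebraMap ℚ ℂ)) H.symm'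
    rw [← hQ] at this
    exact this
  have e11 : b1 ⬝ᵥ (toC Q *ᵥ b1) ≠ 0 := by rw [hQ, pair_sm c1 c1]; exact q11
  have e22 : b2 ⬝ᵥ (toC Q *ᵥ b2) ≠ 0 := by rw [hQ, pair_sm c2 c2]; exact q22
  have e21 : b2 ⬝ᵥ (toC Q *ᵥ b1) = 0 := by rw [hQ, pair_sm c2 c1]; exact q12
  have e1x : b1 ⬝ᵥ (toC Q *ᵥ x) = 0 := by rw [hQ, pair_sm c1 cX]; exact q1X
  have e2x : b2 ⬝ᵥ (toC Q *ᵥ x) = 0 := by rw [hQ, pair_sm c2 cX]; exact q2X
  have e1y : b1 ⬝ᵥ (toC Q *ᵥ y) = 0 := by rw [hQ, pair_sm c1 cY]; exact q1Y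
  have e2y : b2 ⬝ᵥ (toC Q *ᵥ y) = 0 := by rw [hQ, pair_sm c2 cY]; exact q2Y
  have e1d : b1 ⬝ᵥ (toC Q *ᵥ d) = 0 := by rw [hQ, pair_sm c1 cD]; exact q1D
  have e2d : b2 ⬝ᵥ (toC Q *ᵥ d) = 0 := by rw [hQ, pair_sm c2 cD]; exact q2D
  have qd : (toC Q).det ≠ 0 := by
    rw [hQ]
    exact SH94.Q_det H.isHW
  -- the element
  have r1 := refl_sq e11
  have r2 := refl_sq e22
  let g : GL m ℂ := ⟨refl (toC Q) b1 * refl (toC Q) b2, refl (toC Q) b2 * refl (toC Q) b1,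
    by rw [mul_assoc, ← mul_assoc (refl (toC Q) b2), r2, one_mul, r1],
    by rw [mul_assoc, ← mul_assoc (refl (toC Q) b1), r1, one_mul, r2]⟩
  have hgv : (g : Matrix m m ℂ) = refl (toC Q) b1 * refl (toC Q) b2 := rfl
  have giso : (g : Matrix m m ℂ)ᵀ * toC Q * (g : Matrix m m ℂ) = toC Q := by
    rw [hgv, Matrix.transpose_mul]
    calc (refl (toC Q) b2)ᵀ * (refl (toC Q) b1)ᵀ * toC Q * (refl (toC Q) b1 * refl (toC Q) b2)
        = (refl (toC Q) b2)ᵀ * ((refl (toC Q) b1)ᵀ * toC Q * refl (toC Q) b1) * refl (toC Q) b2 := by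
          simp only [mul_assoc]
      _ = toC Q := by rw [refl_isom hs e11, refl_isom hs e22]
  have gdet : (g : Matrix m m ℂ).det = 1 := by
    rw [hgv, Matrix.det_mul, refl_det e11, refl_det e22]
    norm_num
  have fixr : ∀ b z : m → ℂ, b ⬝ᵥ (toC Q *ᵥ z) = 0 → refl (toC Q) b *ᵥ z = z := by
    intro b z h
    have h' : (toC Q *ᵥ b) ⬝ᵥ z = 0 := by
      rw [dotProduct_comm, form_comm hs, h]
    rw [refl_apply, h', mul_zero, zero_smul, sub_zero]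
  have gb1 : (g : Matrix m m ℂ) *ᵥ b1 = -b1 := by
    rw [hgv, ← Matrix.mulVec_mulVec, fixr b2 b1 e21, refl_apply, dotProduct_comm (toC Q *ᵥ b1), div_mul_cancel₀ _ e11,
      two_smul]
    abel
  have gfix : ∀ z : m → ℂ, b1 ⬝ᵥ (toC Q *ᵥ z) = 0 → b2 ⬝ᵥ (toC Q *ᵥ z) = 0 → (g : Matrix m m ℂ) *ᵥ z = z := by
    intro z z1 z2
    rw [hgv, ← Matrix.mulVec_mulVec, fixr b2 z z2, fixr b1 z z1]
  refine ⟨g, by rw [← hQ]; exact giso, gdet, fun hg => ?_⟩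
  -- the invariance of the quartic form
  obtain ⟨h, hh⟩ : ∃ h, h = Opr.sm B C K := ⟨_, rfl⟩
  have hcol : ∀ i, c • (J * vv (cC C) i - vv (cC C) i * J) = ∑ i', h i' i • vv (cC C) i' := by
    intro i
    have a1 : K *ᵥ vc (vv (cC C) i) = vc (c • (J * vv (cC C) i - vv (cC C) i * J)) := hK _
    have a2 : K *ᵥ vc (vv (cC C) i) = fun p => (K * cC C) p i := rfl
    rw [H.K_c, ← hh] at a2
    apply vc_inj
    rw [← a1, a2]
    funext p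
    rw [Matrix.mul_apply, vc, Matrix.sum_apply]
    refine Finset.sum_congr rfl fun j _ => ?_
    rw [Matrix.smul_apply, smul_eq_mul, mul_comm]
    rfl
  have hinv := Th_inv (H := h) hcol
  have hQd : IsUnit Q.det := by
    rw [isUnit_iff_ne_zero]
    intro h0
    apply qd
    have : (toC Q).det = algebraMap ℚ ℂ Q.det := (RingHom.map_det (algebraMap ℚ ℂ) Q).symm
    rw [this, h0, map_zero]
  have qi1 : Q * Q⁻¹ = 1 := Matrix.mul_nonsing_inv Q hQd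
  have qi2 : Q⁻¹ * Q = 1 := Matrix.nonsing_inv_mul Q hQd
  have qc1 : toC Q * toC Q⁻¹ = 1 := by
    have := congrArg (fun M : Matrix m m ℚ => M.map (algebraMap ℚ ℂ)) qi1
    simp only [Matrix.map_mul, Matrix.map_one _ (map_zero (algebraMap ℚ ℂ)) (map_one (algebraMap ℚ ℂ))] at this
    exact this
  have qc2 : toC Q⁻¹ * toC Q = 1 := by
    have := congrArg (fun M : Matrix m m ℚ => M.map (algebraMap ℚ ℂ)) qi2
    simp only [Matrix.map_mul, Matrix.map_one _ (map_zero (algebraMap ℚ ℂ)) (map_one (algebraMap ℚ ℂ))] at this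
    exact this
  obtain ⟨B4, hB4⟩ : ∃ B4 : Matrix (m × m) (m × m) ℚ, B4 = (Q⁻¹ ⊗ₖ Q⁻¹) * Th C := ⟨_, rfl⟩
  have hkm : ∀ A A' : Matrix m m ℚ, toC (A ⊗ₖ A') = toC A ⊗ₖ toC A' := by
    intro A A'
    ext p q
    simp [toC]
  have hB4c : toC B4 = (toC Q⁻¹ ⊗ₖ toC Q⁻¹) * Th (cC C) := by
    rw [hB4, ← hkm, ← Th_map]
    exact Matrix.map_mul
  have hk1 : (toC Q ⊗ₖ toC Q) * (toC Q⁻¹ ⊗ₖ toC Q⁻¹) = 1 := by
    rw [← Matrix.mul_kronecker_mul, qc1, Matrix.one_kronecker_one]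
  have hk2 : (toC Q⁻¹ ⊗ₖ toC Q⁻¹) * (toC Q ⊗ₖ toC Q) = 1 := by
    rw [← Matrix.mul_kronecker_mul, qc2, Matrix.one_kronecker_one]
  have hThB : Th (cC C) = (toC Q ⊗ₖ toC Q) * toC B4 := by
    rw [hB4c, ← Matrix.mul_assoc, hk1, Matrix.one_mul]
  have hskew : hᵀ * toC Q = -(toC Q * h) := by rw [hh, hQ]; exact H.skew'
  obtain ⟨DD, hDD⟩ : ∃ DD, DD = h ⊗ₖ (1 : Matrix m m ℂ) + (1 : Matrix m m ℂ) ⊗ₖ h := ⟨_, rfl⟩
  have hDQ : DDᵀ * (toC Q ⊗ₖ toC Q) = -((toC Q ⊗ₖ toC Q) * DD) := by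
    have t1 : (h ⊗ₖ (1 : Matrix m m ℂ))ᵀ = hᵀ ⊗ₖ (1 : Matrix m m ℂ) := by
      rw [← Matrix.kroneckerMap_transpose, Matrix.transpose_one]
    have t2 : ((1 : Matrix m m ℂ) ⊗ₖ h)ᵀ = (1 : Matrix m m ℂ) ⊗ₖ hᵀ := by
      rw [← Matrix.kroneckerMap_transpose, Matrix.transpose_one]
    have n1 : (-(toC Q * h)) ⊗ₖ toC Q = -((toC Q * h) ⊗ₖ toC Q) := by
      ext p q
      simp
    have n2 : toC Q ⊗ₖ (-(toC Q * h)) = -(toC Q ⊗ₖ (toC Q * h)) := by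
      ext p q
      simp
    rw [hDD, Matrix.transpose_add, t1, t2, Matrix.add_mul, Matrix.mul_add, ← Matrix.mul_kronecker_mul,
      ← Matrix.mul_kronecker_mul, ← Matrix.mul_kronecker_mul, ← Matrix.mul_kronecker_mul, Matrix.one_mul,
      Matrix.mul_one, hskew, n1, n2]
    abel
  have hcomm : DD * toC B4 = toC B4 * DD := by
    have a1 : (toC Q ⊗ₖ toC Q) * (toC B4 * DD) = (toC Q ⊗ₖ toC Q) * (DD * toC B4) := by
      rw [← Matrix.mul_assoc, ← hThB, hDD, hinv, ← hDD, hThB, ← Matrix.mul_assoc, hDQ]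
      simp only [Matrix.neg_mul, neg_neg, Matrix.mul_assoc]
    calc DD * toC B4 = (toC Q⁻¹ ⊗ₖ toC Q⁻¹) * ((toC Q ⊗ₖ toC Q) * (DD * toC B4)) := by
          rw [← Matrix.mul_assoc, hk2, Matrix.one_mul]
      _ = toC B4 * DD := by rw [← a1, ← Matrix.mul_assoc, hk2, Matrix.one_mul]
  have hId : Idm {2, 1, 0} (PH24 (Opr.sm B C K)) := PH24_idm H.cube
  have hB : ((∑ p ∈ ({2, 1, 0} : Finset ℤ), (p : ℂ) • PH24 (Opr.sm B C K) p) ⊗ₖ (1 : Matrix m m ℂ) +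
      (1 : Matrix m m ℂ) ⊗ₖ (∑ p ∈ ({2, 1, 0} : Finset ℤ), (p : ℂ) • PH24 (Opr.sm B C K) p)) * toC B4 =
      toC B4 * ((∑ p ∈ ({2, 1, 0} : Finset ℤ), (p : ℂ) • PH24 (Opr.sm B C K) p) ⊗ₖ (1 : Matrix m m ℂ) +
      (1 : Matrix m m ℂ) ⊗ₖ (∑ p ∈ ({2, 1, 0} : Finset ℤ), (p : ℂ) • PH24 (Opr.sm B C K) p)) := by
    have a1 : ((1 : Matrix m m ℂ) + h) ⊗ₖ (1 : Matrix m m ℂ) + (1 : Matrix m m ℂ) ⊗ₖ ((1 : Matrix m m ℂ) + h) =
        (2 : ℂ) • (1 : Matrix (m × m) (m × m) ℂ) + DD := by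
      rw [hDD, Matrix.add_kronecker, Matrix.kronecker_add, Matrix.one_kronecker_one, two_smul]
      abel
    rw [PH24_grade, ← hh, a1, Matrix.add_mul, Matrix.mul_add, hcomm, Matrix.smul_mul, Matrix.mul_smul,
      Matrix.one_mul, Matrix.mul_one]
  have hmt := mt_comm_kron hId hB hg
  -- the form in coordinates
  obtain ⟨γ, hγ⟩ : ∃ γ : Matrix m m ℂ, γ = (g : Matrix m m ℂ) := ⟨_, rfl⟩
  rw [← hγ] at giso hmt gb1 gfix
  have hfin : (γᵀ ⊗ₖ γᵀ) * Th (cC C) * (γ ⊗ₖ γ) = Th (cC C) := by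
    rw [hThB]
    calc (γᵀ ⊗ₖ γᵀ) * ((toC Q ⊗ₖ toC Q) * toC B4) * (γ ⊗ₖ γ)
        = (γᵀ ⊗ₖ γᵀ) * (toC Q ⊗ₖ toC Q) * (toC B4 * (γ ⊗ₖ γ)) := by simp only [Matrix.mul_assoc]
      _ = ((γᵀ ⊗ₖ γᵀ) * (toC Q ⊗ₖ toC Q) * (γ ⊗ₖ γ)) * toC B4 := by rw [hmt]; simp only [Matrix.mul_assoc]
      _ = (toC Q ⊗ₖ toC Q) * toC B4 := by
          rw [← Matrix.mul_kronecker_mul, ← Matrix.mul_kronecker_mul, giso]
  have hkv : ∀ (M : Matrix m m ℂ) (u w : m → ℂ), ((M ⊗ₖ M) *ᵥ fun p : m × m => u p.1 * w p.2) =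
      fun p : m × m => (M *ᵥ u) p.1 * (M *ᵥ w) p.2 := by
    intro M u w
    funext p
    rw [Matrix.mulVec, dotProduct, Fintype.sum_prod_type]
    simp only [Matrix.mulVec, dotProduct, Matrix.kroneckerMap_apply, Finset.sum_mul_sum]
    refine Finset.sum_congr rfl fun i _ => Finset.sum_congr rfl fun j _ => by ring
  have hq4 : ∀ a d' x' y' : m → ℂ, quart (mt (cC C *ᵥ (γ *ᵥ x'))) (mt (cC C *ᵥ (γ *ᵥ a))) (mt (cC C *ᵥ (γ *ᵥ y')))
      (mt (cC C *ᵥ (γ *ᵥ d'))) = quart (mt (cC C *ᵥ x')) (mt (cC C *ᵥ a)) (mt (cC C *ᵥ y')) (mt (cC C *ᵥ d')) := by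
    intro a d' x' y'
    rw [← Th_form, ← Th_form]
    conv_rhs => rw [← hfin]
    rw [← hkv, ← hkv, ← Matrix.vecMul_transpose, ← Matrix.dotProduct_mulVec, Matrix.mulVec_mulVec,
      Matrix.mulVec_mulVec, ← Matrix.kroneckerMap_transpose, Matrix.mul_assoc]
  have key := hq4 x d b1 y
  rw [gb1, gfix x e1x e2x, gfix y e1y e2y, gfix d e1d e2d, Matrix.mulVec_neg, c1, cX, cY, cD] at key
  have k1 : mt (-vc v1) = -v1 := rfl
  rw [k1, mt_vc, mt_vc, mt_vc, mt_vc] at key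
  have k2 : quart (-v1) X Y D = -quart v1 X Y D := by
    simp [quart]
  rw [k2] at key
  apply hq
  linear_combination (-1 / 2 : ℂ) * key

end QU55
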