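import Pool.Agent.Helper55.QU.Sp
import Pool.Agent.Helper55.QU.Not

/-!
AllGeometricGenera (MP_b8862a_ag), construction QUAT: the operator of the Hodge structure.
-/

set_option linter.unusedSectionVars false

open Matrix MH

namespace QU55

open SH94 (cC cC_mul cC_one cC_conj cC_inj)

variable {W : Type*} [Fintype W] [DecidableEq W]

section
variable {R : Type*} [CommRing R]

/-- a multiple of the commutator -/
def adL (c : R) (J : Matrix W W R) : Matrix W W R →ₗ[R] Matrix W W R where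
  toFun X := c • (J * X - X * J)
  map_add' X Y := by
    rw [mul_add, add_mul, ← smul_add]
    congr 1
    abel
  map_smul' a X := by
    rw [mul_smul_comm, smul_mul_assoc, ← smul_sub, RingHom.id_apply, smul_comm]

theorem adL_apply (c : R) (J X : Matrix W W R) : adL c J X = c • (J * X - X * J) := rfl

end

/-- The operator of the Hodge structure: a complex structure on a quaternionic line. -/
structure OpJ (G A B J : Matrix W W ℂ) : Prop where
  g : InG G A B J
  cub : J * J * J = -J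
  real : J.map (starRingEnd ℂ) = J
  one : ∀ X : Matrix W W ℂ, InV G A B X → ∃ q : ℂ, J * X * J = q • (J * J)

section
variable {G A B J : Matrix W W ℂ} (H : Qd G A B) (hJ : OpJ G A B J)
include H hJ

theorem ad_mem {X : Matrix W W ℂ} (hX : InV G A B X) (c : ℂ) : InV G A B (adL c J X) := by
  have hG := hJ.g
  have e2 : G * Jᵀ = -(J * G) := by
    calc G * Jᵀ = G * Jᵀ * (G * G) := by rw [H.gg, mul_one]
      _ = G * Jᵀ * G * G := by simp only [mul_assoc]
      _ = -(J * G) := by rw [hG.sk, neg_mul]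
  have e3 : Jᵀ * G = -(G * J) := by
    calc Jᵀ * G = G * G * Jᵀ * G := by rw [H.gg, one_mul]
      _ = G * (G * Jᵀ * G) := by simp only [mul_assoc]
      _ = -(G * J) := by rw [hG.sk, mul_neg]
  refine ⟨?_, ?_, ?_, ?_⟩
  · rw [adL_apply, smul_mul_assoc, mul_smul_comm, sub_mul, mul_sub, mul_assoc, hX.xa, ← mul_assoc, hG.xa, mul_assoc X,
      hG.xa, ← mul_assoc X, hX.xa]
    simp only [mul_assoc]
  · rw [adL_apply, smul_mul_assoc, mul_smul_comm, sub_mul, mul_sub, mul_assoc, hX.xb, ← mul_assoc, hG.xb, mul_assoc X,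
      hG.xb, ← mul_assoc X, hX.xb]
    simp only [mul_assoc]
  · have e4 : G * (Xᵀ * Jᵀ) * G = -(X * J) := by
      rw [mul_assoc, mul_assoc, e3, mul_neg, mul_neg, ← mul_assoc, ← mul_assoc, hX.sy]
    have e5 : G * (Jᵀ * Xᵀ) * G = -(J * X) := by
      rw [← mul_assoc, e2, neg_mul, neg_mul, mul_assoc, mul_assoc J, ← mul_assoc G, hX.sy]
    rw [adL_apply, Matrix.transpose_smul, mul_smul_comm, smul_mul_assoc, Matrix.transpose_sub, Matrix.transpose_mul,
      Matrix.transpose_mul, mul_sub, sub_mul, e4, e5]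
    congr 1
    abel
  · rw [adL_apply, Matrix.trace_smul, Matrix.trace_sub, Matrix.trace_mul_comm, sub_self, smul_zero]

omit H in
theorem ad_cub {X : Matrix W W ℂ} (hX : InV G A B X) {c : ℂ} (hc : c * c = -1) :
    adL c J (adL c J (adL c J X)) = adL c J X := by
  obtain ⟨q, hq⟩ := hJ.one X hX
  have e1 : J * J * X * J = J * X * (J * J) := by
    calc J * J * X * J = J * (J * X * J) := by simp only [mul_assoc]
      _ = J * X * J * J := by rw [hq, mul_smul_comm, smul_mul_assoc, mul_assoc]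
      _ = J * X * (J * J) := by simp only [mul_assoc]
  have e2 : J * J * J * X = -(J * X) := by rw [hJ.cub, neg_mul]
  have e3 : X * (J * J * J) = -(X * J) := by rw [hJ.cub, mul_neg]
  have e0 : ∀ Y : Matrix W W ℂ, J * (c • Y) - c • Y * J = c • (J * Y - Y * J) := by
    intro Y
    rw [mul_smul_comm, smul_mul_assoc, ← smul_sub]
  rw [adL_apply, adL_apply, adL_apply, e0, e0, e0, smul_smul, smul_smul]
  have e4 : J * (J * (J * X - X * J) - (J * X - X * J) * J) - (J * (J * X - X * J) - (J * X - X * J) * J) * J =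
      J * J * J * X - X * (J * J * J) - (3 : ℂ) • (J * J * X * J - J * X * (J * J)) := by
    simp only [mul_sub, sub_mul, mul_assoc]
    module
  rw [e4, e1, sub_self, smul_zero, sub_zero, e2, e3]
  have e5 : c * c * c = -c := by rw [hc, neg_one_mul]
  rw [e5, neg_smul, ← smul_neg]
  congr 1
  abel

theorem ad_sq {X : Matrix W W ℂ} (hX : InV G A B X) {c : ℂ} (hc : c * c = -1) :
    X - (2 : ℂ) • adL c J (adL c J X) = (1 + (2 : ℂ) • (J * J)) * X * (1 + (2 : ℂ) • (J * J)) := by
  obtain ⟨q, hq⟩ := hJ.one X hX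
  have e1 : J * J * X * (J * J) = -(J * X * J) := by
    calc J * J * X * (J * J) = J * (J * X * J) * J := by simp only [mul_assoc]
      _ = q • (J * J * J * J) := by rw [hq, mul_smul_comm, smul_mul_assoc]; simp only [mul_assoc]
      _ = -(J * X * J) := by rw [hJ.cub, hq, neg_mul, smul_neg]
  have e0 : ∀ Y : Matrix W W ℂ, J * (c • Y) - c • Y * J = c • (J * Y - Y * J) := by
    intro Y
    rw [mul_smul_comm, smul_mul_assoc, ← smul_sub]
  rw [adL_apply, adL_apply, e0, smul_smul c c, hc]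
  have e2 : J * (J * X - X * J) - (J * X - X * J) * J = J * J * X - (2 : ℂ) • (J * X * J) + X * (J * J) := by
    simp only [mul_sub, sub_mul, mul_assoc]
    module
  have e3 : (1 + (2 : ℂ) • (J * J)) * X * (1 + (2 : ℂ) • (J * J)) =
      X + (2 : ℂ) • (J * J * X) + (2 : ℂ) • (X * (J * J)) + (4 : ℂ) • (J * J * X * (J * J)) := by
    simp only [mul_add, add_mul, mul_one, one_mul, mul_smul_comm, smul_mul_assoc, mul_assoc]
    module
  rw [e2, e3, e1]
  module

end

/-- a linear map of matrices commutes with complex conjugation of the coordinates -/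
theorem star_vc (X : Matrix W W ℂ) : star (vc X) = vc (X.map (starRingEnd ℂ)) := rfl

section opr
variable {G A B : Matrix W W ℚ} {J : Matrix W W ℂ} (H : Qd G A B) (hJ : OpJ (toC G) (toC A) (toC B) J)

theorem Qd.map {R R' : Type*} [CommRing R] [CommRing R'] (f : R →+* R') {G A B : Matrix W W R} (H : Qd G A B) :
    Qd (G.map f) (A.map f) (B.map f) := by
  have h1 : (1 : Matrix W W R).map f = 1 := Matrix.map_one _ (map_zero f) (map_one f)
  have hn : ∀ X : Matrix W W R, (-X).map f = -(X.map f) := by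
    intro X
    ext i j
    simp
  refine ⟨?_, ?_, ?_, ?_, ?_, ?_, ?_, ?_, ?_⟩
  · rw [← Matrix.map_mul, H.gg, h1]
  · rw [← Matrix.transpose_map, H.gt]
  · rw [← Matrix.map_mul, H.aa, hn, h1]
  · rw [← Matrix.transpose_map, H.at', hn]
  · rw [← Matrix.map_mul, H.bb, hn, h1]
  · rw [← Matrix.transpose_map, H.bt, hn]
  · rw [← Matrix.map_mul, H.ba, hn, Matrix.map_mul]
  · rw [← Matrix.map_mul, H.ga, Matrix.map_mul]
  · rw [← Matrix.map_mul, H.gb, Matrix.map_mul]

theorem bil_ext {N R : Type*} [Fintype N] [DecidableEq N] [CommRing R] {A B : Matrix N N R}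
    (h : ∀ x y, x ⬝ᵥ (A *ᵥ y) = x ⬝ᵥ (B *ᵥ y)) : A = B := by
  ext i j
  have := h (Pi.single i 1) (Pi.single j 1)
  simpa using this

theorem InV.conj {G A B : Matrix W W ℚ} {X : Matrix W W ℂ} (h : InV (toC G) (toC A) (toC B) X) :
    InV (toC G) (toC A) (toC B) (X.map (starRingEnd ℂ)) := by
  have hr : ∀ M : Matrix W W ℚ, (toC M).map (starRingEnd ℂ) = toC M := by
    intro M
    ext i j
    simp [toC]
  refine ⟨?_, ?_, ?_, ?_⟩
  · rw [← hr A, ← Matrix.map_mul, h.xa, Matrix.map_mul, hr A]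
  · rw [← hr B, ← Matrix.map_mul, h.xb, Matrix.map_mul, hr B]
  · rw [← hr G, ← Matrix.transpose_map, ← Matrix.map_mul, ← Matrix.map_mul, h.sy]
  · have : (X.map (starRingEnd ℂ)).trace = starRingEnd ℂ X.trace := by
      simp only [Matrix.trace, Matrix.diag_apply, Matrix.map_apply, map_sum]
    rw [this, h.tr, map_zero]

theorem efL_map {K K' : Type*} [Field K] [CharZero K] [Field K'] [CharZero K'] (f : K →+* K') (G A B X : Matrix W W K) :
    (efL G A B X).map f = efL (G.map f) (A.map f) (B.map f) (X.map f) := by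
  have h1 : (1 : Matrix W W K).map f = 1 := Matrix.map_one _ (map_zero f) (map_one f)
  have hs : (s1 A B X).map f = s1 (A.map f) (B.map f) (X.map f) := by
    unfold s1
    rw [Matrix.map_add _ (map_add f), Matrix.map_sub _ (map_sub f), Matrix.map_sub _ (map_sub f)]
    simp only [Matrix.map_mul]
  have hm : ∀ (c : K) (Y : Matrix W W K), (c • Y).map f = f c • Y.map f := by
    intro c Y
    ext i j
    simp
  have ht : f (X.trace) = (X.map f).trace := by
    simp only [Matrix.trace, Matrix.diag_apply, Matrix.map_apply, map_sum]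
  rw [efL_apply, efL_apply, Matrix.map_sub _ (map_sub f), hm, hm, h1, Matrix.map_add _ (map_add f), Matrix.map_mul,
    Matrix.map_mul, Matrix.transpose_map, hs, map_div₀, map_div₀, map_one, ht, map_natCast,
    show (8 : K) = ((8 : ℕ) : K) by norm_num, map_natCast]
  norm_num

theorem toC_mx_ef : toC (mx (efL G A B)) = mx (efL (toC G) (toC A) (toC B)) :=
  mx_map (algebraMap ℚ ℂ) _ _ fun X => efL_map (algebraMap ℚ ℂ) G A B X

include H hJ in
/-- the operator has all the properties -/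
theorem opr [Nonempty W] {m : Type*} [Fintype m] [DecidableEq m] {B' : Matrix m (W × W) ℚ} {C : Matrix (W × W) m ℚ}
    (h1 : B' * C = 1) (h2 : C * B' = mx (efL G A B))
    (hpos : ∀ X : Matrix W W ℂ, InV (toC G) (toC A) (toC B) X → X ≠ 0 →
      0 < (X * ((1 + (2 : ℂ) • (J * J)) * X.map (starRingEnd ℂ) * (1 + (2 : ℂ) • (J * J)))).trace.re) :
    Opr (MH.PGN.T W ℚ) B' C (mx (adL (-Complex.I) J)) := by
  have Hc : Qd (toC G) (toC A) (toC B) := H.map (algebraMap ℚ ℂ)
  have hT : toC (MH.PGN.T W ℚ) = MH.PGN.T W ℂ := MH.PGN.T_map _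
  have hcc : -Complex.I * -Complex.I = -1 := by rw [neg_mul_neg, Complex.I_mul_I]
  obtain ⟨c, hc⟩ : ∃ c : ℂ, c = -Complex.I := ⟨_, rfl⟩
  rw [← hc] at hcc ⊢
  have hcj : starRingEnd ℂ c = -c := by rw [hc, map_neg, Complex.conj_I]
  have hE : ∀ X, toC (C * B') *ᵥ vc X = vc (efL (toC G) (toC A) (toC B) X) := by
    intro X
    rw [h2, toC_mx_ef, mx_mulVec]
  refine ⟨h1, ?_, ?_, ?_, MH.PGN.T_transpose, ?_, ?_⟩
  · apply mulVec_ext
    intro v
    obtain ⟨X, rfl⟩ : ∃ X : Matrix W W ℂ, v = vc X := ⟨mt v, (vc_mt v).symm⟩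
    rw [← Matrix.mulVec_mulVec, ← Matrix.mulVec_mulVec, mx_mulVec, hE X, mx_mulVec, hE, adL_apply, map_smul,
      ef_ad Hc hJ.g, adL_apply]
  · apply mulVec_ext
    intro v
    rw [← vc_mt v, ← Matrix.mulVec_mulVec, ← Matrix.mulVec_mulVec, hE, ← Matrix.mulVec_mulVec, ← Matrix.mulVec_mulVec,
      mx_mulVec, mx_mulVec, mx_mulVec, ad_cub hJ (ef_mem Hc _) hcc, hE, mx_mulVec]
  · ext p q
    rw [Matrix.map_apply, Matrix.neg_apply, mx, adL_apply]
    have e1 : ∀ (X : Matrix W W ℂ) (i j : W), starRingEnd ℂ (X i j) = (X.map (starRingEnd ℂ)) i j := fun _ _ _ => rfl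
    have e2 : (Matrix.single q.1 q.2 (1 : ℂ)).map (starRingEnd ℂ) = Matrix.single q.1 q.2 1 := by
      ext a b
      rw [Matrix.map_apply, Matrix.single_apply]
      split_ifs <;> simp
    rw [Matrix.smul_apply, smul_eq_mul, map_mul, hcj, e1, Matrix.map_sub _ (map_sub _), Matrix.map_mul,
      Matrix.map_mul, hJ.real, e2, neg_mul]
  · rw [hT]
    apply bil_ext
    intro x y
    rw [← vc_mt x, ← vc_mt y, ← Matrix.mulVec_mulVec, Matrix.dotProduct_mulVec, Matrix.vecMul_transpose, mx_mulVec,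
      T_vc, Matrix.neg_mulVec, dotProduct_neg, ← Matrix.mulVec_mulVec, mx_mulVec, T_vc, adL_apply, adL_apply]
    generalize mt x = X
    generalize mt y = Y
    rw [smul_mul_assoc, mul_smul_comm, Matrix.trace_smul, Matrix.trace_smul, sub_mul, mul_sub, Matrix.trace_sub,
      Matrix.trace_sub, ← mul_assoc X Y J, Matrix.trace_mul_comm (X * Y) J, mul_assoc J, mul_assoc X J]
    simp only [smul_eq_mul]
    ring
  · intro v hv hv0
    obtain ⟨X, rfl⟩ : ∃ X : Matrix W W ℂ, v = vc X := ⟨mt v, (vc_mt v).symm⟩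
    have hX : efL (toC G) (toC A) (toC B) X = X := by
      apply vc_inj
      rw [← hE, hv]
    have hX1 : InV (toC G) (toC A) (toC B) X := by
      rw [← hX]
      exact ef_mem Hc X
    have hX0 : X ≠ 0 := by
      rintro rfl
      exact hv0 rfl
    have h3 := hpos X hX1 hX0
    have h4 : (1 - (2 : ℂ) • (mx (adL c J) * mx (adL c J))) *ᵥ star (vc X) =
        vc ((1 + (2 : ℂ) • (J * J)) * X.map (starRingEnd ℂ) * (1 + (2 : ℂ) • (J * J))) := by
      rw [star_vc, Matrix.sub_mulVec, Matrix.one_mulVec, Matrix.smul_mulVec, ← Matrix.mulVec_mulVec, mx_mulVec,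
        mx_mulVec, ← vc_smul, ← vc_sub, ad_sq Hc hJ hX1.conj hcc]
    rw [h4, hT, T_vc]
    exact h3

end opr

end QU55
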