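import Pool.Agent.Helper55.QU.Jz

/-!
AllGeometricGenera (MP_b8862a_ag), construction QUAT: block matrices.
-/

set_option linter.unusedSectionVars false

open Matrix MH
open scoped Kronecker

namespace QU55

variable {ι : Type*} [Fintype ι] [DecidableEq ι] (o : ι)

section ring
variable {R : Type*} [CommRing R]

/-- a matrix with one block -/
def bl (a b : ι) (m : Matrix (Fin 4) (Fin 4) R) : Matrix (ι × Fin 4) (ι × Fin 4) R := Matrix.single a b (1 : R) ⊗ₖ m

/-- the blocks of a matrix -/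
def blk (X : Matrix (ι × Fin 4) (ι × Fin 4) R) (a b : ι) : Matrix (Fin 4) (Fin 4) R := fun r s => X (a, r) (b, s)

theorem bl_mul (a b d : ι) (m m' : Matrix (Fin 4) (Fin 4) R) : bl a b m * bl b d m' = bl a d (m * m') := by
  rw [bl, bl, bl, ← Matrix.mul_kronecker_mul, Matrix.single_mul_single_same, mul_one]

theorem bl_mul_ne {b c : ι} (h : b ≠ c) (a d : ι) (m m' : Matrix (Fin 4) (Fin 4) R) : bl a b m * bl c d m' = 0 := by
  rw [bl, bl, ← Matrix.mul_kronecker_mul, Matrix.single_mul_single_of_ne _ _ _ _ h, Matrix.zero_kronecker]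

theorem bl_add (a b : ι) (m m' : Matrix (Fin 4) (Fin 4) R) : bl a b (m + m') = bl a b m + bl a b m' := by
  rw [bl, Matrix.kronecker_add]
  rfl

theorem bl_neg (a b : ι) (m : Matrix (Fin 4) (Fin 4) R) : bl a b (-m) = -bl a b m := by
  rw [bl, kron_neg]
  rfl

theorem bl_smul (c : R) (a b : ι) (m : Matrix (Fin 4) (Fin 4) R) : bl a b (c • m) = c • bl a b m := by
  rw [bl, Matrix.kronecker_smul]
  rfl

theorem bl_zero (a b : ι) : bl a b (0 : Matrix (Fin 4) (Fin 4) R) = 0 := by
  rw [bl, Matrix.kronecker_zero]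

theorem bl_tr (a b : ι) (m : Matrix (Fin 4) (Fin 4) R) : (bl a b m)ᵀ = bl b a mᵀ := by
  rw [bl, ← Matrix.kroneckerMap_transpose, Matrix.transpose_single]
  rfl

theorem gG_bl (a b : ι) (m : Matrix (Fin 4) (Fin 4) R) : gG o R * bl a b m = ep o R a • bl a b m := by
  have h : Matrix.diagonal (ep o R) * Matrix.single a b (1 : R) = ep o R a • Matrix.single a b (1 : R) := by
    ext i j
    rw [Matrix.diagonal_mul, Matrix.smul_apply, smul_eq_mul, Matrix.single_apply]
    by_cases h : a = i ∧ b = j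
    · rw [h.1]
    · rw [if_neg h, mul_zero, mul_zero]
  rw [gG, bl, ← Matrix.mul_kronecker_mul, Matrix.one_mul, h, Matrix.smul_kronecker]

theorem bl_gG (a b : ι) (m : Matrix (Fin 4) (Fin 4) R) : bl a b m * gG o R = ep o R b • bl a b m := by
  have h : Matrix.single a b (1 : R) * Matrix.diagonal (ep o R) = ep o R b • Matrix.single a b (1 : R) := by
    ext i j
    rw [Matrix.mul_diagonal, Matrix.smul_apply, smul_eq_mul, Matrix.single_apply]
    by_cases h : a = i ∧ b = j
    · rw [h.2, mul_comm]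
    · rw [if_neg h, zero_mul, mul_zero]
  rw [gG, bl, ← Matrix.mul_kronecker_mul, Matrix.mul_one, h, Matrix.smul_kronecker]

theorem bl_gA (a b : ι) (m : Matrix (Fin 4) (Fin 4) R) : bl a b m * gA ι R = bl a b (m * ri R) := by
  rw [gA, bl, ← Matrix.mul_kronecker_mul, Matrix.mul_one]
  rfl

theorem gA_bl (a b : ι) (m : Matrix (Fin 4) (Fin 4) R) : gA ι R * bl a b m = bl a b (ri R * m) := by
  rw [gA, bl, ← Matrix.mul_kronecker_mul, Matrix.one_mul]
  rfl

theorem bl_gB (a b : ι) (m : Matrix (Fin 4) (Fin 4) R) : bl a b m * gB ι R = bl a b (m * rj R) := by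
  rw [gB, bl, ← Matrix.mul_kronecker_mul, Matrix.mul_one]
  rfl

theorem gB_bl (a b : ι) (m : Matrix (Fin 4) (Fin 4) R) : gB ι R * bl a b m = bl a b (rj R * m) := by
  rw [gB, bl, ← Matrix.mul_kronecker_mul, Matrix.one_mul]
  rfl

theorem bl_apply (a b : ι) (m : Matrix (Fin 4) (Fin 4) R) (x y : ι) (r s : Fin 4) :
    bl a b m (x, r) (y, s) = if a = x ∧ b = y then m r s else 0 := by
  rw [bl, Matrix.kroneckerMap_apply, Matrix.single_apply]
  split_ifs
  · rw [one_mul]
  · rw [zero_mul]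

theorem blk_bl (a b : ι) (m : Matrix (Fin 4) (Fin 4) R) : blk (bl a b m) a b = m := by
  ext r s
  rw [blk, bl_apply, if_pos ⟨rfl, rfl⟩]

theorem blk_bl_ne {a b x y : ι} (h : ¬(a = x ∧ b = y)) (m : Matrix (Fin 4) (Fin 4) R) : blk (bl a b m) x y = 0 := by
  ext r s
  rw [blk, bl_apply, if_neg h]
  rfl

theorem sum_bl (X : Matrix (ι × Fin 4) (ι × Fin 4) R) : X = ∑ a, ∑ b, bl a b (blk X a b) := by
  ext ⟨x, r⟩ ⟨y, s⟩
  rw [Matrix.sum_apply, Finset.sum_eq_single x]
  · rw [Matrix.sum_apply, Finset.sum_eq_single y]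
    · rw [bl_apply, if_pos ⟨rfl, rfl⟩]
      rfl
    · intro b _ hb
      rw [bl_apply, if_neg fun h => hb h.2]
    · intro h
      exact absurd (Finset.mem_univ _) h
  · intro a _ ha
    rw [Matrix.sum_apply]
    refine Finset.sum_eq_zero fun b _ => ?_
    rw [bl_apply, if_neg fun h => ha h.1]
  · intro h
    exact absurd (Finset.mem_univ _) h

theorem bl_trace (a b : ι) (m : Matrix (Fin 4) (Fin 4) R) : (bl a b m).trace = if a = b then m.trace else 0 := by
  rw [bl, Matrix.trace_kronecker, trace_single_one]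
  split_ifs
  · rw [one_mul]
  · rw [zero_mul]

theorem bl_sandwich (X : Matrix (ι × Fin 4) (ι × Fin 4) R) (a b : ι) : bl a a 1 * X * bl b b 1 = bl a b (blk X a b) := by
  conv_lhs => rw [sum_bl X]
  rw [Finset.mul_sum, Finset.sum_mul, Finset.sum_eq_single a]
  · rw [Finset.mul_sum, Finset.sum_mul, Finset.sum_eq_single b]
    · rw [bl_mul, bl_mul, one_mul, mul_one]
    · intro c _ hc
      rw [bl_mul, bl_mul_ne hc]
    · intro h
      exact absurd (Finset.mem_univ _) h
  · intro c _ hc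
    rw [Finset.mul_sum, Finset.sum_mul]
    refine Finset.sum_eq_zero fun d _ => ?_
    rw [bl_mul_ne (Ne.symm hc), zero_mul]
  · intro h
    exact absurd (Finset.mem_univ _) h

theorem blk_ri {X : Matrix (ι × Fin 4) (ι × Fin 4) R} (h : X * gA ι R = gA ι R * X) (a b : ι) :
    blk X a b * ri R = ri R * blk X a b := by
  have e1 : bl a b (blk X a b * ri R) = bl a b (ri R * blk X a b) := by
    rw [← bl_gA, ← gA_bl, ← bl_sandwich]
    have a1 : bl b b (1 : Matrix (Fin 4) (Fin 4) R) * gA ι R = gA ι R * bl b b 1 := by rw [bl_gA, gA_bl, one_mul, mul_one]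
    have a2 : bl a a (1 : Matrix (Fin 4) (Fin 4) R) * gA ι R = gA ι R * bl a a 1 := by rw [bl_gA, gA_bl, one_mul, mul_one]
    rw [mul_assoc _ (bl b b 1), a1, ← mul_assoc, mul_assoc (bl a a 1) X, h, ← mul_assoc, a2]
    simp only [mul_assoc]
  have := congrArg (fun Y => blk Y a b) e1
  simpa only [blk_bl] using this

theorem blk_rj {X : Matrix (ι × Fin 4) (ι × Fin 4) R} (h : X * gB ι R = gB ι R * X) (a b : ι) :
    blk X a b * rj R = rj R * blk X a b := by
  have e1 : bl a b (blk X a b * rj R) = bl a b (rj R * blk X a b) := by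
    rw [← bl_gB, ← gB_bl, ← bl_sandwich]
    have a1 : bl b b (1 : Matrix (Fin 4) (Fin 4) R) * gB ι R = gB ι R * bl b b 1 := by rw [bl_gB, gB_bl, one_mul, mul_one]
    have a2 : bl a a (1 : Matrix (Fin 4) (Fin 4) R) * gB ι R = gB ι R * bl a a 1 := by rw [bl_gB, gB_bl, one_mul, mul_one]
    rw [mul_assoc _ (bl b b 1), a1, ← mul_assoc, mul_assoc (bl a a 1) X, h, ← mul_assoc, a2]
    simp only [mul_assoc]
  have := congrArg (fun Y => blk Y a b) e1
  simpa only [blk_bl] using this

theorem blk_sy {X : Matrix (ι × Fin 4) (ι × Fin 4) R} (h : gG o R * Xᵀ * gG o R = X) (a b : ι) :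
    blk X b a = (ep o R a * ep o R b) • (blk X a b)ᵀ := by
  have hg : ∀ (x : ι) (r : Fin 4) (M : Matrix (ι × Fin 4) (ι × Fin 4) R) (q : ι × Fin 4),
      (gG o R * M) (x, r) q = ep o R x * M (x, r) q := by
    intro x r M q
    have hd : gG o R = Matrix.diagonal fun p : ι × Fin 4 => ep o R p.1 := by
      rw [gG, ← Matrix.diagonal_one, Matrix.diagonal_kronecker_diagonal]
      congr 1
      funext p
      rw [mul_one]
    rw [hd, Matrix.diagonal_mul]
  have hg' : ∀ (x : ι) (r : Fin 4) (M : Matrix (ι × Fin 4) (ι × Fin 4) R) (q : ι × Fin 4),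
      (M * gG o R) q (x, r) = M q (x, r) * ep o R x := by
    intro x r M q
    have hd : gG o R = Matrix.diagonal fun p : ι × Fin 4 => ep o R p.1 := by
      rw [gG, ← Matrix.diagonal_one, Matrix.diagonal_kronecker_diagonal]
      congr 1
      funext p
      rw [mul_one]
    rw [hd, Matrix.mul_diagonal]
  ext r s
  have e := congrFun (congrFun h (b, r)) (a, s)
  rw [hg', hg, Matrix.transpose_apply] at e
  rw [blk, ← e, Matrix.smul_apply, smul_eq_mul, Matrix.transpose_apply, blk]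
  ring

/-- the off-diagonal elements of the space -/
def Xb (a b : ι) (m : Matrix (Fin 4) (Fin 4) R) : Matrix (ι × Fin 4) (ι × Fin 4) R :=
  bl a b m + (ep o R a * ep o R b) • bl b a mᵀ

/-- the commutant of the right multiplications -/
structure InC (m : Matrix (Fin 4) (Fin 4) R) : Prop where
  i : m * ri R = ri R * m
  j : m * rj R = rj R * m

theorem InC.tr {m : Matrix (Fin 4) (Fin 4) R} (h : InC m) : InC mᵀ := by
  refine ⟨?_, ?_⟩
  · have := congrArg Matrix.transpose h.i
    rw [Matrix.transpose_mul, Matrix.transpose_mul, ri_tr, Matrix.neg_mul, Matrix.mul_neg, neg_inj] at this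
    exact this.symm
  · have := congrArg Matrix.transpose h.j
    rw [Matrix.transpose_mul, Matrix.transpose_mul, rj_tr, Matrix.neg_mul, Matrix.mul_neg, neg_inj] at this
    exact this.symm

theorem inC_one : InC (1 : Matrix (Fin 4) (Fin 4) R) := ⟨by simp, by simp⟩

theorem inC_lam (z : Fin 4 → R) : InC (lam z) := ⟨lam_ri z, lam_rj z⟩

theorem inC_qi : InC (qi R) := by
  rw [qi_lam]
  exact inC_lam _

theorem inC_qj : InC (qj R) := by
  rw [qj_lam]
  exact inC_lam _

theorem InC.mul {m m' : Matrix (Fin 4) (Fin 4) R} (h : InC m) (h' : InC m') : InC (m * m') := by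
  refine ⟨?_, ?_⟩
  · rw [mul_assoc, h'.i, ← mul_assoc, h.i, mul_assoc]
  · rw [mul_assoc, h'.j, ← mul_assoc, h.j, mul_assoc]

theorem Xb_mem {a b : ι} (hab : a ≠ b) {m : Matrix (Fin 4) (Fin 4) R} (hm : InC m) :
    InV (gG o R) (gA ι R) (gB ι R) (Xb o a b m) := by
  have hm' := hm.tr
  refine ⟨?_, ?_, ?_, ?_⟩
  · rw [Xb, add_mul, mul_add, smul_mul_assoc, mul_smul_comm, bl_gA, gA_bl, bl_gA, gA_bl, hm.i, hm'.i]
  · rw [Xb, add_mul, mul_add, smul_mul_assoc, mul_smul_comm, bl_gB, gB_bl, bl_gB, gB_bl, hm.j, hm'.j]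
  · rw [Xb, Matrix.transpose_add, Matrix.transpose_smul, bl_tr, bl_tr, Matrix.transpose_transpose, mul_add, add_mul,
      mul_smul_comm, smul_mul_assoc, gG_bl, gG_bl, smul_mul_assoc, smul_mul_assoc, bl_gG, bl_gG, smul_smul, smul_smul,
      smul_smul]
    have e1 : ep o R a * ep o R b * ep o R a * ep o R b = 1 := by
      calc ep o R a * ep o R b * ep o R a * ep o R b = (ep o R a * ep o R a) * (ep o R b * ep o R b) := by ring
        _ = 1 := by rw [ep_sq, ep_sq, one_mul]
    rw [e1, one_smul, add_comm, mul_comm (ep o R b)]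
  · rw [Xb, Matrix.trace_add, Matrix.trace_smul, bl_trace, bl_trace, if_neg hab, if_neg (Ne.symm hab), smul_zero,
      add_zero]

/-- the off-diagonal elements of the Lie algebra -/
def Yb (a b : ι) : Matrix (ι × Fin 4) (ι × Fin 4) R := ep o R b • bl a b 1 - ep o R a • bl b a 1

variable {a b d : ι}

theorem ad_bl_left (hab : a ≠ b) {p : Matrix (Fin 4) (Fin 4) R} (hp : pᵀ = -p) (m : Matrix (Fin 4) (Fin 4) R) :
    bl a a p * Xb o a b m - Xb o a b m * bl a a p = Xb o a b (p * m) := by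
  rw [Xb, Xb, mul_add, add_mul, mul_smul_comm, smul_mul_assoc, bl_mul, bl_mul_ne hab, bl_mul_ne (Ne.symm hab), bl_mul,
    smul_zero, add_zero, zero_add, Matrix.transpose_mul, hp, mul_neg, bl_neg, smul_neg]
  abel

theorem ad_bl_right (hab : a ≠ b) {p : Matrix (Fin 4) (Fin 4) R} (hp : pᵀ = -p) (m : Matrix (Fin 4) (Fin 4) R) :
    bl b b p * Xb o a b m - Xb o a b m * bl b b p = -Xb o a b (m * p) := by
  rw [Xb, Xb, mul_add, add_mul, mul_smul_comm, smul_mul_assoc, bl_mul, bl_mul_ne (Ne.symm hab), bl_mul_ne hab, bl_mul,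
    smul_zero, add_zero, zero_add, Matrix.transpose_mul, hp, neg_mul, bl_neg, smul_neg]
  abel

theorem ad_Yb (hab : a ≠ b) (had : a ≠ d) (hbd : b ≠ d) (m : Matrix (Fin 4) (Fin 4) R) :
    Yb o a b * Xb o b d m - Xb o b d m * Yb o a b = ep o R b • Xb o a d m := by
  rw [Xb, Xb, Yb, mul_add, add_mul, sub_mul, sub_mul, mul_sub, mul_sub]
  simp only [smul_mul_assoc, mul_smul_comm, bl_mul, bl_mul_ne hab, bl_mul_ne (Ne.symm hab), bl_mul_ne had,
    bl_mul_ne (Ne.symm had), bl_mul_ne hbd, bl_mul_ne (Ne.symm hbd), smul_zero, sub_zero, zero_sub, add_zero, zero_add,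
    one_mul, mul_one, smul_add, smul_smul]
  have e1 : ep o R b * (ep o R a * ep o R d) = ep o R b * ep o R d * ep o R a := by ring
  have e2 : ep o R a * (ep o R b * ep o R d) = ep o R b * ep o R d * ep o R a := by ring
  rw [e1, e2]
  abel

theorem Yb_Xb (hab : a ≠ b) :
    Yb o a b * Xb o a b 1 - Xb o a b 1 * Yb o a b = (2 * ep o R a) • (bl a a 1 - bl b b (1 : Matrix (Fin 4) (Fin 4) R)) := by
  rw [Xb, Yb, mul_add, add_mul, sub_mul, sub_mul, mul_sub, mul_sub]
  simp only [smul_mul_assoc, mul_smul_comm, bl_mul, bl_mul_ne hab, bl_mul_ne (Ne.symm hab), smul_zero, sub_zero,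
    zero_sub, mul_one, smul_smul, Matrix.transpose_one]
  have e1 : ep o R a * ep o R b * ep o R b = ep o R a := by rw [mul_assoc, ep_sq, mul_one]
  have e2 : ep o R b * (ep o R a * ep o R b) = ep o R a := by rw [mul_comm, mul_assoc, ep_sq, mul_one]
  rw [e1, e2]
  module

theorem Xb_swap (a b : ι) : Xb o a b (1 : Matrix (Fin 4) (Fin 4) R) = (ep o R a * ep o R b) • Xb o b a 1 := by
  have e1 : ep o R a * ep o R b * (ep o R b * ep o R a) = 1 := by
    calc ep o R a * ep o R b * (ep o R b * ep o R a) = (ep o R a * ep o R a) * (ep o R b * ep o R b) := by ring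
      _ = 1 := by rw [ep_sq, ep_sq, one_mul]
  rw [Xb, Xb, smul_add, smul_smul, e1, one_smul, Matrix.transpose_one, add_comm]

theorem blk_Xb (hab : a ≠ b) (m : Matrix (Fin 4) (Fin 4) R) : blk (Xb o a b m) a b = m := by
  have e1 : blk (Xb o a b m) a b = blk (bl a b m) a b + (ep o R a * ep o R b) • blk (bl b a mᵀ) a b := rfl
  rw [e1, blk_bl, blk_bl_ne (fun h => hab h.2), smul_zero, add_zero]

theorem Xb_of {M : Matrix (ι × Fin 4) (ι × Fin 4) R} (hM : InV (gG o R) (gA ι R) (gB ι R) M)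
    (h : M = bl a a 1 * M * bl b b 1 + bl b b 1 * M * bl a a 1) : M = Xb o a b (blk M a b) ∧ InC (blk M a b) := by
  refine ⟨?_, blk_ri hM.xa a b, blk_rj hM.xb a b⟩
  conv_lhs => rw [h]
  rw [bl_sandwich, bl_sandwich, blk_sy o hM.sy a b, bl_smul]
  rfl

end ring

end QU55
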