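import Mathlib

/-!
AllGeometricGenera (MP_b8862a_ag), construction QUAT: linear maps of matrices as matrices.
-/

set_option linter.unusedSectionVars false

open Matrix

namespace QU55

variable {W : Type*} [Fintype W] [DecidableEq W] {R : Type*} [CommRing R]

/-- the coordinates of a matrix -/
def vc (X : Matrix W W R) : W × W → R := fun p => X p.1 p.2

/-- the matrix with given coordinates -/
def mt (v : W × W → R) : Matrix W W R := fun p q => v (p, q)

theorem vc_mt (v : W × W → R) : vc (mt v) = v := rfl

theorem mt_vc (X : Matrix W W R) : mt (vc X) = X := rfl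

theorem vc_inj {X Y : Matrix W W R} (h : vc X = vc Y) : X = Y := by
  rw [← mt_vc X, h, mt_vc]

theorem vc_add (X Y : Matrix W W R) : vc (X + Y) = vc X + vc Y := rfl

theorem vc_sub (X Y : Matrix W W R) : vc (X - Y) = vc X - vc Y := rfl

theorem vc_smul (c : R) (X : Matrix W W R) : vc (c • X) = c • vc X := rfl

theorem vc_zero : vc (0 : Matrix W W R) = 0 := rfl

/-- the matrix of a linear map of matrices -/
def mx (F : Matrix W W R →ₗ[R] Matrix W W R) : Matrix (W × W) (W × W) R :=
  fun p q => F (Matrix.single q.1 q.2 1) p.1 p.2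

theorem mx_mulVec (F : Matrix W W R →ₗ[R] Matrix W W R) (X : Matrix W W R) : mx F *ᵥ vc X = vc (F X) := by
  funext p
  rw [Matrix.mulVec, dotProduct, Fintype.sum_prod_type]
  conv_rhs => rw [vc, Matrix.matrix_eq_sum_single X, map_sum, Matrix.sum_apply]
  refine Finset.sum_congr rfl fun a _ => ?_
  rw [map_sum, Matrix.sum_apply]
  refine Finset.sum_congr rfl fun b _ => ?_
  have h1 : Matrix.single a b (X a b) = X a b • Matrix.single a b (1 : R) := by
    rw [Matrix.smul_single, smul_eq_mul, mul_one]
  rw [h1, map_smul, Matrix.smul_apply, smul_eq_mul, mul_comm]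
  rfl

theorem mulVec_ext {N : Type*} [Fintype N] [DecidableEq N] {A B : Matrix N N R} (h : ∀ v, A *ᵥ v = B *ᵥ v) : A = B := by
  ext i j
  have := congrFun (h (Pi.single j 1)) i
  simpa using this

theorem mx_mul (F G : Matrix W W R →ₗ[R] Matrix W W R) : mx F * mx G = mx (F ∘ₗ G) := by
  apply mulVec_ext
  intro v
  rw [← vc_mt v, ← Matrix.mulVec_mulVec, mx_mulVec, mx_mulVec, mx_mulVec]
  rfl

theorem mx_id : mx (LinearMap.id : Matrix W W R →ₗ[R] Matrix W W R) = 1 := by
  apply mulVec_ext
  intro v
  rw [← vc_mt v, mx_mulVec, Matrix.one_mulVec]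
  rfl

theorem mx_add (F G : Matrix W W R →ₗ[R] Matrix W W R) : mx (F + G) = mx F + mx G := rfl

theorem mx_smul (c : R) (F : Matrix W W R →ₗ[R] Matrix W W R) : mx (c • F) = c • mx F := rfl

theorem mx_trace (F : Matrix W W R →ₗ[R] Matrix W W R) :
    (mx F).trace = ∑ p, ∑ q, F (Matrix.single p q 1) p q := by
  rw [Matrix.trace, Fintype.sum_prod_type]
  rfl

/-- the matrix of a linear map of matrices, with other coefficients -/
theorem mx_map {R' : Type*} [CommRing R'] (f : R →+* R') (F : Matrix W W R →ₗ[R] Matrix W W R)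
    (F' : Matrix W W R' →ₗ[R'] Matrix W W R') (h : ∀ X : Matrix W W R, (F X).map f = F' (X.map f)) :
    (mx F).map f = mx F' := by
  ext p q
  have e1 : (Matrix.single q.1 q.2 (1 : R)).map f = Matrix.single q.1 q.2 (1 : R') := by
    ext a b
    rw [Matrix.map_apply, Matrix.single_apply, Matrix.single_apply]
    split_ifs
    · exact map_one f
    · exact map_zero f
  have e2 := congrFun (congrFun (h (Matrix.single q.1 q.2 1)) p.1) p.2
  rw [e1] at e2
  exact e2

/-- the trace of `X ↦ A X B` -/
theorem tr_sand (A B : Matrix W W R) : ∑ p : W, ∑ q : W, (A * Matrix.single p q (1 : R) * B) p q = A.trace * B.trace := by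
  have h : ∀ p q, (A * Matrix.single p q (1 : R) * B) p q = A p p * B q q := by
    intro p q
    rw [Matrix.mul_apply, Finset.sum_eq_single q]
    · rw [Matrix.mul_single_apply_same, mul_one]
    · intro b _ hb
      rw [Matrix.mul_single_apply_of_ne _ _ _ _ _ hb, zero_mul]
    · intro h
      exact absurd (Finset.mem_univ _) h
  simp only [h, Matrix.trace, Matrix.diag_apply, Finset.sum_mul_sum]

/-- the trace of `X ↦ A X ^ T B` -/
theorem tr_tsand (A B : Matrix W W R) :
    ∑ p : W, ∑ q : W, (A * (Matrix.single p q (1 : R))ᵀ * B) p q = (A * Bᵀ).trace := by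
  have h : ∀ p q, (A * (Matrix.single p q (1 : R))ᵀ * B) p q = A p q * B p q := by
    intro p q
    rw [Matrix.transpose_single, Matrix.mul_apply, Finset.sum_eq_single p]
    · rw [Matrix.mul_single_apply_same, mul_one]
    · intro b _ hb
      rw [Matrix.mul_single_apply_of_ne _ _ _ _ _ hb, zero_mul]
    · intro h
      exact absurd (Finset.mem_univ _) h
  simp only [h, Matrix.trace, Matrix.diag_apply, Matrix.mul_apply, Matrix.transpose_apply]

/-- the trace of `X ↦ f(X) · Y` for a multiple of the trace -/
theorem tr_scal (Y : Matrix W W R) (f : Matrix W W R → R) (hf : ∀ p q, f (Matrix.single p q 1) = if p = q then 1 else 0) :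
    ∑ p : W, ∑ q : W, (f (Matrix.single p q 1) • Y) p q = Y.trace := by
  simp only [Matrix.trace, Matrix.diag_apply]
  refine Finset.sum_congr rfl fun p _ => ?_
  rw [Finset.sum_eq_single p]
  · rw [hf, if_pos rfl, one_smul]
  · intro q _ hq
    rw [hf, if_neg (Ne.symm hq), zero_smul, Matrix.zero_apply]
  · intro h
    exact absurd (Finset.mem_univ _) h

theorem trace_single_one (p q : W) : (Matrix.single p q (1 : R)).trace = if p = q then 1 else 0 := by
  by_cases h : p = q
  · subst h
    rw [if_pos rfl, Matrix.trace_single_eq_same]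
  · rw [if_neg h, Matrix.trace_single_eq_of_ne _ _ _ h]

end QU55
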