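import Pool.Agent.Helper55.QU.Blk

/-!
AllGeometricGenera (MP_b8862a_ag), construction QUAT: the maps that commute with the Lie algebra are scalars.
-/

set_option linter.unusedSectionVars false

open Matrix MH
open scoped Kronecker

namespace QU55

variable {ι : Type*} [Fintype ι] [DecidableEq ι] (o : ι) {K : Type*} [Field K] [CharZero K]

/-- a linear map that commutes with the Lie algebra and preserves the space -/
structure Cm (φ : Matrix (ι × Fin 4) (ι × Fin 4) K →ₗ[K] Matrix (ι × Fin 4) (ι × Fin 4) K) : Prop where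
  mem : ∀ X, InV (gG o K) (gA ι K) (gB ι K) X → InV (gG o K) (gA ι K) (gB ι K) (φ X)
  qi : ∀ a X, φ (bl a a (qi K) * X - X * bl a a (qi K)) = bl a a (qi K) * φ X - φ X * bl a a (qi K)
  qj : ∀ a X, φ (bl a a (qj K) * X - X * bl a a (qj K)) = bl a a (qj K) * φ X - φ X * bl a a (qj K)
  yb : ∀ a b X, a ≠ b → φ (Yb o a b * X - X * Yb o a b) = Yb o a b * φ X - φ X * Yb o a b

variable {o} {φ : Matrix (ι × Fin 4) (ι × Fin 4) K →ₗ[K] Matrix (ι × Fin 4) (ι × Fin 4) K} (h : Cm o φ)
include h

theorem Cm.off {a b : ι} (hab : a ≠ b) {m : Matrix (Fin 4) (Fin 4) K} (hm : InC m) :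
    φ (Xb o a b m) = Xb o a b (blk (φ (Xb o a b m)) a b) ∧ InC (blk (φ (Xb o a b m)) a b) := by
  obtain ⟨M, hM⟩ : ∃ M, M = φ (Xb o a b m) := ⟨_, rfl⟩
  have hMV : InV (gG o K) (gA ι K) (gB ι K) M := by
    rw [hM]
    exact h.mem _ (Xb_mem o hab hm)
  obtain ⟨u, hu⟩ : ∃ u : Matrix (ι × Fin 4) (ι × Fin 4) K, u = bl a a (QU55.qi K) := ⟨_, rfl⟩
  obtain ⟨v, hv⟩ : ∃ v : Matrix (ι × Fin 4) (ι × Fin 4) K, v = bl b b (QU55.qi K) := ⟨_, rfl⟩
  have uv : u * v = 0 := by rw [hu, hv, bl_mul_ne hab]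
  have vu : v * u = 0 := by rw [hu, hv, bl_mul_ne (Ne.symm hab)]
  have uv' : ∀ X, u * (v * X) = 0 := fun X => by rw [← mul_assoc, uv, zero_mul]
  have vu' : ∀ X, v * (u * X) = 0 := fun X => by rw [← mul_assoc, vu, zero_mul]
  have uu : u * u = -bl a a 1 := by rw [hu, bl_mul, qi_sq, bl_neg]
  have vv' : v * v = -bl b b 1 := by rw [hv, bl_mul, qi_sq, bl_neg]
  have e1 : Xb o a b m = u * (u * (v * (v * Xb o a b m - Xb o a b m * v) - (v * Xb o a b m - Xb o a b m * v) * v) -
      (v * (v * Xb o a b m - Xb o a b m * v) - (v * Xb o a b m - Xb o a b m * v) * v) * u) -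
      (u * (v * (v * Xb o a b m - Xb o a b m * v) - (v * Xb o a b m - Xb o a b m * v) * v) -
      (v * (v * Xb o a b m - Xb o a b m * v) - (v * Xb o a b m - Xb o a b m * v) * v) * u) * u := by
    have a1 : v * Xb o a b m - Xb o a b m * v = Xb o a b (-(m * QU55.qi K)) := by
      rw [hv, ad_bl_right o hab qi_tr, Xb, Xb, Matrix.transpose_neg, bl_neg, bl_neg, smul_neg, neg_add]
    have a2 : v * Xb o a b (-(m * QU55.qi K)) - Xb o a b (-(m * QU55.qi K)) * v = Xb o a b (-m) := by
      rw [hv, ad_bl_right o hab qi_tr, neg_mul, mul_assoc, qi_sq, mul_neg, mul_one, neg_neg, Xb, Xb,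
        Matrix.transpose_neg, bl_neg, bl_neg, smul_neg, neg_add]
    rw [a1, a2, hu, ad_bl_left o hab qi_tr, ad_bl_left o hab qi_tr, ← mul_assoc, qi_sq, neg_mul_neg, one_mul]
  have e2 : M = u * (u * (v * (v * M - M * v) - (v * M - M * v) * v) - (v * (v * M - M * v) - (v * M - M * v) * v) * u) -
      (u * (v * (v * M - M * v) - (v * M - M * v) * v) - (v * (v * M - M * v) - (v * M - M * v) * v) * u) * u := by
    have hua : ∀ X, φ (u * X - X * u) = u * φ X - φ X * u := fun X => by rw [hu]; exact h.qi a X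
    have hvb : ∀ X, φ (v * X - X * v) = v * φ X - φ X * v := fun X => by rw [hv]; exact h.qi b X
    conv_lhs => rw [hM, e1, hua, hua, hvb, hvb, ← hM]
  have e3 : M = bl a a 1 * M * bl b b 1 + bl b b 1 * M * bl a a 1 := by
    conv_lhs => rw [e2]
    simp only [mul_sub, sub_mul, mul_assoc, vu, uv', mul_zero, sub_zero, zero_sub, sub_self, neg_neg]
    have a1 : u * (u * (M * (v * v))) = bl a a 1 * (M * bl b b 1) := by
      rw [← mul_assoc u u, uu, vv', neg_mul, mul_neg, mul_neg, neg_neg]
    have a2 : v * (v * (M * (u * u))) = bl b b 1 * (M * bl a a 1) := by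
      rw [← mul_assoc v v, uu, vv', neg_mul, mul_neg, mul_neg, neg_neg]
    rw [a1, a2, sub_neg_eq_add]
  rw [← hM]
  exact Xb_of o hMV e3

theorem Cm.scal {a b : ι} (hab : a ≠ b) : ∃ c : K, ∀ m, InC m → φ (Xb o a b m) = c • Xb o a b m := by
  obtain ⟨f, hf⟩ : ∃ f : Matrix (Fin 4) (Fin 4) K → Matrix (Fin 4) (Fin 4) K,
      ∀ m, f m = blk (φ (Xb o a b m)) a b := ⟨_, fun _ => rfl⟩
  have hoff : ∀ m, InC m → φ (Xb o a b m) = Xb o a b (f m) ∧ InC (f m) := by
    intro m hm
    rw [hf]
    exact h.off hab hm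
  have hinj : ∀ m m' : Matrix (Fin 4) (Fin 4) K, Xb o a b m = Xb o a b m' → m = m' := by
    intro m m' e
    rw [← blk_Xb o hab m, e, blk_Xb o hab]
  have hXadd : ∀ m m' : Matrix (Fin 4) (Fin 4) K, Xb o a b (m + m') = Xb o a b m + Xb o a b m' := by
    intro m m'
    rw [Xb, Xb, Xb, Matrix.transpose_add, bl_add, bl_add, smul_add]
    abel
  have hXsmul : ∀ (c : K) (m : Matrix (Fin 4) (Fin 4) K), Xb o a b (c • m) = c • Xb o a b m := by
    intro c m
    rw [Xb, Xb, Matrix.transpose_smul, bl_smul, bl_smul, smul_add, smul_comm c]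
  have li : ∀ m, InC m → f (QU55.qi K * m) = QU55.qi K * f m := by
    intro m hm
    apply hinj
    rw [← (hoff _ (inC_qi.mul hm)).1, ← ad_bl_left o hab qi_tr, h.qi, (hoff m hm).1, ad_bl_left o hab qi_tr]
  have lj : ∀ m, InC m → f (QU55.qj K * m) = QU55.qj K * f m := by
    intro m hm
    apply hinj
    rw [← (hoff _ (inC_qj.mul hm)).1, ← ad_bl_left o hab qj_tr, h.qj, (hoff m hm).1, ad_bl_left o hab qj_tr]
  have ri' : ∀ m, InC m → f (m * QU55.qi K) = f m * QU55.qi K := by
    intro m hm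
    apply hinj
    rw [← (hoff _ (hm.mul inC_qi)).1]
    have e1 : Xb o a b (m * QU55.qi K) = -(bl b b (QU55.qi K) * Xb o a b m - Xb o a b m * bl b b (QU55.qi K)) := by
      rw [ad_bl_right o hab qi_tr, neg_neg]
    rw [e1, map_neg, h.qi, (hoff m hm).1, ad_bl_right o hab qi_tr, neg_neg]
  have rj' : ∀ m, InC m → f (m * QU55.qj K) = f m * QU55.qj K := by
    intro m hm
    apply hinj
    rw [← (hoff _ (hm.mul inC_qj)).1]
    have e1 : Xb o a b (m * QU55.qj K) = -(bl b b (QU55.qj K) * Xb o a b m - Xb o a b m * bl b b (QU55.qj K)) := by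
      rw [ad_bl_right o hab qj_tr, neg_neg]
    rw [e1, map_neg, h.qj, (hoff m hm).1, ad_bl_right o hab qj_tr, neg_neg]
  have f1 := hoff 1 inC_one
  have c1 : f 1 * QU55.qi K = QU55.qi K * f 1 := by
    rw [← ri' 1 inC_one, ← li 1 inC_one, one_mul, mul_one]
  have c2 : f 1 * QU55.qj K = QU55.qj K * f 1 := by
    rw [← rj' 1 inC_one, ← lj 1 inC_one, one_mul, mul_one]
  have hc := cen4 f1.2.i f1.2.j c1 c2
  obtain ⟨c, hc'⟩ : ∃ c : K, f 1 = c • (1 : Matrix (Fin 4) (Fin 4) K) := ⟨_, hc⟩
  refine ⟨c, fun m hm => ?_⟩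
  have hk : QU55.qk K = QU55.qi K * QU55.qj K := by
    ext i j
    fin_cases i <;> fin_cases j <;> simp [QU55.qi, QU55.qj, QU55.qk, Matrix.mul_apply, Fin.sum_univ_four]
  have hm2 : m = m 0 0 • (1 : Matrix (Fin 4) (Fin 4) K) + m 1 0 • QU55.qi K + m 2 0 • QU55.qj K + m 3 0 • QU55.qk K := by
    conv_lhs => rw [com4 hm.i hm.j]
    ext i j
    fin_cases i <;> fin_cases j <;> simp [lam, QU55.qi, QU55.qj, QU55.qk]
  have g1 : φ (Xb o a b 1) = c • Xb o a b 1 := by rw [f1.1, hc', hXsmul]
  have gi : φ (Xb o a b (QU55.qi K)) = c • Xb o a b (QU55.qi K) := by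
    have e := (hoff _ (inC_qi.mul inC_one)).1
    rw [li 1 inC_one, hc', mul_smul_comm, mul_one, hXsmul] at e
    exact e
  have gj : φ (Xb o a b (QU55.qj K)) = c • Xb o a b (QU55.qj K) := by
    have e := (hoff _ (inC_qj.mul inC_one)).1
    rw [lj 1 inC_one, hc', mul_smul_comm, mul_one, hXsmul] at e
    exact e
  have gk : φ (Xb o a b (QU55.qk K)) = c • Xb o a b (QU55.qk K) := by
    have e := (hoff _ (inC_qi.mul inC_qj)).1
    have e2 : f (QU55.qj K) = c • QU55.qj K := by
      have e3 := lj 1 inC_one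
      rw [hc', mul_smul_comm, mul_one] at e3
      exact e3
    rw [li _ inC_qj, e2, mul_smul_comm, hXsmul, ← hk] at e
    exact e
  rw [hm2]
  generalize m 0 0 = z0
  generalize m 1 0 = z1
  generalize m 2 0 = z2
  generalize m 3 0 = z3
  rw [hXadd, hXadd, hXadd, hXsmul, hXsmul, hXsmul, hXsmul, map_add, map_add, map_add, map_smul, map_smul, map_smul,
    map_smul, g1, gi, gj, gk]
  module

/-- one scalar for all off-diagonal elements -/
theorem Cm.unif {x y : ι} (hxy : x ≠ y) : ∃ c : K, ∀ a b, a ≠ b → ∀ m, InC m → φ (Xb o a b m) = c • Xb o a b m := by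
  have hex : ∀ a b : ι, ∃ c : K, a ≠ b → ∀ m, InC m → φ (Xb o a b m) = c • Xb o a b m := by
    intro a b
    by_cases hab : a = b
    · exact ⟨0, fun h => absurd hab h⟩
    · obtain ⟨c, hc⟩ := h.scal hab
      exact ⟨c, fun _ => hc⟩
  choose c hc using hex
  have hne : ∀ a b : ι, a ≠ b → Xb o a b (1 : Matrix (Fin 4) (Fin 4) K) ≠ 0 := by
    intro a b hab h0
    have e1 : blk (Xb o a b (1 : Matrix (Fin 4) (Fin 4) K)) a b = 0 := by
      rw [h0]
      rfl
    rw [blk_Xb o hab] at e1
    exact one_ne_zero e1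
  have s1 : ∀ a b, a ≠ b → c a b = c b a := by
    intro a b hab
    have e1 := hc a b hab 1 inC_one
    have e2 := hc b a (Ne.symm hab) 1 inC_one
    rw [Xb_swap o a b, map_smul, e2, smul_smul, smul_smul] at e1
    have e3 : (ep o K a * ep o K b * c b a - c a b * (ep o K a * ep o K b)) • Xb o b a (1 : Matrix (Fin 4) (Fin 4) K) = 0 := by
      rw [sub_smul, e1, sub_self]
    have e4 := (smul_eq_zero.1 e3).resolve_right (hne b a (Ne.symm hab))
    have e5 : ep o K a * ep o K b ≠ 0 := by
      intro h0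
      have : ep o K a * ep o K b * (ep o K a * ep o K b) = 1 := by
        calc ep o K a * ep o K b * (ep o K a * ep o K b) = (ep o K a * ep o K a) * (ep o K b * ep o K b) := by ring
          _ = 1 := by rw [ep_sq, ep_sq, one_mul]
      rw [h0, zero_mul] at this
      exact zero_ne_one this
    have e6 : ep o K a * ep o K b * (c b a - c a b) = 0 := by linear_combination e4
    exact (sub_eq_zero.1 ((mul_eq_zero.1 e6).resolve_left e5)).symm
  have s2 : ∀ a b d, a ≠ b → a ≠ d → b ≠ d → c a d = c b d := by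
    intro a b d hab had hbd
    have e1 := h.yb a b (Xb o b d 1) hab
    rw [hc b d hbd 1 inC_one, mul_smul_comm, smul_mul_assoc, ← smul_sub, ad_Yb o hab had hbd, map_smul,
      hc a d had 1 inC_one, smul_smul, smul_smul] at e1
    have e3 : (ep o K b * c a d - c b d * ep o K b) • Xb o a d (1 : Matrix (Fin 4) (Fin 4) K) = 0 := by
      rw [sub_smul, e1, sub_self]
    have e4 := (smul_eq_zero.1 e3).resolve_right (hne a d had)
    have e5 : ep o K b ≠ 0 := by
      intro h0
      have := ep_sq (R := K) o b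
      rw [h0, zero_mul] at this
      exact zero_ne_one this
    have e6 : ep o K b * (c a d - c b d) = 0 := by linear_combination e4
    exact sub_eq_zero.1 ((mul_eq_zero.1 e6).resolve_left e5)
  have s3 : ∀ a b d, a ≠ d → b ≠ d → c a d = c b d := by
    intro a b d had hbd
    by_cases hab : a = b
    · rw [hab]
    · exact s2 a b d hab had hbd
  refine ⟨c x y, fun a b hab m hm => ?_⟩
  have key : c a b = c x y := by
    by_cases h1 : x = b
    · subst h1
      -- c a x = c x a = c y a?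
      by_cases h2 : y = a
      · subst h2
        exact s1 _ _ hab
      · rw [s3 a y x hab (Ne.symm hxy), s1 y x (Ne.symm hxy)]
    · rw [s3 a x b hab h1, s1 x b h1, s3 b y x (Ne.symm h1) (Ne.symm hxy), s1 y x (Ne.symm hxy)]
  rw [hc a b hab m hm, key]

/-- **The maps that commute with the Lie algebra are scalars.** -/
theorem Cm.main {x y : ι} (hxy : x ≠ y) :
    ∃ c : K, ∀ X, InV (gG o K) (gA ι K) (gB ι K) X → φ X = c • X := by
  obtain ⟨c, hc⟩ := h.unif hxy
  refine ⟨c, fun X hX => ?_⟩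
  have H := qd_g o (R := K)
  have : Nonempty (ι × Fin 4) := ⟨(x, 0)⟩
  have hcard : (Fintype.card ι : K) ≠ 0 := by
    have : Nonempty ι := ⟨x⟩
    exact Nat.cast_ne_zero.2 Fintype.card_ne_zero
  -- the diagonal differences
  have d1 : ∀ a b, φ (bl a a 1 - bl b b 1) = c • (bl a a 1 - bl b b (1 : Matrix (Fin 4) (Fin 4) K)) := by
    intro a b
    by_cases hab : a = b
    · rw [hab, sub_self, map_zero, smul_zero]
    · have e1 := h.yb a b (Xb o a b 1) hab
      rw [hc a b hab 1 inC_one, mul_smul_comm, smul_mul_assoc, ← smul_sub, Yb_Xb o hab, map_smul, smul_comm c] at e1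
      have e5 : 2 * ep o K a ≠ 0 := by
        intro h0
        have := ep_sq (R := K) o a
        rw [(mul_eq_zero.1 h0).resolve_left two_ne_zero, zero_mul] at this
        exact zero_ne_one this
      exact smul_right_injective _ e5 e1
  have d2 : ∀ (a b : ι) (m : Matrix (Fin 4) (Fin 4) K), InC m → (a = b → mᵀ = m) →
      φ (efL (gG o K) (gA ι K) (gB ι K) (bl a b m)) = c • efL (gG o K) (gA ι K) (gB ι K) (bl a b m) := by
    intro a b m hm hab'
    have hs : s1 (gA ι K) (gB ι K) (bl a b m) = (4 : K) • bl a b m := by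
      apply s1_of H
      · rw [bl_gA, gA_bl, hm.i]
      · rw [bl_gB, gB_bl, hm.j]
    by_cases hab : a = b
    · subst hab
      have hm2 := sym4 hm.i hm.j (hab' rfl)
      obtain ⟨t, ht⟩ : ∃ t : K, m = t • (1 : Matrix (Fin 4) (Fin 4) K) := ⟨_, hm2⟩
      have e1 : efL (gG o K) (gA ι K) (gB ι K) (bl a a m) =
          (t / Fintype.card ι) • ∑ b, (bl a a 1 - bl b b (1 : Matrix (Fin 4) (Fin 4) K)) := by
        have o1 : ∑ b : ι, bl b b (1 : Matrix (Fin 4) (Fin 4) K) = 1 := by
          have h1 := sum_bl (1 : Matrix (ι × Fin 4) (ι × Fin 4) K)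
          rw [h1]
          refine Finset.sum_congr rfl fun b _ => ?_
          rw [Finset.sum_eq_single b]
          · congr 1
            ext r s
            rw [blk]
            simp [Matrix.one_apply]
          · intro d _ hd
            have : blk (1 : Matrix (ι × Fin 4) (ι × Fin 4) K) b d = 0 := by
              ext r s
              rw [blk, Matrix.one_apply_ne]
              · rfl
              · intro h
                exact hd (congrArg Prod.fst h).symm
            rw [this, bl_zero]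
          · intro h
            exact absurd (Finset.mem_univ _) h
        have o2 : (∑ b, (bl a a 1 - bl b b (1 : Matrix (Fin 4) (Fin 4) K))) =
            (Fintype.card ι : K) • bl a a 1 - 1 := by
          rw [Finset.sum_sub_distrib, o1, Finset.sum_const, Finset.card_univ, Nat.cast_smul_eq_nsmul]
        rw [efL_apply, hs, o2, Matrix.transpose_smul, bl_tr, mul_smul_comm, gG_bl, smul_mul_assoc, smul_mul_assoc,
          bl_gG, smul_smul (ep o K a), ep_sq, one_smul, hab' rfl, bl_trace, if_pos rfl, ht, bl_smul,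
          Matrix.trace_smul, Matrix.trace_one, Fintype.card_prod, Fintype.card_fin, smul_sub, smul_smul (t / _)]
        have n1 : t • (((4 : ℕ) : K)) / ((Fintype.card ι * 4 : ℕ) : K) = t / Fintype.card ι := by
          push_cast
          rw [smul_eq_mul]
          field_simp
        have n2 : t / Fintype.card ι * Fintype.card ι = t := by field_simp
        rw [n1, n2]
        module
      rw [e1, map_smul, map_sum, smul_comm c]
      congr 1
      rw [Finset.smul_sum]
      exact Finset.sum_congr rfl fun b _ => d1 a b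
    · have e1 : efL (gG o K) (gA ι K) (gB ι K) (bl a b m) = (1 / 2 : K) • Xb o a b m := by
        rw [efL_apply, hs, Matrix.transpose_smul, bl_tr, mul_smul_comm, gG_bl, smul_mul_assoc, smul_mul_assoc,
          bl_gG, smul_smul (ep o K b), bl_trace, if_neg hab, zero_div, zero_smul, sub_zero, Xb, mul_comm (ep o K b)]
        module
      rw [e1, map_smul, hc a b hab m hm, smul_comm c]
  have e1 : X = ∑ a, ∑ b, efL (gG o K) (gA ι K) (gB ι K) (bl a b (blk X a b)) := by
    conv_lhs => rw [← ef_of H hX, sum_bl X, map_sum]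
    refine Finset.sum_congr rfl fun a _ => ?_
    rw [map_sum]
  conv_lhs => rw [e1, map_sum]
  conv_rhs => rw [e1, Finset.smul_sum]
  refine Finset.sum_congr rfl fun a _ => ?_
  rw [map_sum, Finset.smul_sum]
  refine Finset.sum_congr rfl fun b _ => ?_
  refine d2 a b _ ⟨blk_ri hX.xa a b, blk_rj hX.xb a b⟩ ?_
  rintro rfl
  have e2 := blk_sy o hX.sy a a
  rw [ep_sq, one_smul] at e2
  exact e2.symm

end QU55
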