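import Pool.Agent.Helper55.QU.Ad
import Pool.Agent.Helper21.MH.HodgeD

/-!
AllGeometricGenera (MP_b8862a_ag), construction QUAT: the polarisation.
-/

set_option linter.unusedSectionVars false

open Matrix MH

namespace QU55

variable {W : Type*} [Fintype W] [DecidableEq W]

open scoped ComplexOrder in
/-- hermitian matrices near to the identity are positive definite -/
theorem posDef_near {S : Matrix W W ℂ} (hS : S.IsHermitian) (hE : ∑ p : W × W, ‖(S - 1) p.1 p.2‖ ^ 2 < 1) :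
    S.PosDef := by
  refine Matrix.PosDef.of_dotProduct_mulVec_pos hS fun x hx => ?_
  obtain ⟨t, ht⟩ : ∃ t : ℝ, t = ∑ p, ‖x p‖ ^ 2 := ⟨_, rfl⟩
  have ht0 : 0 < t := by
    rw [ht]
    obtain ⟨p, hp⟩ := Function.ne_iff.1 hx
    refine Finset.sum_pos' (fun _ _ => sq_nonneg _) ⟨p, Finset.mem_univ _, ?_⟩
    have : 0 < ‖x p‖ := norm_pos_iff.2 hp
    positivity
  have hxx : star x ⬝ᵥ x = (t : ℂ) := by
    rw [dotProduct, ht]
    push_cast
    refine Finset.sum_congr rfl fun p _ => ?_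
    rw [Pi.star_apply, ← starRingEnd_apply, ← Complex.normSq_eq_conj_mul_self, Complex.normSq_eq_norm_sq]
    push_cast
    rfl
  obtain ⟨E, hEd⟩ : ∃ E, E = S - 1 := ⟨_, rfl⟩
  have hS1 : S = 1 + E := by rw [hEd]; abel
  rw [← hEd] at hE
  have h1 : star x ⬝ᵥ (S *ᵥ x) = t + star x ⬝ᵥ (E *ᵥ x) := by
    rw [hS1, Matrix.add_mulVec, Matrix.one_mulVec, dotProduct_add, hxx]
  have hn : ‖star x ⬝ᵥ (E *ᵥ x)‖ ≤ ∑ p : W × W, ‖E p.1 p.2‖ * (‖x p.1‖ * ‖x p.2‖) := by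
    rw [dotProduct]
    simp only [Matrix.mulVec, dotProduct, Finset.mul_sum]
    rw [← Fintype.sum_prod_type']
    refine (norm_sum_le _ _).trans (Finset.sum_le_sum fun p _ => ?_)
    rw [norm_mul, norm_mul, Pi.star_apply, norm_star]
    exact le_of_eq (by ring)
  have hcs : (∑ p : W × W, ‖E p.1 p.2‖ * (‖x p.1‖ * ‖x p.2‖)) ^ 2 ≤
      (∑ p : W × W, ‖E p.1 p.2‖ ^ 2) * ∑ p : W × W, (‖x p.1‖ * ‖x p.2‖) ^ 2 :=
    Finset.sum_mul_sq_le_sq_mul_sq _ _ _
  have hxy : ∑ p : W × W, (‖x p.1‖ * ‖x p.2‖) ^ 2 = t ^ 2 := by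
    rw [sq t, ht, Finset.sum_mul_sum, ← Fintype.sum_prod_type']
    refine Finset.sum_congr rfl fun p _ => ?_
    rw [mul_pow]
  rw [hxy] at hcs
  have him : (star x ⬝ᵥ (S *ᵥ x)).im = 0 := hS.im_star_dotProduct_mulVec_self x
  have hre : 0 < (star x ⬝ᵥ (S *ᵥ x)).re := by
    by_contra hcon
    push Not at hcon
    rw [h1, Complex.add_re, Complex.ofReal_re] at hcon
    have a1 : t ≤ ‖star x ⬝ᵥ (E *ᵥ x)‖ := by
      have := Complex.abs_re_le_norm (star x ⬝ᵥ (E *ᵥ x))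
      have a2 : -(star x ⬝ᵥ (E *ᵥ x)).re ≤ |(star x ⬝ᵥ (E *ᵥ x)).re| := neg_le_abs _
      linarith
    have a3 := a1.trans hn
    have a4 : t ^ 2 ≤ (∑ p : W × W, ‖E p.1 p.2‖ * (‖x p.1‖ * ‖x p.2‖)) ^ 2 := pow_le_pow_left₀ ht0.le a3 2
    have a5 : 0 < t ^ 2 := by positivity
    nlinarith
  rw [Complex.lt_def]
  exact ⟨hre, him.symm⟩

theorem trace_self (Y : Matrix W W ℂ) : (Y * Yᴴ).trace = ((∑ p : W × W, ‖Y p.1 p.2‖ ^ 2 : ℝ) : ℂ) := by
  rw [Matrix.trace, Fintype.sum_prod_type]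
  push_cast
  refine Finset.sum_congr rfl fun p _ => ?_
  rw [Matrix.diag_apply, Matrix.mul_apply]
  refine Finset.sum_congr rfl fun q _ => ?_
  rw [Matrix.conjTranspose_apply, ← starRingEnd_apply, Complex.mul_conj, Complex.normSq_eq_norm_sq]
  push_cast
  rfl

open scoped ComplexOrder in
theorem pos_main {G A B J : Matrix W W ℂ} (H : Qd G A B) (hG : G.map (starRingEnd ℂ) = G)
    (hS : (G * (1 + (2 : ℂ) • (J * J))).PosDef) {X : Matrix W W ℂ} (hX : InV G A B X) (hX0 : X ≠ 0) :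
    0 < (X * ((1 + (2 : ℂ) • (J * J)) * X.map (starRingEnd ℂ) * (1 + (2 : ℂ) • (J * J)))).trace.re := by
  obtain ⟨k, hk⟩ : ∃ k, k = 1 + (2 : ℂ) • (J * J) := ⟨_, rfl⟩
  rw [← hk] at hS ⊢
  obtain ⟨b, hb⟩ := posDef_decomp hS
  have hbu : IsUnit (bᴴ * b) := by rw [← hb]; exact hS.isUnit
  have hGh : Gᴴ = G := by
    have : Gᴴ = (Gᵀ).map (starRingEnd ℂ) := rfl
    rw [this, H.gt, hG]
  have hkG : k = G * (bᴴ * b) := by rw [← hb, ← mul_assoc, H.gg, one_mul]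
  have hXc : X.map (starRingEnd ℂ) = G * Xᴴ * G := by
    have e1 : X.map (starRingEnd ℂ) = (G * Xᵀ * G).map (starRingEnd ℂ) := by rw [hX.sy]
    rw [e1, Matrix.map_mul, Matrix.map_mul, hG]
    rfl
  have hY : (X * (k * X.map (starRingEnd ℂ) * k)).trace = ((b * X * G * bᴴ) * (b * X * G * bᴴ)ᴴ).trace := by
    have e1 : (b * X * G * bᴴ)ᴴ = b * G * Xᴴ * bᴴ := by
      rw [Matrix.conjTranspose_mul, Matrix.conjTranspose_mul, Matrix.conjTranspose_mul, Matrix.conjTranspose_conjTranspose,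
        hGh]
      simp only [mul_assoc]
    have e2 : X * (k * X.map (starRingEnd ℂ) * k) = (X * G * bᴴ * (b * G * Xᴴ * bᴴ)) * b := by
      rw [hXc, hkG]
      simp only [mul_assoc]
      rw [H.gg']
    rw [e1, e2, Matrix.trace_mul_comm]
    simp only [mul_assoc]
  rw [hY, trace_self, Complex.ofReal_re]
  have hY0 : b * X * G * bᴴ ≠ 0 := by
    intro h0
    apply hX0
    obtain ⟨u, hu⟩ := hbu
    have h1 : (bᴴ * b) * X * G * (bᴴ * b) = 0 := by
      calc (bᴴ * b) * X * G * (bᴴ * b) = bᴴ * (b * X * G * bᴴ) * b := by simp only [mul_assoc]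
        _ = 0 := by rw [h0, mul_zero, zero_mul]
    rw [← hu] at h1
    calc X = ((u⁻¹ : (Matrix W W ℂ)ˣ) : Matrix W W ℂ) * ((u : Matrix W W ℂ) * X * G * (u : Matrix W W ℂ)) *
          ((u⁻¹ : (Matrix W W ℂ)ˣ) : Matrix W W ℂ) * G := by
          calc X = X * (G * G) := by rw [H.gg, mul_one]
            _ = (((u⁻¹ : (Matrix W W ℂ)ˣ) : Matrix W W ℂ) * (u : Matrix W W ℂ)) * X * G *
                ((u : Matrix W W ℂ) * ((u⁻¹ : (Matrix W W ℂ)ˣ) : Matrix W W ℂ)) * G := by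
                rw [Units.inv_mul, Units.mul_inv, one_mul, mul_one, mul_assoc]
            _ = _ := by simp only [mul_assoc]
      _ = 0 := by rw [h1, mul_zero, zero_mul, zero_mul]
  obtain ⟨p, q, hpq⟩ : ∃ p q, (b * X * G * bᴴ) p q ≠ 0 := by
    by_contra hcon
    push Not at hcon
    apply hY0
    ext p q
    exact hcon p q
  refine Finset.sum_pos' (fun _ _ => sq_nonneg _) ⟨(p, q), Finset.mem_univ _, ?_⟩
  have : 0 < ‖(b * X * G * bᴴ) p q‖ := norm_pos_iff.2 hpq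
  positivity

end QU55
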