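import Pool.Agent.Helper55.QU.Ad

/-!
AllGeometricGenera (MP_b8862a_ag), construction QUAT: the traces.
-/

set_option linter.unusedSectionVars false

open Matrix MH

namespace QU55

variable {W : Type*} [Fintype W] [DecidableEq W]

section
variable {K : Type*} [Field K] [CharZero K]

/-- the trace of a map of matrices -/
def trf (F : Matrix W W K → Matrix W W K) : K := ∑ p : W, ∑ q : W, F (Matrix.single p q 1) p q

theorem trf_add (F F' : Matrix W W K → Matrix W W K) : trf (fun X => F X + F' X) = trf F + trf F' := by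
  simp only [trf, Matrix.add_apply, Finset.sum_add_distrib]

theorem trf_sub (F F' : Matrix W W K → Matrix W W K) : trf (fun X => F X - F' X) = trf F - trf F' := by
  simp only [trf, Matrix.sub_apply, Finset.sum_sub_distrib]

theorem trf_smul (c : K) (F : Matrix W W K → Matrix W W K) : trf (fun X => c • F X) = c * trf F := by
  simp only [trf, Matrix.smul_apply, smul_eq_mul, Finset.mul_sum]

theorem trf_sand (A B : Matrix W W K) : trf (fun X => A * X * B) = A.trace * B.trace := tr_sand A B

theorem trf_tsand (A B : Matrix W W K) : trf (fun X => A * Xᵀ * B) = (A * Bᵀ).trace := tr_tsand A B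

theorem trf_scal (Y : Matrix W W K) (f : Matrix W W K → K)
    (hf : ∀ p q, f (Matrix.single p q 1) = if p = q then 1 else 0) : trf (fun X => f X • Y) = Y.trace :=
  tr_scal Y f hf

variable {G A B : Matrix W W K} (H : Qd G A B)
include H

theorem tr_a {M : Matrix W W K} (h2 : M * B = B * M) : (M * A).trace = 0 := by
  have e1 : (M * A).trace = -(M * A).trace := by
    calc (M * A).trace = -(M * A * (B * B)).trace := by rw [H.bb, mul_neg, mul_one, Matrix.trace_neg, neg_neg]
      _ = -(B * (M * A * B)).trace := by rw [← mul_assoc, Matrix.trace_mul_comm]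
      _ = -(M * (B * (A * B))).trace := by
          congr 2
          rw [← mul_assoc, ← mul_assoc, ← h2]
          simp only [mul_assoc]
      _ = -(M * A).trace := by
          congr 3
          rw [← mul_assoc, H.ba, neg_mul, mul_assoc, H.bb, mul_neg, neg_neg, mul_one]
  have e2 : (2 : K) * (M * A).trace = 0 := by linear_combination e1
  exact (mul_eq_zero.1 e2).resolve_left two_ne_zero

theorem tr_b {M : Matrix W W K} (h1 : M * A = A * M) : (M * B).trace = 0 := by
  have e1 : (M * B).trace = -(M * B).trace := by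
    calc (M * B).trace = -(M * B * (A * A)).trace := by rw [H.aa, mul_neg, mul_one, Matrix.trace_neg, neg_neg]
      _ = -(A * (M * B * A)).trace := by rw [← mul_assoc, Matrix.trace_mul_comm]
      _ = -(M * (A * (B * A))).trace := by
          congr 2
          rw [← mul_assoc, ← mul_assoc, ← h1]
          simp only [mul_assoc]
      _ = -(M * B).trace := by
          congr 3
          rw [H.ba, mul_neg, ← mul_assoc, H.aa, neg_one_mul, neg_neg]
  have e2 : (2 : K) * (M * B).trace = 0 := by linear_combination e1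
  exact (mul_eq_zero.1 e2).resolve_left two_ne_zero

theorem tr_ab {M : Matrix W W K} (h2 : M * B = B * M) : (M * (A * B)).trace = 0 := by
  have e1 : (M * (A * B)).trace = -(M * (A * B)).trace := by
    calc (M * (A * B)).trace = (B * (M * A)).trace := by rw [← mul_assoc, Matrix.trace_mul_comm]
      _ = (M * (B * A)).trace := by rw [← mul_assoc, ← h2, mul_assoc]
      _ = -(M * (A * B)).trace := by rw [H.ba, mul_neg, Matrix.trace_neg]
  have e2 : (2 : K) * (M * (A * B)).trace = 0 := by linear_combination e1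
  exact (mul_eq_zero.1 e2).resolve_left two_ne_zero

/-- the trace of the projection after a sandwich -/
theorem tr_s1 {M M' : Matrix W W K} (h1 : M * A = A * M) (h2 : M * B = B * M) :
    trf (fun X => s1 A B (M * X * M')) = M.trace * M'.trace := by
  have e : (fun X => s1 A B (M * X * M')) = fun X => M * X * M' - (A * M) * X * (M' * A) - (B * M) * X * (M' * B) +
      (A * B * M) * X * (M' * (B * A)) := by
    funext X
    unfold s1
    simp only [mul_assoc]
  have a1 : (A * M).trace = 0 := by rw [← h1, tr_a H h2]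
  have a2 : (B * M).trace = 0 := by rw [← h2, tr_b H h1]
  have a3 : (A * B * M).trace = 0 := by
    rw [Matrix.trace_mul_comm, tr_ab H h2]
  rw [e, trf_add, trf_sub, trf_sub, trf_sand, trf_sand, trf_sand, trf_sand, a1, a2, a3]
  ring

/-- the trace of the transposed projection after a sandwich -/
theorem tr_s1t {M M' : Matrix W W K} (h1 : M * A = A * M) (h2 : M * B = B * M) (h1' : M' * A = A * M')
    (h2' : M' * B = B * M') :
    trf (fun X => G * (s1 A B (M * X * M'))ᵀ * G) = -2 * (G * M'ᵀ * G * M).trace := by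
  have t1 : Mᵀ * A = A * Mᵀ := by
    have := congrArg Matrix.transpose h1
    rw [Matrix.transpose_mul, Matrix.transpose_mul, H.at', Matrix.neg_mul, Matrix.mul_neg, neg_inj] at this
    exact this.symm
  have t2 : Mᵀ * B = B * Mᵀ := by
    have := congrArg Matrix.transpose h2
    rw [Matrix.transpose_mul, Matrix.transpose_mul, H.bt, Matrix.neg_mul, Matrix.mul_neg, neg_inj] at this
    exact this.symm
  have t1' : M'ᵀ * A = A * M'ᵀ := by
    have := congrArg Matrix.transpose h1'
    rw [Matrix.transpose_mul, Matrix.transpose_mul, H.at', Matrix.neg_mul, Matrix.mul_neg, neg_inj] at this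
    exact this.symm
  have t2' : M'ᵀ * B = B * M'ᵀ := by
    have := congrArg Matrix.transpose h2'
    rw [Matrix.transpose_mul, Matrix.transpose_mul, H.bt, Matrix.neg_mul, Matrix.mul_neg, neg_inj] at this
    exact this.symm
  have e : (fun X : Matrix W W K => G * (s1 A B (M * X * M'))ᵀ * G) = fun X => (G * M'ᵀ) * Xᵀ * (Mᵀ * G) -
      (G * (A * M'ᵀ)) * Xᵀ * (Mᵀ * A * G) - (G * (B * M'ᵀ)) * Xᵀ * (Mᵀ * B * G) +
      (G * (A * B * M'ᵀ)) * Xᵀ * (Mᵀ * (B * A) * G) := by
    funext X
    unfold s1
    simp only [Matrix.transpose_add, Matrix.transpose_sub, Matrix.transpose_mul, H.at', H.bt, mul_sub, sub_mul, mul_add,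
      add_mul, neg_mul, mul_neg, neg_neg, mul_assoc]
  obtain ⟨N, hN⟩ : ∃ N, N = G * M'ᵀ * G := ⟨_, rfl⟩
  have g1 : (G * M'ᵀ * (Mᵀ * G)ᵀ).trace = (N * M).trace := by
    rw [Matrix.transpose_mul, Matrix.transpose_transpose, H.gt, hN]
    simp only [mul_assoc]
  have n1 : N * A = A * N := by rw [hN, gtg_a H h1']
  have n2 : N * B = B * N := by rw [hN, gtg_b H h2']
  have g2 : (G * (A * M'ᵀ) * (Mᵀ * A * G)ᵀ).trace = (N * M).trace := by
    have : G * (A * M'ᵀ) * (Mᵀ * A * G)ᵀ = -(A * N * A * M) := by
      rw [Matrix.transpose_mul, Matrix.transpose_mul, Matrix.transpose_transpose, H.gt, H.at', hN, ← mul_assoc G A,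
        H.ga]
      simp only [mul_assoc, neg_mul, mul_neg]
    rw [this, ← n1, mul_assoc N, H.aa, mul_neg, mul_one, neg_mul, neg_neg]
  have g3 : (G * (B * M'ᵀ) * (Mᵀ * B * G)ᵀ).trace = (N * M).trace := by
    have : G * (B * M'ᵀ) * (Mᵀ * B * G)ᵀ = -(B * N * B * M) := by
      rw [Matrix.transpose_mul, Matrix.transpose_mul, Matrix.transpose_transpose, H.gt, H.bt, hN, ← mul_assoc G B,
        H.gb]
      simp only [mul_assoc, neg_mul, mul_neg]
    rw [this, ← n2, mul_assoc N, H.bb, mul_neg, mul_one, neg_mul, neg_neg]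
  have g4 : (G * (A * B * M'ᵀ) * (Mᵀ * (B * A) * G)ᵀ).trace = -(N * M).trace := by
    have : G * (A * B * M'ᵀ) * (Mᵀ * (B * A) * G)ᵀ = -(N * M) := by
      rw [Matrix.transpose_mul, Matrix.transpose_mul, Matrix.transpose_mul, Matrix.transpose_transpose, H.gt, H.bt,
        H.at', neg_mul_neg]
      calc G * (A * B * M'ᵀ) * (G * (A * B * M)) = A * B * (G * M'ᵀ * G) * (A * (B * M)) := by
            rw [← mul_assoc G (A * B), ← mul_assoc G A B, H.ga, mul_assoc A G B, H.gb]
            simp only [mul_assoc]
        _ = A * B * N * A * B * M := by rw [hN]; simp only [mul_assoc]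
        _ = -(N * M) := by
            rw [mul_assoc A B N, ← n2, ← mul_assoc A N B, ← n1]
            simp only [mul_assoc, H.ba', mul_neg, H.aa', H.bb', neg_neg]
    rw [this, Matrix.trace_neg]
  rw [e, trf_add, trf_sub, trf_sub, trf_tsand, trf_tsand, trf_tsand, trf_tsand, g1, g2, g3, g4, hN]
  ring

/-- the trace of the projection after a sandwich -/
theorem tr_ef {M M' : Matrix W W K} (h1 : M * A = A * M) (h2 : M * B = B * M) (h1' : M' * A = A * M')
    (h2' : M' * B = B * M') :
    trf (fun X => (1 / 8 : K) • (s1 A B (M * X * M') + G * (s1 A B (M * X * M'))ᵀ * G)) =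
      1 / 8 * (M.trace * M'.trace - 2 * (G * M'ᵀ * G * M).trace) := by
  rw [trf_smul, trf_add, tr_s1 H h1 h2, tr_s1t H h1 h2 h1' h2']
  ring

/-- the dimension of the space -/
theorem tr_e [Nonempty W] : (mx (efL G A B)).trace = (Fintype.card W : K) ^ 2 / 8 - Fintype.card W / 4 - 1 := by
  have hc : (Fintype.card W : K) ≠ 0 := Nat.cast_ne_zero.2 Fintype.card_ne_zero
  rw [mx_trace]
  show trf (fun X => efL G A B X) = _
  have e : (fun X : Matrix W W K => efL G A B X) = fun X : Matrix W W K => (1 / 8 : K) • (s1 A B (1 * X * 1) + G * (s1 A B (1 * X * 1))ᵀ * G) -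
      (X.trace / Fintype.card W) • (1 : Matrix W W K) := by
    funext X
    rw [efL_apply, one_mul, mul_one]
  have e2 : trf (fun X : Matrix W W K => (X.trace / Fintype.card W) • (1 : Matrix W W K)) = 1 := by
    have : (fun X : Matrix W W K => (X.trace / Fintype.card W) • (1 : Matrix W W K)) =
        fun X : Matrix W W K => (1 / Fintype.card W : K) • (X.trace • (1 : Matrix W W K)) := by
      funext X
      rw [smul_smul]
      congr 1
      ring
    rw [this, trf_smul, trf_scal _ _ trace_single_one, Matrix.trace_one, one_div, inv_mul_cancel₀ hc]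
  rw [e, trf_sub, tr_ef H (by simp) (by simp) (by simp) (by simp), e2, Matrix.transpose_one, mul_one, mul_one, H.gg,
    Matrix.trace_one]
  ring

/-- the trace of the operator -/
theorem tr_ad [Nonempty W] {J : Matrix W W K} (hJ : InG G A B J) (c : K) :
    (mx (adL c J ∘ₗ efL G A B)).trace = 0 := by
  have hJt : J.trace = 0 := by
    have e1 : (G * Jᵀ * G).trace = J.trace := by
      rw [Matrix.trace_mul_comm, ← mul_assoc, H.gg, one_mul, Matrix.trace_transpose]
    rw [hJ.sk, Matrix.trace_neg] at e1
    have e2 : (2 : K) * J.trace = 0 := by linear_combination -e1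
    exact (mul_eq_zero.1 e2).resolve_left two_ne_zero
  rw [mx_trace]
  show trf (fun X => adL c J (efL G A B X)) = _
  have e : (fun X => adL c J (efL G A B X)) = fun X =>
      c • ((1 / 8 : K) • (s1 A B (J * X * 1) + G * (s1 A B (J * X * 1))ᵀ * G) -
        (1 / 8 : K) • (s1 A B (1 * X * J) + G * (s1 A B (1 * X * J))ᵀ * G)) := by
    funext X
    rw [adL_apply, ← ef_ad H hJ, map_sub, efL_apply, efL_apply, Matrix.trace_mul_comm X J, mul_one, one_mul]
    congr 1
    abel
  rw [e, trf_smul, trf_sub, tr_ef H hJ.xa hJ.xb (by simp) (by simp), tr_ef H (by simp) (by simp) hJ.xa hJ.xb, hJt,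
    Matrix.transpose_one, mul_one, H.gg, one_mul, hJ.sk, mul_one, Matrix.trace_neg, hJt]
  ring

/-- the trace of the square of the operator -/
theorem tr_ad2 [Nonempty W] {J : Matrix W W K} (hJ : InG G A B J) (c : K) :
    (mx (adL c J ∘ₗ adL c J ∘ₗ efL G A B)).trace =
      c * c * ((J * J).trace / 4 * Fintype.card W - (J * J).trace) := by
  have hJt : J.trace = 0 := by
    have e1 : (G * Jᵀ * G).trace = J.trace := by
      rw [Matrix.trace_mul_comm, ← mul_assoc, H.gg, one_mul, Matrix.trace_transpose]
    rw [hJ.sk, Matrix.trace_neg] at e1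
    have e2 : (2 : K) * J.trace = 0 := by linear_combination -e1
    exact (mul_eq_zero.1 e2).resolve_left two_ne_zero
  have ja : J * J * A = A * (J * J) := by rw [mul_assoc, hJ.xa, ← mul_assoc, hJ.xa, mul_assoc]
  have jb : J * J * B = B * (J * J) := by rw [mul_assoc, hJ.xb, ← mul_assoc, hJ.xb, mul_assoc]
  have jj : G * (J * J)ᵀ * G = J * J := by
    rw [Matrix.transpose_mul]
    calc G * (Jᵀ * Jᵀ) * G = G * Jᵀ * (G * G) * Jᵀ * G := by rw [H.gg, mul_one]; simp only [mul_assoc]
      _ = (G * Jᵀ * G) * (G * Jᵀ * G) := by simp only [mul_assoc]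
      _ = J * J := by rw [hJ.sk, neg_mul_neg]
  rw [mx_trace]
  show trf (fun X => adL c J (adL c J (efL G A B X))) = _
  have e : (fun X => adL c J (adL c J (efL G A B X))) = fun X =>
      (c * c) • ((1 / 8 : K) • (s1 A B ((J * J) * X * 1) + G * (s1 A B ((J * J) * X * 1))ᵀ * G) -
        (2 : K) • ((1 / 8 : K) • (s1 A B (J * X * J) + G * (s1 A B (J * X * J))ᵀ * G)) +
        (1 / 8 : K) • (s1 A B (1 * X * (J * J)) + G * (s1 A B (1 * X * (J * J)))ᵀ * G)) := by
    funext X
    have e0 : ∀ Y : Matrix W W K, J * (c • Y) - c • Y * J = c • (J * Y - Y * J) := by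
      intro Y
      rw [mul_smul_comm, smul_mul_assoc, ← smul_sub]
    rw [adL_apply, adL_apply, e0, smul_smul, ← ef_ad H hJ, ← ef_ad H hJ]
    have e1 : J * (J * X - X * J) - (J * X - X * J) * J = J * J * X * 1 - (2 : K) • (J * X * J) + 1 * X * (J * J) := by
      simp only [mul_sub, sub_mul, mul_assoc, mul_one, one_mul]
      module
    have e2 : (X * (J * J)).trace = (J * J * X).trace := Matrix.trace_mul_comm _ _
    have e3 : (J * X * J).trace = (J * J * X).trace := by rw [Matrix.trace_mul_comm, ← mul_assoc]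
    rw [e1, map_add, map_sub, map_smul, efL_apply, efL_apply, efL_apply, mul_one (J * J * X), one_mul X, e2, e3]
    module
  rw [e, trf_smul (c * c), trf_add, trf_sub, trf_smul (2 : K), tr_ef H ja jb (by simp) (by simp), tr_ef H hJ.xa hJ.xb hJ.xa hJ.xb,
    tr_ef H (by simp) (by simp) ja jb, hJt, Matrix.transpose_one, mul_one, H.gg, one_mul, hJ.sk, neg_mul,
    Matrix.trace_neg, jj, mul_one, Matrix.trace_one]
  ring

end

end QU55
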