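import Pool.Agent.Helper55.QU.End
import Pool.Agent.Helper55.QU.Pos
import Pool.Agent.Helper55.QU.Tr
import Pool.Agent.Helper27.PGN.Gen

/-!
AllGeometricGenera (MP_b8862a_ag), construction QUAT: the family of the Hodge structures.
-/

set_option linter.unusedSectionVars false

open Matrix MH
open scoped Kronecker

namespace QU55

open SH94 (cC cC_mul cC_one cC_conj cC_inj)

variable {ι : Type*} [Fintype ι] [DecidableEq ι] (o : ι)

theorem lam_zero {R : Type*} [CommRing R] : lam (0 : Fin 4 → R) = 0 := by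
  ext i j
  fin_cases i <;> fin_cases j <;> simp [lam]

theorem lam_map {R R' : Type*} [CommRing R] [CommRing R'] (f : R →+* R') (z : Fin 4 → R) :
    (lam z).map f = lam fun k => f (z k) := by
  ext i j
  fin_cases i <;> fin_cases j <;> simp [lam]

theorem qi_map {R R' : Type*} [CommRing R] [CommRing R'] (f : R →+* R') : (qi R).map f = qi R' := by
  ext i j
  fin_cases i <;> fin_cases j <;> simp [qi]

theorem ri_map {R R' : Type*} [CommRing R] [CommRing R'] (f : R →+* R') : (ri R).map f = ri R' := by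
  ext i j
  fin_cases i <;> fin_cases j <;> simp [ri]

theorem rj_map {R R' : Type*} [CommRing R] [CommRing R'] (f : R →+* R') : (rj R).map f = rj R' := by
  ext i j
  fin_cases i <;> fin_cases j <;> simp [rj]

theorem gG_map {R R' : Type*} [CommRing R] [CommRing R'] (f : R →+* R') : (gG o R).map f = gG o R' := by
  ext ⟨a, r⟩ ⟨b, s⟩
  rw [Matrix.map_apply, gG, gG, Matrix.kroneckerMap_apply, Matrix.kroneckerMap_apply, map_mul]
  congr 1
  · rw [Matrix.diagonal_apply, Matrix.diagonal_apply]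
    split_ifs
    · rw [ep, ep]
      split_ifs <;> simp
    · exact map_zero f
  · rw [Matrix.one_apply, Matrix.one_apply]
    split_ifs <;> simp

theorem gA_map {R R' : Type*} [CommRing R] [CommRing R'] (f : R →+* R') : (gA ι R).map f = gA ι R' := by
  ext ⟨a, r⟩ ⟨b, s⟩
  have e := congrFun (congrFun (ri_map f) r) s
  rw [Matrix.map_apply] at e
  rw [Matrix.map_apply, gA, gA, Matrix.kroneckerMap_apply, Matrix.kroneckerMap_apply, map_mul, e]
  congr 1
  rw [Matrix.one_apply, Matrix.one_apply]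
  split_ifs <;> simp

theorem gB_map {R R' : Type*} [CommRing R] [CommRing R'] (f : R →+* R') : (gB ι R).map f = gB ι R' := by
  ext ⟨a, r⟩ ⟨b, s⟩
  have e := congrFun (congrFun (rj_map f) r) s
  rw [Matrix.map_apply] at e
  rw [Matrix.map_apply, gB, gB, Matrix.kroneckerMap_apply, Matrix.kroneckerMap_apply, map_mul, e]
  congr 1
  rw [Matrix.one_apply, Matrix.one_apply]
  split_ifs <;> simp

theorem toC_gG : toC (gG o ℚ) = gG o ℂ := gG_map o (algebraMap ℚ ℂ)
theorem toC_gA : toC (gA ι ℚ) = gA ι ℂ := gA_map (algebraMap ℚ ℂ)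
theorem toC_gB : toC (gB ι ℚ) = gB ι ℂ := gB_map (algebraMap ℚ ℂ)

/-- a real vector as a complex vector -/
noncomputable def zc (z : ι → Fin 4 → ℝ) : ι → Fin 4 → ℂ := fun a k => (z a k : ℂ)

theorem Zm_conj (z : ι → Fin 4 → ℝ) : (Zm (zc z)).map (starRingEnd ℂ) = Zm (zc z) := by
  ext p k
  have e := congrFun (congrFun (lam_map (starRingEnd ℂ) (zc z p.1)) p.2) k
  rw [Matrix.map_apply] at e
  rw [Matrix.map_apply, Zm, e]
  congr 1
  funext k
  exact Complex.conj_ofReal _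

theorem hc_zc (z : ι → Fin 4 → ℝ) : hc o (zc z) = ((hc o z : ℝ) : ℂ) := by
  rw [hc, hc]
  push_cast
  refine Finset.sum_congr rfl fun a _ => ?_
  congr 1
  rw [ep, ep]
  split_ifs <;> simp

theorem Nz_conj (z : ι → Fin 4 → ℝ) : (Nz o (zc z)).map (starRingEnd ℂ) = Nz o (zc z) := by
  rw [Nz, Matrix.map_mul, Matrix.map_mul, Matrix.map_mul, gG_map, qi_map, Zm_conj]
  have e : ((Zm (zc z))ᵀ).map (starRingEnd ℂ) = (Zm (zc z))ᵀ := by
    have := congrArg Matrix.transpose (Zm_conj z)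
    exact this
  rw [e]

theorem Jz_conj (z : ι → Fin 4 → ℝ) : (Jz o (zc z)).map (starRingEnd ℂ) = Jz o (zc z) := by
  ext p q
  have e := congrFun (congrFun (Nz_conj o z) p) q
  rw [Matrix.map_apply] at e
  rw [Matrix.map_apply, Jz, Matrix.smul_apply, smul_eq_mul, map_mul, e, hc_zc, map_inv₀, Complex.conj_ofReal]

theorem opJ (z : ι → Fin 4 → ℝ) (hz : hc o z ≠ 0) : OpJ (gG o ℂ) (gA ι ℂ) (gB ι ℂ) (Jz o (zc z)) := by
  have hz' : hc o (zc z) ≠ 0 := by
    rw [hc_zc]
    exact_mod_cast hz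
  exact ⟨Jz_mem o, Jz_cub o hz', Jz_conj o z, fun X hX => Jz_one o hz' hX⟩

/-- the form of the polarisation -/
noncomputable def Sz (z : ι → Fin 4 → ℝ) : Matrix (ι × Fin 4) (ι × Fin 4) ℂ :=
  gG o ℂ * (1 + (2 : ℂ) • (Jz o (zc z) * Jz o (zc z)))

/-- the distance to the identity -/
noncomputable def dz (z : ι → Fin 4 → ℝ) : ℝ := ∑ p : (ι × Fin 4) × (ι × Fin 4), ‖(Sz o z - 1) p.1 p.2‖ ^ 2

/-- the parameters -/
def Tz : Set (ι → Fin 4 → ℝ) := {z | hc o z ≠ 0} ∩ {z | dz o z < 1}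

theorem cont_hc : Continuous fun z : ι → Fin 4 → ℝ => hc o z := by
  unfold hc
  fun_prop

theorem cont_Zm : Continuous fun z : ι → Fin 4 → ℝ => Zm (zc z) := by
  refine continuous_matrix fun p k => ?_
  have e : (fun z : ι → Fin 4 → ℝ => Zm (zc z) p k) = fun z : ι → Fin 4 → ℝ => ((lam (z p.1) p.2 k : ℝ) : ℂ) := by
    funext z
    exact (congrFun (congrFun (lam_map Complex.ofRealHom (z p.1)) p.2) k).symm
  rw [e]
  refine Complex.continuous_ofReal.comp ?_
  obtain ⟨a, r⟩ := p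
  fin_cases r <;> fin_cases k <;> simp only [lam] <;> simp <;> fun_prop

theorem cont_Nz : Continuous fun z : ι → Fin 4 → ℝ => Nz o (zc z) := by
  unfold Nz
  exact ((cont_Zm.matrix_mul continuous_const).matrix_mul cont_Zm.matrix_transpose).matrix_mul continuous_const

theorem contOn_mul {T N : Type*} [TopologicalSpace T] [Fintype N] {s : Set T} {f g : T → Matrix N N ℂ}
    (hf : ContinuousOn f s) (hg : ContinuousOn g s) : ContinuousOn (fun t => f t * g t) s := by
  rw [continuousOn_iff_continuous_domRestrict] at *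
  exact hf.matrix_mul hg

theorem cont_Jz : ContinuousOn (fun z : ι → Fin 4 → ℝ => Jz o (zc z)) {z | hc o z ≠ 0} := by
  unfold Jz
  suffices h : ContinuousOn (fun z : ι → Fin 4 → ℝ => (hc o (zc z))⁻¹) {z | hc o z ≠ 0} from
    h.smul (cont_Nz o).continuousOn
  have e : (fun z : ι → Fin 4 → ℝ => (hc o (zc z))⁻¹) = fun z : ι → Fin 4 → ℝ => (((hc o z : ℝ) : ℂ))⁻¹ := by
    funext z
    rw [hc_zc]
  rw [e]
  refine ContinuousOn.inv₀ (Complex.continuous_ofReal.comp (cont_hc o)).continuousOn fun z hz => ?_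
  exact_mod_cast hz

theorem cont_Sz : ContinuousOn (fun z : ι → Fin 4 → ℝ => Sz o z) {z | hc o z ≠ 0} := by
  unfold Sz
  have h1 : ContinuousOn (fun z : ι → Fin 4 → ℝ => Jz o (zc z) * Jz o (zc z)) {z | hc o z ≠ 0} :=
    contOn_mul (cont_Jz o) (cont_Jz o)
  exact contOn_mul continuousOn_const (continuousOn_const.add (h1.const_smul (2 : ℂ)))

theorem cont_dz : ContinuousOn (fun z : ι → Fin 4 → ℝ => dz o z) {z | hc o z ≠ 0} := by
  unfold dz
  refine continuousOn_finsetSum _ fun p _ => ?_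
  have h1 : ContinuousOn (fun z : ι → Fin 4 → ℝ => Sz o z - 1) {z | hc o z ≠ 0} := (cont_Sz o).sub continuousOn_const
  have h2 : ContinuousOn (fun z : ι → Fin 4 → ℝ => (Sz o z - 1) p.1 p.2) {z | hc o z ≠ 0} :=
    (continuous_apply_apply p.1 p.2).comp_continuousOn h1
  exact h2.norm.pow 2

theorem isOpen_Tz : IsOpen (Tz o) := by
  have h1 : IsOpen {z : ι → Fin 4 → ℝ | hc o z ≠ 0} := isOpen_ne_fun (cont_hc o) continuous_const
  exact (cont_dz o).isOpen_inter_preimage h1 isOpen_Iio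

/-- a vector with one component -/
def sv {R : Type*} [Zero R] (a : ι) (x : Fin 4 → R) : ι → Fin 4 → R := fun b => if b = a then x else 0

/-- a column with one block -/
def Zc {R : Type*} [Zero R] (a : ι) (m : Matrix (Fin 4) (Fin 4) R) : Matrix (ι × Fin 4) (Fin 4) R :=
  fun p k => if p.1 = a then m p.2 k else 0

theorem Zm_sv {R : Type*} [CommRing R] (a : ι) (x : Fin 4 → R) : Zm (sv a x) = Zc a (lam x) := by
  ext p k
  rw [Zm, Zc, sv]
  split_ifs
  · rfl
  · rw [lam_zero]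
    rfl

theorem Zc_Zc {R : Type*} [CommRing R] (a b : ι) (m n m' : Matrix (Fin 4) (Fin 4) R) :
    Zc a m * n * (Zc b m')ᵀ = bl a b (m * n * m'ᵀ) := by
  ext ⟨x, r⟩ ⟨y, s⟩
  rw [bl_apply, Matrix.mul_apply]
  have e1 : ∀ k, (Zc a m * n) (x, r) k = if x = a then (m * n) r k else 0 := by
    intro k
    rw [Matrix.mul_apply, Matrix.mul_apply]
    by_cases h : x = a
    · rw [if_pos h]
      refine Finset.sum_congr rfl fun l _ => ?_
      rw [Zc, if_pos h]
    · rw [if_neg h]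
      refine Finset.sum_eq_zero fun l _ => ?_
      rw [Zc, if_neg h, zero_mul]
  by_cases h : a = x ∧ b = y
  · rw [if_pos h, Matrix.mul_apply]
    refine Finset.sum_congr rfl fun k _ => ?_
    rw [e1, if_pos h.1.symm, Matrix.transpose_apply, Zc, if_pos h.2.symm]
    rfl
  · rw [if_neg h]
    refine Finset.sum_eq_zero fun k _ => ?_
    rw [e1, Matrix.transpose_apply, Zc]
    by_cases hx : x = a
    · have hy : ¬y = b := fun hy => h ⟨hx.symm, hy.symm⟩
      rw [if_neg hy, mul_zero]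
    · rw [if_neg hx, zero_mul]

theorem one_vec {R : Type*} [CommRing R] : lam (![1, 0, 0, 0] : Fin 4 → R) = 1 := one_lam.symm

/-- the base point -/
theorem base_mem : sv o ![1, 0, 0, 0] ∈ Tz o := by
  have h1 : hc o (sv o (![1, 0, 0, 0] : Fin 4 → ℝ)) = -1 := by
    rw [hc, Finset.sum_eq_single o]
    · rw [ep, if_pos rfl, sv, if_pos rfl]
      simp
    · intro b _ hb
      rw [sv, if_neg hb]
      simp
    · intro h
      exact absurd (Finset.mem_univ _) h
  have hz : zc (sv o (![1, 0, 0, 0] : Fin 4 → ℝ)) = sv o ![1, 0, 0, 0] := by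
    funext b k
    rw [zc, sv, sv]
    split_ifs
    · fin_cases k <;> simp
    · simp
  have h1' : hc o (sv o (![1, 0, 0, 0] : Fin 4 → ℂ)) = -1 := by
    rw [← hz, hc_zc, h1]
    simp
  have h2 : Sz o (sv o (![1, 0, 0, 0] : Fin 4 → ℝ)) = 1 := by
    have hne : hc o (sv o (![1, 0, 0, 0] : Fin 4 → ℂ)) ≠ 0 := by rw [h1']; norm_num
    have e1 : Zm (sv o (![1, 0, 0, 0] : Fin 4 → ℂ)) * (Zm (sv o (![1, 0, 0, 0] : Fin 4 → ℂ)))ᵀ = bl o o 1 := by
      rw [Zm_sv, one_vec]
      have := Zc_Zc o o (1 : Matrix (Fin 4) (Fin 4) ℂ) 1 1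
      rwa [Matrix.mul_one, Matrix.transpose_one, Matrix.mul_one, Matrix.mul_one] at this
    rw [Sz, hz, Jz_sq o hne, h1', e1, bl_gG, ep, if_pos rfl]
    ext ⟨a, r⟩ ⟨b, s⟩
    rw [Matrix.mul_add, Matrix.mul_one, Matrix.mul_smul, Matrix.mul_neg, Matrix.mul_smul, Matrix.mul_smul, gG_bl, ep,
      if_pos rfl]
    simp only [Matrix.add_apply, Matrix.smul_apply, Matrix.neg_apply, smul_eq_mul, bl_apply]
    rw [gG, Matrix.kroneckerMap_apply, ← Matrix.one_kronecker_one, Matrix.kroneckerMap_apply, Matrix.diagonal_apply,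
      Matrix.one_apply (i := a)]
    by_cases hab : a = b
    · subst hab
      rw [if_pos rfl, if_pos rfl, ep]
      by_cases ha : a = o
      · subst ha
        simp
        ring
      · have ha' : ¬o = a := fun h => ha h.symm
        simp [ha, ha']
    · rw [if_neg hab, if_neg hab]
      have : ¬(o = a ∧ o = b) := fun h => hab (h.1.symm.trans h.2)
      rw [if_neg this]
      simp
  refine ⟨?_, ?_⟩
  · show hc o _ ≠ 0
    rw [h1]
    norm_num
  · show dz o _ < 1
    rw [dz, h2]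
    simp

/-- the polarisation of the members of the family -/
theorem fam_pos {z : ι → Fin 4 → ℝ} (hz : z ∈ Tz o) {X : Matrix (ι × Fin 4) (ι × Fin 4) ℂ}
    (hX : InV (gG o ℂ) (gA ι ℂ) (gB ι ℂ) X) (hX0 : X ≠ 0) :
    0 < (X * ((1 + (2 : ℂ) • (Jz o (zc z) * Jz o (zc z))) * X.map (starRingEnd ℂ) *
      (1 + (2 : ℂ) • (Jz o (zc z) * Jz o (zc z))))).trace.re := by
  have H := qd_g o (R := ℂ)
  have hz' : hc o (zc z) ≠ 0 := by
    rw [hc_zc]
    exact_mod_cast hz.1
  refine pos_main H (gG_map o (starRingEnd ℂ)) ?_ hX hX0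
  refine posDef_near ?_ hz.2
  have hJc := Jz_conj o z
  have hG : (gG o ℂ)ᴴ = gG o ℂ := by
    have : (gG o ℂ)ᴴ = ((gG o ℂ)ᵀ).map (starRingEnd ℂ) := rfl
    rw [this, H.gt, gG_map]
  have hJh : (Jz o (zc z))ᴴ = (Jz o (zc z))ᵀ := by
    have : (Jz o (zc z))ᴴ = ((Jz o (zc z)).map (starRingEnd ℂ))ᵀ := rfl
    rw [this, hJc]
  have hJG : (Jz o (zc z))ᵀ * gG o ℂ = -(gG o ℂ * Jz o (zc z)) := by
    calc (Jz o (zc z))ᵀ * gG o ℂ = gG o ℂ * (gG o ℂ * (Jz o (zc z))ᵀ * gG o ℂ) := by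
          rw [mul_assoc (gG o ℂ), H.gg']
      _ = _ := by rw [(Jz_mem o).sk, mul_neg]
  show (gG o ℂ * (1 + (2 : ℂ) • (Jz o (zc z) * Jz o (zc z))))ᴴ = _
  rw [Matrix.conjTranspose_mul, Matrix.conjTranspose_add, Matrix.conjTranspose_smul, Matrix.conjTranspose_mul,
    Matrix.conjTranspose_one, hG, hJh, add_mul, one_mul, mul_add, mul_one, smul_mul_assoc, mul_smul_comm, mul_assoc,
    hJG, mul_neg, ← mul_assoc, hJG, neg_mul, neg_neg, mul_assoc]
  congr 2
  simp

end QU55
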