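import Mathlib

/-!
AllGeometricGenera (MP_b8862a_ag), construction QUAT: the quaternions as matrices of size four.
-/

set_option linter.unusedSectionVars false

open Matrix

namespace QU55

section
variable (R : Type*) [CommRing R]

/-- left multiplication with `i` -/
def qi : Matrix (Fin 4) (Fin 4) R := !![0, -1, 0, 0; 1, 0, 0, 0; 0, 0, 0, -1; 0, 0, 1, 0]

/-- left multiplication with `j` -/
def qj : Matrix (Fin 4) (Fin 4) R := !![0, 0, -1, 0; 0, 0, 0, 1; 1, 0, 0, 0; 0, -1, 0, 0]

/-- left multiplication with `k` -/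
def qk : Matrix (Fin 4) (Fin 4) R := !![0, 0, 0, -1; 0, 0, -1, 0; 0, 1, 0, 0; 1, 0, 0, 0]

/-- right multiplication with `i` -/
def ri : Matrix (Fin 4) (Fin 4) R := !![0, -1, 0, 0; 1, 0, 0, 0; 0, 0, 0, 1; 0, 0, -1, 0]

/-- right multiplication with `j` -/
def rj : Matrix (Fin 4) (Fin 4) R := !![0, 0, -1, 0; 0, 0, 0, -1; 1, 0, 0, 0; 0, 1, 0, 0]

variable {R}

/-- left multiplication with a quaternion -/
def lam (z : Fin 4 → R) : Matrix (Fin 4) (Fin 4) R :=
  !![z 0, -z 1, -z 2, -z 3; z 1, z 0, -z 3, z 2; z 2, z 3, z 0, -z 1; z 3, -z 2, z 1, z 0]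

theorem lam_add (z w : Fin 4 → R) : lam (z + w) = lam z + lam w := by
  ext i j
  fin_cases i <;> fin_cases j <;> simp [lam] <;> ring

theorem lam_smul (c : R) (z : Fin 4 → R) : lam (c • z) = c • lam z := by
  ext i j
  fin_cases i <;> fin_cases j <;> simp [lam]

theorem lam_ri (z : Fin 4 → R) : lam z * ri R = ri R * lam z := by
  ext i j
  fin_cases i <;> fin_cases j <;> simp [lam, ri, Matrix.mul_apply, Fin.sum_univ_four]

theorem lam_rj (z : Fin 4 → R) : lam z * rj R = rj R * lam z := by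
  ext i j
  fin_cases i <;> fin_cases j <;> simp [lam, rj, Matrix.mul_apply, Fin.sum_univ_four]

theorem lam_tr_mul (z : Fin 4 → R) : (lam z)ᵀ * lam z = (z 0 ^ 2 + z 1 ^ 2 + z 2 ^ 2 + z 3 ^ 2) • 1 := by
  ext i j
  fin_cases i <;> fin_cases j <;> simp [lam, Matrix.mul_apply, Fin.sum_univ_four] <;> ring

theorem qi_sq : qi R * qi R = -1 := by
  ext i j
  fin_cases i <;> fin_cases j <;> simp [qi, Matrix.mul_apply, Fin.sum_univ_four]

theorem qj_sq : qj R * qj R = -1 := by
  ext i j
  fin_cases i <;> fin_cases j <;> simp [qj, Matrix.mul_apply, Fin.sum_univ_four]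

theorem qk_sq : qk R * qk R = -1 := by
  ext i j
  fin_cases i <;> fin_cases j <;> simp [qk, Matrix.mul_apply, Fin.sum_univ_four]

theorem ri_sq : ri R * ri R = -1 := by
  ext i j
  fin_cases i <;> fin_cases j <;> simp [ri, Matrix.mul_apply, Fin.sum_univ_four]

theorem rj_sq : rj R * rj R = -1 := by
  ext i j
  fin_cases i <;> fin_cases j <;> simp [rj, Matrix.mul_apply, Fin.sum_univ_four]

theorem ri_rj : ri R * rj R = -(rj R * ri R) := by
  ext i j
  fin_cases i <;> fin_cases j <;> simp [ri, rj, Matrix.mul_apply, Fin.sum_univ_four]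

theorem qi_tr : (qi R)ᵀ = -qi R := by
  ext i j
  fin_cases i <;> fin_cases j <;> simp [qi]

theorem qj_tr : (qj R)ᵀ = -qj R := by
  ext i j
  fin_cases i <;> fin_cases j <;> simp [qj]

theorem qk_tr : (qk R)ᵀ = -qk R := by
  ext i j
  fin_cases i <;> fin_cases j <;> simp [qk]

theorem ri_tr : (ri R)ᵀ = -ri R := by
  ext i j
  fin_cases i <;> fin_cases j <;> simp [ri]

theorem rj_tr : (rj R)ᵀ = -rj R := by
  ext i j
  fin_cases i <;> fin_cases j <;> simp [rj]

theorem qi_lam : qi R = lam ![0, 1, 0, 0] := by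
  ext i j
  fin_cases i <;> fin_cases j <;> simp [qi, lam]

theorem qj_lam : qj R = lam ![0, 0, 1, 0] := by
  ext i j
  fin_cases i <;> fin_cases j <;> simp [qj, lam]

theorem qk_lam : qk R = lam ![0, 0, 0, 1] := by
  ext i j
  fin_cases i <;> fin_cases j <;> simp [qk, lam]

theorem one_lam : (1 : Matrix (Fin 4) (Fin 4) R) = lam ![1, 0, 0, 0] := by
  ext i j
  fin_cases i <;> fin_cases j <;> simp [lam]

/-- `(1 + k) i (1 - k) = 2 j` -/
theorem conj_j : lam ![1, 0, 0, 1] * qi R * (lam ![1, 0, 0, 1])ᵀ = (2 : R) • qj R := by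
  ext i j
  fin_cases i <;> fin_cases j <;> simp [qi, qj, lam, Matrix.mul_apply, Fin.sum_univ_four] <;> norm_num

/-- `(1 - j) i (1 + j) = 2 k` -/
theorem conj_k : lam ![1, 0, -1, 0] * qi R * (lam ![1, 0, -1, 0])ᵀ = (2 : R) • qk R := by
  ext i j
  fin_cases i <;> fin_cases j <;> simp [qi, qk, lam, Matrix.mul_apply, Fin.sum_univ_four] <;> norm_num

/-- the commutant of the right multiplications -/
theorem com4 {m : Matrix (Fin 4) (Fin 4) R} (h1 : m * ri R = ri R * m) (h2 : m * rj R = rj R * m) :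
    m = lam fun k => m k 0 := by
  have e1 := fun i j => congrFun (congrFun h1 i) j
  have e2 := fun i j => congrFun (congrFun h2 i) j
  simp only [Matrix.mul_apply, Fin.sum_univ_four] at e1 e2
  ext i j
  fin_cases j
  · fin_cases i <;> simp [lam]
  · have a0 := e1 0 0
    have a1 := e1 1 0
    have a2 := e1 2 0
    have a3 := e1 3 0
    simp [ri] at a0 a1 a2 a3
    fin_cases i <;> simp [lam, *]
  · have a0 := e2 0 0
    have a1 := e2 1 0
    have a2 := e2 2 0
    have a3 := e2 3 0
    simp [rj] at a0 a1 a2 a3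
    fin_cases i <;> simp [lam, *]
  · have a0 := e2 0 1
    have a1 := e2 1 1
    have a2 := e2 2 1
    have a3 := e2 3 1
    have b0 := e1 0 0
    have b1 := e1 1 0
    have b2 := e1 2 0
    have b3 := e1 3 0
    simp [rj] at a0 a1 a2 a3
    simp [ri] at b0 b1 b2 b3
    fin_cases i <;> simp [lam, *]

end

section
variable {K : Type*} [Field K] [CharZero K]

/-- symmetric elements of the commutant are scalars -/
theorem sym4 {m : Matrix (Fin 4) (Fin 4) K} (h1 : m * ri K = ri K * m) (h2 : m * rj K = rj K * m) (h3 : mᵀ = m) :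
    m = m 0 0 • (1 : Matrix (Fin 4) (Fin 4) K) := by
  have e := com4 h1 h2
  have z : ∀ k : Fin 4, k ≠ 0 → m k 0 = 0 := by
    intro k hk
    have a1 := congrFun (congrFun h3 k) 0
    rw [Matrix.transpose_apply] at a1
    have a2 := congrFun (congrFun e 0) k
    have a3 : m 0 k = -m k 0 := by
      rw [a2]
      clear a1 a2
      fin_cases k
      · exact absurd rfl hk
      · rfl
      · rfl
      · rfl
    rw [a3] at a1
    have a4 : (2 : K) * m k 0 = 0 := by linear_combination -a1
    exact (mul_eq_zero.1 a4).resolve_left two_ne_zero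
  rw [e]
  ext i j
  fin_cases i <;> fin_cases j <;> simp [lam, z 1 (by decide), z 2 (by decide), z 3 (by decide)]

/-- central elements are scalars -/
theorem cen4 {m : Matrix (Fin 4) (Fin 4) K} (h1 : m * ri K = ri K * m) (h2 : m * rj K = rj K * m)
    (h3 : m * qi K = qi K * m) (h4 : m * qj K = qj K * m) : m = m 0 0 • (1 : Matrix (Fin 4) (Fin 4) K) := by
  have e := com4 h1 h2
  have z2 : m 2 0 = 0 ∧ m 3 0 = 0 := by
    rw [e] at h3
    have a1 := congrFun (congrFun h3 3) 0
    have a2 := congrFun (congrFun h3 2) 0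
    simp [lam, qi, Matrix.mul_apply, Fin.sum_univ_four] at a1 a2
    have b1 : (2 : K) * m 2 0 = 0 := by linear_combination -a1
    have b2 : (2 : K) * m 3 0 = 0 := by linear_combination a2
    exact ⟨(mul_eq_zero.1 b1).resolve_left two_ne_zero, (mul_eq_zero.1 b2).resolve_left two_ne_zero⟩
  have z1 : m 1 0 = 0 := by
    rw [e] at h4
    have a1 := congrFun (congrFun h4 3) 0
    simp [lam, qj, Matrix.mul_apply, Fin.sum_univ_four] at a1
    have b1 : (2 : K) * m 1 0 = 0 := by linear_combination a1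
    exact (mul_eq_zero.1 b1).resolve_left two_ne_zero
  rw [e]
  ext i j
  fin_cases i <;> fin_cases j <;> simp [lam, z1, z2.1, z2.2]

end

end QU55
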