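import Pool.Agent.Helper55.QU.Fam


/-!
AllGeometricGenera (MP_b8862a_ag), construction QUAT: Hodge numbers `s, (s² - s) / 2, s` with `s` even, the quaternionic
hermitian matrices of trace zero.
-/

set_option linter.unusedSectionVars false

open Matrix MH
open scoped Kronecker

namespace QU55

open SH94 (cC cC_mul cC_one cC_conj cC_inj)

section
variable {ι : Type*} [Fintype ι] [DecidableEq ι] {o : ι}

/-- three vectors in an open set -/
theorem exists_eps {E : Type*} [TopologicalSpace E] [AddCommGroup E] [Module ℝ E] [ContinuousAdd E] [ContinuousSMul ℝ E]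
    {U : Set E} (hU : IsOpen U) {z : E} (hz : z ∈ U) (w : E) :
    ∃ t : ℝ, t ≠ 0 ∧ z + t • w ∈ U ∧ z + (-t) • w ∈ U := by
  have h1 : Continuous fun t : ℝ => z + t • w := by fun_prop
  have h2 : Continuous fun t : ℝ => z + (-t) • w := by fun_prop
  have h3 : IsOpen {t : ℝ | z + t • w ∈ U ∧ z + (-t) • w ∈ U} := (hU.preimage h1).inter (hU.preimage h2)
  have h4 : (0 : ℝ) ∈ {t : ℝ | z + t • w ∈ U ∧ z + (-t) • w ∈ U} := by
    refine ⟨?_, ?_⟩
    · show z + (0 : ℝ) • w ∈ U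
      rw [zero_smul, add_zero]
      exact hz
    · show z + (-(0 : ℝ)) • w ∈ U
      rw [neg_zero, zero_smul, add_zero]
      exact hz
  obtain ⟨ε, hε, hb⟩ := Metric.isOpen_iff.1 h3 0 h4
  refine ⟨ε / 2, by positivity, ?_⟩
  apply hb
  rw [Metric.mem_ball, dist_zero_right, Real.norm_eq_abs, abs_of_pos (by positivity)]
  linarith

/-- the quadratic map -/
theorem Nz_pol (z w : ι → Fin 4 → ℝ) (t : ℝ) :
    Nz o (zc (z + t • w)) + Nz o (zc (z + (-t) • w)) = (2 : ℂ) • Nz o (zc z) + (2 * (t : ℂ) ^ 2) • Nz o (zc w) := by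
  have h1 : ∀ s : ℝ, Zm (zc (z + s • w)) = Zm (zc z) + (s : ℂ) • Zm (zc w) := by
    intro s
    rw [← Zm_smul, ← Zm_add]
    congr 1
    funext a k
    simp [zc]
  rw [Nz, Nz, h1, h1, Nz, Nz]
  push_cast
  simp only [Matrix.transpose_add, Matrix.transpose_smul, Matrix.add_mul, Matrix.mul_add, Matrix.smul_mul,
    Matrix.mul_smul, smul_add, smul_smul]
  module

/-- the Lie algebra generated by the family -/
theorem comm_gen {φ : Matrix (ι × Fin 4) (ι × Fin 4) ℂ →ₗ[ℂ] Matrix (ι × Fin 4) (ι × Fin 4) ℂ}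
    {U : Set (ι → Fin 4 → ℝ)} (hU : IsOpen U) (hne : U.Nonempty)
    (h : ∀ z ∈ U, ∀ X, φ (Nz o (zc z) * X - X * Nz o (zc z)) = Nz o (zc z) * φ X - φ X * Nz o (zc z))
    (hV : ∀ X, InV (gG o ℂ) (gA ι ℂ) (gB ι ℂ) X → InV (gG o ℂ) (gA ι ℂ) (gB ι ℂ) (φ X)) : Cm o φ := by
  obtain ⟨z, hz⟩ := hne
  -- the elements that commute with the map
  have hall : ∀ w : ι → Fin 4 → ℝ, ∀ X,
      φ (Nz o (zc w) * X - X * Nz o (zc w)) = Nz o (zc w) * φ X - φ X * Nz o (zc w) := by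
    intro w X
    obtain ⟨t, ht, h1, h2⟩ := exists_eps hU hz w
    have e0 := h z hz X
    have e1 := h _ h1 X
    have e2 := h _ h2 X
    have ht' : (2 * (t : ℂ) ^ 2) ≠ 0 := by
      have : (t : ℂ) ≠ 0 := by exact_mod_cast ht
      exact mul_ne_zero two_ne_zero (pow_ne_zero 2 this)
    have hN : (2 * (t : ℂ) ^ 2) • Nz o (zc w) =
        Nz o (zc (z + t • w)) + Nz o (zc (z + (-t) • w)) - (2 : ℂ) • Nz o (zc z) := by
      rw [Nz_pol]
      abel
    apply smul_right_injective _ ht'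
    show (2 * (t : ℂ) ^ 2) • φ (Nz o (zc w) * X - X * Nz o (zc w)) =
      (2 * (t : ℂ) ^ 2) • (Nz o (zc w) * φ X - φ X * Nz o (zc w))
    rw [← map_smul, smul_sub, smul_sub, ← Matrix.smul_mul, ← Matrix.mul_smul, ← Matrix.smul_mul, ← Matrix.mul_smul, hN]
    have e3 : (Nz o (zc (z + t • w)) + Nz o (zc (z + (-t) • w)) - (2 : ℂ) • Nz o (zc z)) * X -
        X * (Nz o (zc (z + t • w)) + Nz o (zc (z + (-t) • w)) - (2 : ℂ) • Nz o (zc z)) =
        (Nz o (zc (z + t • w)) * X - X * Nz o (zc (z + t • w))) +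
          (Nz o (zc (z + (-t) • w)) * X - X * Nz o (zc (z + (-t) • w))) -
            (2 : ℂ) • (Nz o (zc z) * X - X * Nz o (zc z)) := by
      simp only [Matrix.sub_mul, Matrix.add_mul, Matrix.mul_sub, Matrix.mul_add, Matrix.smul_mul, Matrix.mul_smul]
      module
    rw [e3, map_sub, map_add, map_smul, e0, e1, e2]
    simp only [Matrix.sub_mul, Matrix.add_mul, Matrix.mul_sub, Matrix.mul_add, Matrix.smul_mul, Matrix.mul_smul]
    module
  obtain ⟨P, hP⟩ : ∃ P : Matrix (ι × Fin 4) (ι × Fin 4) ℂ → Prop,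
      ∀ N, P N ↔ ∀ X, φ (N * X - X * N) = N * φ X - φ X * N := ⟨_, fun _ => Iff.rfl⟩
  have hPN : ∀ w, P (Nz o (zc w)) := fun w => (hP _).2 (hall w)
  have hPs : ∀ (c : ℂ) N, P N → P (c • N) := by
    intro c N hN
    rw [hP] at hN ⊢
    intro X
    rw [Matrix.smul_mul, Matrix.mul_smul, ← smul_sub, map_smul, hN, Matrix.smul_mul, Matrix.mul_smul, ← smul_sub]
  have hPa : ∀ N N', P N → P N' → P (N + N') := by
    intro N N' hN hN'
    rw [hP] at hN hN' ⊢
    intro X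
    have e : (N + N') * X - X * (N + N') = (N * X - X * N) + (N' * X - X * N') := by
      rw [Matrix.add_mul, Matrix.mul_add]
      abel
    rw [e, map_add, hN, hN', Matrix.add_mul, Matrix.mul_add]
    abel
  have hzs : ∀ (a : ι) (x : Fin 4 → ℝ), zc (sv a x) = sv a fun k => (x k : ℂ) := by
    intro a x
    funext b k
    rw [zc, sv, sv]
    split_ifs <;> simp
  have hNs : ∀ (a : ι) (x : Fin 4 → ℝ), Nz o (zc (sv a x)) =
      ep o ℂ a • bl a a (lam (fun k => (x k : ℂ)) * qi ℂ * (lam fun k => (x k : ℂ))ᵀ) := by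
    intro a x
    rw [Nz, hzs, Zm_sv, Zc_Zc, bl_gG]
  have hPd : ∀ (a : ι) (x : Fin 4 → ℝ), P (bl a a (lam (fun k => (x k : ℂ)) * qi ℂ * (lam fun k => (x k : ℂ))ᵀ)) := by
    intro a x
    have h1 := hPs (ep o ℂ a) _ (hPN (sv a x))
    rw [hNs, smul_smul, ep_sq, one_smul] at h1
    exact h1
  have v1 : (fun k => ((![1, 0, 0, 0] : Fin 4 → ℝ) k : ℂ)) = (![1, 0, 0, 0] : Fin 4 → ℂ) := by
    funext k
    fin_cases k <;> simp
  have v2 : (fun k => ((![1, 0, 0, 1] : Fin 4 → ℝ) k : ℂ)) = (![1, 0, 0, 1] : Fin 4 → ℂ) := by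
    funext k
    fin_cases k <;> simp
  have v3 : (fun k => ((![0, -1, 0, 0] : Fin 4 → ℝ) k : ℂ)) = (![0, -1, 0, 0] : Fin 4 → ℂ) := by
    funext k
    fin_cases k <;> simp
  have hqi : ∀ a, P (bl a a (qi ℂ)) := by
    intro a
    have h1 := hPd a ![1, 0, 0, 0]
    rw [v1, one_vec, Matrix.transpose_one, Matrix.mul_one, Matrix.one_mul] at h1
    exact h1
  have hqj : ∀ a, P (bl a a (qj ℂ)) := by
    intro a
    have h1 := hPd a ![1, 0, 0, 1]
    rw [v2, conj_j, bl_smul] at h1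
    have h2 := hPs (1 / 2 : ℂ) _ h1
    rw [smul_smul] at h2
    norm_num at h2
    exact h2
  have hyb : ∀ a b, a ≠ b → P (Yb o a b) := by
    intro a b hab
    have h1 := hPN (sv a ![0, -1, 0, 0] + sv b ![1, 0, 0, 0])
    have h2 := hPN (sv a ![0, -1, 0, 0])
    have h3 := hPN (sv b ![1, 0, 0, 0])
    have hZ : Zm (zc (sv a (![0, -1, 0, 0] : Fin 4 → ℝ) + sv b ![1, 0, 0, 0])) =
        Zc a (lam (![0, -1, 0, 0] : Fin 4 → ℂ)) + Zc b (1 : Matrix (Fin 4) (Fin 4) ℂ) := by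
      have e : zc (sv a (![0, -1, 0, 0] : Fin 4 → ℝ) + sv b ![1, 0, 0, 0]) =
          sv a (![0, -1, 0, 0] : Fin 4 → ℂ) + sv b ![1, 0, 0, 0] := by
        rw [← v1, ← v3, ← hzs, ← hzs]
        funext c k
        simp [zc]
      rw [e, Zm_add, Zm_sv, Zm_sv, one_vec]
    have hN : Nz o (zc (sv a (![0, -1, 0, 0] : Fin 4 → ℝ) + sv b ![1, 0, 0, 0])) =
        Nz o (zc (sv a (![0, -1, 0, 0] : Fin 4 → ℝ))) + Nz o (zc (sv b (![1, 0, 0, 0] : Fin 4 → ℝ))) + Yb o a b := by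
      have i1 : lam (![0, -1, 0, 0] : Fin 4 → ℂ) * qi ℂ = 1 := by
        ext i j
        fin_cases i <;> fin_cases j <;> simp [lam, qi, Matrix.mul_apply, Fin.sum_univ_four]
      have i2 : (1 : Matrix (Fin 4) (Fin 4) ℂ) * qi ℂ * (lam (![0, -1, 0, 0] : Fin 4 → ℂ))ᵀ = -1 := by
        ext i j
        fin_cases i <;> fin_cases j <;> simp [lam, qi, Matrix.mul_apply, Fin.sum_univ_four]
      rw [hNs, hNs, v1, v3, one_vec, Nz, hZ]
      simp only [Matrix.transpose_add, Matrix.add_mul, Matrix.mul_add, Zc_Zc, bl_gG]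
      rw [i2, i1, Matrix.transpose_one, Yb, bl_neg]
      simp only [Matrix.one_mul, Matrix.mul_one]
      module
    have h4 := hPa _ _ h1 (hPs (-1) _ (hPa _ _ h2 h3))
    rw [hN] at h4
    have e5 : Nz o (zc (sv a (![0, -1, 0, 0] : Fin 4 → ℝ))) + Nz o (zc (sv b (![1, 0, 0, 0] : Fin 4 → ℝ))) + Yb o a b +
        (-1 : ℂ) • (Nz o (zc (sv a (![0, -1, 0, 0] : Fin 4 → ℝ))) + Nz o (zc (sv b (![1, 0, 0, 0] : Fin 4 → ℝ)))) =
        Yb o a b := by
      module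
    rw [e5] at h4
    exact h4
  exact ⟨hV, fun a X => (hP _).1 (hqi a) X, fun a X => (hP _).1 (hqj a) X, fun a b X hab => (hP _).1 (hyb a b hab) X⟩

end

end QU55
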