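import Pool.Agent.Helper55.QU.Four
import Pool.Agent.Helper55.QU.Ad

/-!
AllGeometricGenera (MP_b8862a_ag), construction QUAT: the complex structures on quaternionic lines.
-/

set_option linter.unusedSectionVars false

open Matrix MH
open scoped Kronecker

namespace QU55

variable {ι : Type*} [Fintype ι] [DecidableEq ι] (o : ι)

section ring
variable (R : Type*) [CommRing R]

/-- the signs -/
def ep (a : ι) : R := if a = o then -1 else 1

/-- the hermitian form -/
def gG : Matrix (ι × Fin 4) (ι × Fin 4) R := Matrix.diagonal (ep o R) ⊗ₖ (1 : Matrix (Fin 4) (Fin 4) R)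

/-- right multiplication with `i` -/
def gA (ι : Type*) [Fintype ι] [DecidableEq ι] (R : Type*) [CommRing R] : Matrix (ι × Fin 4) (ι × Fin 4) R :=
  (1 : Matrix ι ι R) ⊗ₖ ri R

/-- right multiplication with `j` -/
def gB (ι : Type*) [Fintype ι] [DecidableEq ι] (R : Type*) [CommRing R] : Matrix (ι × Fin 4) (ι × Fin 4) R :=
  (1 : Matrix ι ι R) ⊗ₖ rj R

variable {R}

theorem kron_neg {a b : Type*} (M : Matrix a a R) (N : Matrix b b R) : M ⊗ₖ (-N) = -(M ⊗ₖ N) := by
  ext p q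
  simp

theorem neg_kron {a b : Type*} (M : Matrix a a R) (N : Matrix b b R) : (-M) ⊗ₖ N = -(M ⊗ₖ N) := by
  ext p q
  simp

theorem ep_sq (a : ι) : ep o R a * ep o R a = 1 := by
  unfold ep
  split_ifs <;> simp

theorem qd_g : Qd (gG o R) (gA ι R) (gB ι R) := by
  refine ⟨?_, ?_, ?_, ?_, ?_, ?_, ?_, ?_, ?_⟩
  · rw [gG, ← Matrix.mul_kronecker_mul, Matrix.diagonal_mul_diagonal, mul_one]
    simp only [ep_sq]
    rw [Matrix.diagonal_one, Matrix.one_kronecker_one]
  · rw [gG, ← Matrix.kroneckerMap_transpose, Matrix.diagonal_transpose, Matrix.transpose_one]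
  · rw [gA, ← Matrix.mul_kronecker_mul, ri_sq, mul_one, kron_neg, Matrix.one_kronecker_one]
  · rw [gA, ← Matrix.kroneckerMap_transpose, ri_tr, Matrix.transpose_one, kron_neg]
  · rw [gB, ← Matrix.mul_kronecker_mul, rj_sq, mul_one, kron_neg, Matrix.one_kronecker_one]
  · rw [gB, ← Matrix.kroneckerMap_transpose, rj_tr, Matrix.transpose_one, kron_neg]
  · rw [gA, gB, ← Matrix.mul_kronecker_mul, ← Matrix.mul_kronecker_mul, ri_rj, kron_neg, neg_neg]
  · rw [gG, gA, ← Matrix.mul_kronecker_mul, ← Matrix.mul_kronecker_mul, one_mul, mul_one, one_mul, mul_one]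
  · rw [gG, gB, ← Matrix.mul_kronecker_mul, ← Matrix.mul_kronecker_mul, one_mul, mul_one, one_mul, mul_one]

/-- the matrix of a vector of quaternions -/
def Zm (z : ι → Fin 4 → R) : Matrix (ι × Fin 4) (Fin 4) R := fun p k => lam (z p.1) p.2 k

/-- the value of the hermitian form -/
def hc (z : ι → Fin 4 → R) : R := ∑ a, ep o R a * (z a 0 ^ 2 + z a 1 ^ 2 + z a 2 ^ 2 + z a 3 ^ 2)

theorem Zm_add (z w : ι → Fin 4 → R) : Zm (z + w) = Zm z + Zm w := by
  ext p k
  exact congrFun (congrFun (lam_add (z p.1) (w p.1)) p.2) k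

theorem Zm_smul (c : R) (z : ι → Fin 4 → R) : Zm (c • z) = c • Zm z := by
  ext p k
  exact congrFun (congrFun (lam_smul c (z p.1)) p.2) k

theorem kron_Zm (N : Matrix (Fin 4) (Fin 4) R) (z : ι → Fin 4 → R) (a : ι) (r k : Fin 4) :
    (((1 : Matrix ι ι R) ⊗ₖ N) * Zm z) (a, r) k = (N * lam (z a)) r k := by
  rw [Matrix.mul_apply, Fintype.sum_prod_type, Finset.sum_eq_single a]
  · rw [Matrix.mul_apply]
    refine Finset.sum_congr rfl fun l _ => ?_
    rw [Matrix.kroneckerMap_apply, Matrix.one_apply_eq, one_mul]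
    rfl
  · intro b _ hb
    refine Finset.sum_eq_zero fun l _ => ?_
    rw [Matrix.kroneckerMap_apply, Matrix.one_apply_ne (Ne.symm hb), zero_mul, zero_mul]
  · intro h
    exact absurd (Finset.mem_univ _) h

theorem Zm_mul (N : Matrix (Fin 4) (Fin 4) R) (z : ι → Fin 4 → R) (a : ι) (r k : Fin 4) :
    (Zm z * N) (a, r) k = (lam (z a) * N) r k := rfl

theorem gA_Zm (z : ι → Fin 4 → R) : gA ι R * Zm z = Zm z * ri R := by
  ext ⟨a, r⟩ k
  rw [gA, kron_Zm, Zm_mul, lam_ri]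

theorem gB_Zm (z : ι → Fin 4 → R) : gB ι R * Zm z = Zm z * rj R := by
  ext ⟨a, r⟩ k
  rw [gB, kron_Zm, Zm_mul, lam_rj]

include o in
theorem Zm_gA (z : ι → Fin 4 → R) : (Zm z)ᵀ * gA ι R = ri R * (Zm z)ᵀ := by
  have h := congrArg Matrix.transpose (gA_Zm z)
  rw [Matrix.transpose_mul, Matrix.transpose_mul, (qd_g o (R := R)).at', ri_tr, Matrix.mul_neg, Matrix.neg_mul,
    neg_inj] at h
  exact h

include o in
theorem Zm_gB (z : ι → Fin 4 → R) : (Zm z)ᵀ * gB ι R = rj R * (Zm z)ᵀ := by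
  have h := congrArg Matrix.transpose (gB_Zm z)
  rw [Matrix.transpose_mul, Matrix.transpose_mul, (qd_g o (R := R)).bt, rj_tr, Matrix.mul_neg, Matrix.neg_mul,
    neg_inj] at h
  exact h

theorem gG_Zm (z : ι → Fin 4 → R) (p : ι × Fin 4) (k : Fin 4) : (gG o R * Zm z) p k = ep o R p.1 * Zm z p k := by
  obtain ⟨a, r⟩ := p
  rw [gG, Matrix.mul_apply, Finset.sum_eq_single (a, r)]
  · rw [Matrix.kroneckerMap_apply, Matrix.diagonal_apply_eq, Matrix.one_apply_eq, mul_one]
  · rintro ⟨b, s⟩ _ hb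
    rw [Matrix.kroneckerMap_apply]
    by_cases h : a = b
    · subst h
      have hs : r ≠ s := by
        rintro rfl
        exact hb rfl
      rw [Matrix.one_apply_ne hs, mul_zero, zero_mul]
    · rw [Matrix.diagonal_apply_ne _ h, zero_mul, zero_mul]
  · intro h
    exact absurd (Finset.mem_univ _) h

/-- the hermitian form -/
theorem Zm_form (z : ι → Fin 4 → R) : (Zm z)ᵀ * (gG o R * Zm z) = hc o z • (1 : Matrix (Fin 4) (Fin 4) R) := by
  ext k l
  have e1 : ∀ a, (∑ r, lam (z a) r k * (ep o R a * lam (z a) r l)) =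
      ep o R a * ((z a 0 ^ 2 + z a 1 ^ 2 + z a 2 ^ 2 + z a 3 ^ 2) * (1 : Matrix (Fin 4) (Fin 4) R) k l) := by
    intro a
    have h := congrFun (congrFun (lam_tr_mul (z a)) k) l
    rw [Matrix.mul_apply, Matrix.smul_apply, smul_eq_mul] at h
    rw [← h, Finset.mul_sum]
    refine Finset.sum_congr rfl fun r _ => ?_
    rw [Matrix.transpose_apply]
    ring
  rw [Matrix.mul_apply, Fintype.sum_prod_type, Matrix.smul_apply, smul_eq_mul, hc, Finset.sum_mul]
  refine Finset.sum_congr rfl fun a _ => ?_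
  rw [mul_assoc, ← e1]
  refine Finset.sum_congr rfl fun r _ => ?_
  rw [gG_Zm]
  rfl

/-- `z i z^* G` -/
def Nz (z : ι → Fin 4 → R) : Matrix (ι × Fin 4) (ι × Fin 4) R := Zm z * qi R * (Zm z)ᵀ * gG o R

theorem qi_ri : qi R * ri R = ri R * qi R := by
  rw [qi_lam, lam_ri]

theorem qi_rj : qi R * rj R = rj R * qi R := by
  rw [qi_lam, lam_rj]

theorem Nz_mem (z : ι → Fin 4 → R) : InG (gG o R) (gA ι R) (gB ι R) (Nz o z) := by
  have H := qd_g o (R := R)
  refine ⟨?_, ?_, ?_⟩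
  · calc Nz o z * gA ι R = Zm z * qi R * ((Zm z)ᵀ * (gG o R * gA ι R)) := by
          rw [Nz]
          simp only [Matrix.mul_assoc]
      _ = Zm z * qi R * (((Zm z)ᵀ * gA ι R) * gG o R) := by rw [H.ga, Matrix.mul_assoc (Zm z)ᵀ]
      _ = Zm z * (qi R * ri R) * (Zm z)ᵀ * gG o R := by rw [Zm_gA o]; simp only [Matrix.mul_assoc]
      _ = gA ι R * Nz o z := by
          rw [qi_ri, ← Matrix.mul_assoc (Zm z), ← gA_Zm, Nz]
          simp only [Matrix.mul_assoc]
  · calc Nz o z * gB ι R = Zm z * qi R * ((Zm z)ᵀ * (gG o R * gB ι R)) := by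
          rw [Nz]
          simp only [Matrix.mul_assoc]
      _ = Zm z * qi R * (((Zm z)ᵀ * gB ι R) * gG o R) := by rw [H.gb, Matrix.mul_assoc (Zm z)ᵀ]
      _ = Zm z * (qi R * rj R) * (Zm z)ᵀ * gG o R := by rw [Zm_gB o]; simp only [Matrix.mul_assoc]
      _ = gB ι R * Nz o z := by
          rw [qi_rj, ← Matrix.mul_assoc (Zm z), ← gB_Zm, Nz]
          simp only [Matrix.mul_assoc]
  · have h1 : (Nz o z)ᵀ = gG o R * (Zm z * (-qi R * (Zm z)ᵀ)) := by
      rw [Nz, Matrix.transpose_mul, Matrix.transpose_mul, Matrix.transpose_mul, Matrix.transpose_transpose, H.gt,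
        qi_tr]
    rw [h1, H.gg', Nz]
    simp only [Matrix.mul_assoc, Matrix.neg_mul, Matrix.mul_neg]

end ring

section field
variable {K : Type*} [Field K] [CharZero K]

/-- the complex structure on the line of `z` -/
def Jz (z : ι → Fin 4 → K) : Matrix (ι × Fin 4) (ι × Fin 4) K := (hc o z)⁻¹ • Nz o z

variable {z : ι → Fin 4 → K} (hz : hc o z ≠ 0)
include hz

theorem Jz_sq : Jz o z * Jz o z = -((hc o z)⁻¹ • (Zm z * (Zm z)ᵀ * gG o K)) := by
  have h1 : Nz o z * Nz o z = hc o z • -(Zm z * (Zm z)ᵀ * gG o K) := by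
    calc Nz o z * Nz o z = Zm z * qi K * ((Zm z)ᵀ * (gG o K * Zm z)) * qi K * (Zm z)ᵀ * gG o K := by
          rw [Nz]
          simp only [Matrix.mul_assoc]
      _ = hc o z • (Zm z * (qi K * qi K) * (Zm z)ᵀ * gG o K) := by
          rw [Zm_form, Matrix.mul_smul, Matrix.mul_one]
          simp only [Matrix.smul_mul, Matrix.mul_assoc]
      _ = _ := by
          rw [qi_sq, Matrix.mul_neg, Matrix.mul_one, Matrix.neg_mul, Matrix.neg_mul]
  rw [Jz, smul_mul_smul_comm, h1, smul_smul, mul_assoc, inv_mul_cancel₀ hz, mul_one, smul_neg]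

theorem Jz_cub : Jz o z * Jz o z * Jz o z = -Jz o z := by
  rw [Jz_sq o hz, Jz, Matrix.neg_mul, smul_mul_smul_comm]
  congr 1
  have h1 : Zm z * (Zm z)ᵀ * gG o K * Nz o z = hc o z • Nz o z := by
    calc Zm z * (Zm z)ᵀ * gG o K * Nz o z = Zm z * ((Zm z)ᵀ * (gG o K * Zm z)) * qi K * (Zm z)ᵀ * gG o K := by
          rw [Nz]
          simp only [Matrix.mul_assoc]
      _ = hc o z • Nz o z := by
          rw [Zm_form, Matrix.mul_smul, Matrix.mul_one, Nz]
          simp only [Matrix.smul_mul]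
  rw [h1, smul_smul, mul_assoc, inv_mul_cancel₀ hz, mul_one]

theorem Jz_one {X : Matrix (ι × Fin 4) (ι × Fin 4) K} (hX : InV (gG o K) (gA ι K) (gB ι K) X) :
    ∃ q : K, Jz o z * X * Jz o z = q • (Jz o z * Jz o z) := by
  have H := qd_g o (R := K)
  obtain ⟨M, hM⟩ : ∃ M, M = (Zm z)ᵀ * (gG o K * X * Zm z) := ⟨_, rfl⟩
  have m1 : M * ri K = ri K * M := by
    rw [hM]
    calc (Zm z)ᵀ * (gG o K * X * Zm z) * ri K = (Zm z)ᵀ * (gG o K * (X * gA ι K) * Zm z) := by
          rw [Matrix.mul_assoc, Matrix.mul_assoc (gG o K * X), ← gA_Zm]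
          simp only [Matrix.mul_assoc]
      _ = (Zm z)ᵀ * gA ι K * (gG o K * X * Zm z) := by
          rw [hX.xa, ← Matrix.mul_assoc (gG o K), H.ga]
          simp only [Matrix.mul_assoc]
      _ = _ := by rw [Zm_gA o, Matrix.mul_assoc]
  have m2 : M * rj K = rj K * M := by
    rw [hM]
    calc (Zm z)ᵀ * (gG o K * X * Zm z) * rj K = (Zm z)ᵀ * (gG o K * (X * gB ι K) * Zm z) := by
          rw [Matrix.mul_assoc, Matrix.mul_assoc (gG o K * X), ← gB_Zm]
          simp only [Matrix.mul_assoc]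
      _ = (Zm z)ᵀ * gB ι K * (gG o K * X * Zm z) := by
          rw [hX.xb, ← Matrix.mul_assoc (gG o K), H.gb]
          simp only [Matrix.mul_assoc]
      _ = _ := by rw [Zm_gB o, Matrix.mul_assoc]
  have m3 : Mᵀ = M := by
    have e1 : Xᵀ * gG o K = gG o K * X := by
      calc Xᵀ * gG o K = gG o K * (gG o K * Xᵀ * gG o K) := by
            rw [Matrix.mul_assoc, H.gg']
        _ = _ := by rw [hX.sy]
    rw [hM, Matrix.transpose_mul, Matrix.transpose_transpose, Matrix.transpose_mul, Matrix.transpose_mul, H.gt, e1,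
      Matrix.mul_assoc]
  have m4 := sym4 m1 m2 m3
  have h1 : Nz o z * X * Nz o z = M 0 0 • -(Zm z * (Zm z)ᵀ * gG o K) := by
    calc Nz o z * X * Nz o z = Zm z * qi K * M * qi K * (Zm z)ᵀ * gG o K := by
          rw [Nz, hM]
          simp only [Matrix.mul_assoc]
      _ = M 0 0 • (Zm z * (qi K * qi K) * (Zm z)ᵀ * gG o K) := by
          rw [m4, Matrix.mul_smul, Matrix.mul_one]
          simp only [Matrix.smul_mul, Matrix.mul_assoc, Matrix.smul_apply, Matrix.one_apply_eq, smul_eq_mul, mul_one]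
      _ = _ := by
          rw [qi_sq, Matrix.mul_neg, Matrix.mul_one, Matrix.neg_mul, Matrix.neg_mul]
  refine ⟨(hc o z)⁻¹ * M 0 0, ?_⟩
  rw [Jz_sq o hz, Jz, Matrix.smul_mul, smul_mul_smul_comm, h1, smul_smul, ← smul_neg, smul_smul]
  congr 1
  ring

theorem Jz_trace : (Jz o z * Jz o z).trace = -4 := by
  rw [Jz_sq o hz, Matrix.trace_neg, Matrix.trace_smul, Matrix.mul_assoc, Matrix.trace_mul_comm, Matrix.mul_assoc,
    Zm_form, Matrix.trace_smul, Matrix.trace_one, smul_smul, inv_mul_cancel₀ hz, one_smul, Fintype.card_fin]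
  norm_num

omit hz in
theorem Jz_mem : InG (gG o K) (gA ι K) (gB ι K) (Jz o z) := by
  have h := Nz_mem o z
  refine ⟨?_, ?_, ?_⟩
  · rw [Jz, Matrix.smul_mul, Matrix.mul_smul, h.xa]
  · rw [Jz, Matrix.smul_mul, Matrix.mul_smul, h.xb]
  · rw [Jz, Matrix.transpose_smul, Matrix.mul_smul, Matrix.smul_mul, h.sk, smul_neg]

end field

end QU55
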