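import Pool.Agent.Helper55.QU.Gen
import Pool.Agent.Helper24.PGN.GQ

/-!
AllGeometricGenera (MP_b8862a_ag), construction QUAT: Hodge numbers `s, (s² - s) / 2, s` with `s` even, the quaternionic
hermitian matrices of trace zero.
-/

set_option linter.unusedSectionVars false
set_option linter.unusedSimpArgs false

open Matrix MH
open scoped Kronecker

namespace QU55

open SH94 (cC cC_mul cC_one cC_conj cC_inj)

section
variable {ι : Type*} [Fintype ι] [DecidableEq ι] {o : ι}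

/-- the operator in big coordinates -/
noncomputable def KK (o : ι) (z : ι → Fin 4 → ℝ) :
    Matrix ((ι × Fin 4) × (ι × Fin 4)) ((ι × Fin 4) × (ι × Fin 4)) ℂ := mx (adL (-Complex.I) (Jz o (zc z)))

theorem cont_KK : ContinuousOn (fun z : ι → Fin 4 → ℝ => KK o z) (Tz o) := by
  have hJ : ContinuousOn (fun z : ι → Fin 4 → ℝ => Jz o (zc z)) (Tz o) := (cont_Jz o).mono Set.inter_subset_left
  refine continuousOn_pi.2 fun p => continuousOn_pi.2 fun q => ?_
  have h1 : ContinuousOn (fun z : ι → Fin 4 → ℝ =>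
      adL (-Complex.I) (Jz o (zc z)) (Matrix.single q.1 q.2 1)) (Tz o) :=
    ((contOn_mul hJ continuousOn_const).sub (contOn_mul continuousOn_const hJ)).const_smul (-Complex.I)
  exact (continuous_apply_apply p.1 p.2).comp_continuousOn h1

variable {m : Type*} [Fintype m] [DecidableEq m] {B : Matrix m ((ι × Fin 4) × (ι × Fin 4)) ℚ}
  {C : Matrix ((ι × Fin 4) × (ι × Fin 4)) m ℚ}

theorem opr_fam (h1 : B * C = 1) (h2 : C * B = mx (efL (gG o ℚ) (gA ι ℚ) (gB ι ℚ))) {z : ι → Fin 4 → ℝ}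
    (hz : z ∈ Tz o) : Opr (MH.PGN.T (ι × Fin 4) ℚ) B C (KK o z) := by
  have : Nonempty (ι × Fin 4) := ⟨(o, 0)⟩
  refine opr (qd_g o) ?_ h1 h2 ?_
  · rw [toC_gG, toC_gA, toC_gB]
    exact opJ o z hz.1
  · intro X hX hX0
    rw [toC_gG, toC_gA, toC_gB] at hX
    exact fam_pos o hz hX hX0

theorem e_vc (h2 : C * B = mx (efL (gG o ℚ) (gA ι ℚ) (gB ι ℚ))) (X : Matrix (ι × Fin 4) (ι × Fin 4) ℂ) :
    toC (C * B) *ᵥ vc X = vc (efL (gG o ℂ) (gA ι ℂ) (gB ι ℂ) X) := by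
  rw [h2, toC_mx_ef, mx_mulVec, toC_gG, toC_gA, toC_gB]

/-- the members of the family over an open set have only scalar endomorphisms in common -/
theorem fam_end (h1 : B * C = 1) (h2 : C * B = mx (efL (gG o ℚ) (gA ι ℚ) (gB ι ℚ))) {x y : ι} (hxy : x ≠ y)
    {U : Set (ι → Fin 4 → ℝ)} (hU : IsOpen U) (hne : U.Nonempty) (hUT : U ⊆ Tz o) (A : Matrix m m ℚ)
    (hA : ∀ z ∈ U, toC A * Opr.sm B C (KK o z) = Opr.sm B C (KK o z) * toC A) :
    ∃ c : ℚ, A = c • (1 : Matrix m m ℚ) := by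
  have : Nonempty (ι × Fin 4) := ⟨(o, 0)⟩
  have H := qd_g o (R := ℂ)
  obtain ⟨A', hA'⟩ : ∃ A' : Matrix ((ι × Fin 4) × (ι × Fin 4)) ((ι × Fin 4) × (ι × Fin 4)) ℂ, A' = toC (C * A * B) :=
    ⟨_, rfl⟩
  let φ : Matrix (ι × Fin 4) (ι × Fin 4) ℂ →ₗ[ℂ] Matrix (ι × Fin 4) (ι × Fin 4) ℂ :=
    { toFun := fun X => mt (A' *ᵥ vc X)
      map_add' := fun X Y => by
        rw [vc_add, Matrix.mulVec_add]
        rfl
      map_smul' := fun c X => by
        rw [vc_smul, Matrix.mulVec_smul]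
        rfl }
  have hφ : ∀ X, vc (φ X) = A' *ᵥ vc X := fun X => rfl
  have hbc : cC B * cC C = 1 := by rw [← cC_mul, h1, cC_one]
  have hA3 : A' = cC C * toC A * cC B := by
    rw [hA']
    show cC (C * A * B) = _
    rw [cC_mul, cC_mul]
    rfl
  have hcm : Cm o φ := by
    refine comm_gen hU hne ?_ ?_
    · intro z hz X
      have hO := opr_fam h1 h2 (hUT hz)
      have e1 := hO.comm (hA z hz)
      rw [← hA'] at e1
      have e2 := congrArg (fun M => M *ᵥ vc X) e1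
      simp only [← Matrix.mulVec_mulVec] at e2
      have e3 : KK o z *ᵥ vc X = vc ((-Complex.I) • (Jz o (zc z) * X - X * Jz o (zc z))) := mx_mulVec _ _
      have e4 : KK o z *ᵥ vc (φ X) = vc ((-Complex.I) • (Jz o (zc z) * φ X - φ X * Jz o (zc z))) := mx_mulVec _ _
      rw [e3, ← hφ, ← hφ, e4] at e2
      have e5 := vc_inj e2
      have hJN : ∀ Y : Matrix (ι × Fin 4) (ι × Fin 4) ℂ, (-Complex.I) • (Jz o (zc z) * Y - Y * Jz o (zc z)) =
          (-Complex.I * (hc o (zc z))⁻¹) • (Nz o (zc z) * Y - Y * Nz o (zc z)) := by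
        intro Y
        rw [Jz, smul_mul_assoc, mul_smul_comm, ← smul_sub, smul_smul]
      rw [hJN, hJN, map_smul] at e5
      have hz' : hc o (zc z) ≠ 0 := by
        rw [hc_zc]
        exact_mod_cast (hUT hz).1
      exact smul_right_injective _ (mul_ne_zero (neg_ne_zero.2 Complex.I_ne_zero) (inv_ne_zero hz')) e5
    · intro X _
      have e1 : efL (gG o ℂ) (gA ι ℂ) (gB ι ℂ) (φ X) = φ X := by
        apply vc_inj
        rw [← e_vc h2, hφ, Matrix.mulVec_mulVec, show toC (C * B) = cC C * cC B from cC_mul C B, hA3]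
        congr 1
        calc cC C * cC B * (cC C * toC A * cC B) = cC C * (cC B * cC C) * toC A * cC B := by
              simp only [Matrix.mul_assoc]
          _ = _ := by rw [hbc, Matrix.mul_one]
      rw [← e1]
      exact ef_mem H _
  obtain ⟨c, hc⟩ := hcm.main hxy
  have h3 : toC A = c • (1 : Matrix m m ℂ) := by
    apply mulVec_ext
    intro v
    obtain ⟨X, hX⟩ : ∃ X, vc X = cC C *ᵥ v := ⟨mt (cC C *ᵥ v), vc_mt _⟩
    have hXe : efL (gG o ℂ) (gA ι ℂ) (gB ι ℂ) X = X := by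
      apply vc_inj
      rw [← e_vc h2, hX, Matrix.mulVec_mulVec, show toC (C * B) = cC C * cC B from cC_mul C B, Matrix.mul_assoc, hbc,
        Matrix.mul_one]
    have hXV : InV (gG o ℂ) (gA ι ℂ) (gB ι ℂ) X := by
      rw [← hXe]
      exact ef_mem H _
    have e1 := congrArg vc (hc X hXV)
    rw [hφ, hX, vc_smul, hX, hA3] at e1
    have e2 := congrArg (fun u => cC B *ᵥ u) e1
    simp only [Matrix.mulVec_mulVec, Matrix.mulVec_smul, hbc] at e2
    have e3 : cC B * (cC C * toC A * cC B * cC C) = toC A := by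
      calc cC B * (cC C * toC A * cC B * cC C) = (cC B * cC C) * toC A * (cC B * cC C) := by
            simp only [Matrix.mul_assoc]
        _ = _ := by rw [hbc, Matrix.one_mul, Matrix.mul_one]
    rw [e3] at e2
    rw [e2, Matrix.smul_mulVec]
  by_cases hm : Nonempty m
  · obtain ⟨i0⟩ := hm
    refine ⟨A i0 i0, ?_⟩
    have h4 : c = ((A i0 i0 : ℚ) : ℂ) := by
      have := congrFun (congrFun h3 i0) i0
      rw [Matrix.smul_apply, Matrix.one_apply_eq, smul_eq_mul, mul_one] at this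
      exact this.symm
    ext i j
    have h5 := congrFun (congrFun h3 i) j
    rw [h4, Matrix.smul_apply, smul_eq_mul] at h5
    have h6 : ((A i j : ℚ) : ℂ) = ((A i0 i0 * (1 : Matrix m m ℚ) i j : ℚ) : ℂ) := by
      push_cast
      rw [show (((1 : Matrix m m ℚ) i j : ℚ) : ℂ) = (1 : Matrix m m ℂ) i j by
        rw [Matrix.one_apply, Matrix.one_apply]; split_ifs <;> simp]
      exact h5
    rw [Matrix.smul_apply, smul_eq_mul]
    exact_mod_cast h6
  · refine ⟨0, ?_⟩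
    ext i
    exact absurd ⟨i⟩ hm

/-- the Mumford-Tate group of a member of the family is not the full group -/
theorem fam_not (h1 : B * C = 1) (h2 : C * B = mx (efL (gG o ℚ) (gA ι ℚ) (gB ι ℚ))) {z : ι → Fin 4 → ℝ}
    (hz : z ∈ Tz o) {a b d : ι} (hab : a ≠ b) (had : a ≠ d) (hbd : b ≠ d) :
    ∃ g : GL m ℂ, (g : Matrix m m ℂ)ᵀ * toC (Cᵀ * MH.PGN.T (ι × Fin 4) ℚ * C) * (g : Matrix m m ℂ) =
      toC (Cᵀ * MH.PGN.T (ι × Fin 4) ℚ * C) ∧ (g : Matrix m m ℂ).det = 1 ∧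
        g ∉ MT {2, 1, 0} (PH24 (Opr.sm B C (KK o z))) := by
  have : Nonempty (ι × Fin 4) := ⟨(o, 0)⟩
  have H := qd_g o (R := ℂ)
  have hO := opr_fam h1 h2 hz
  have hmem : ∀ X, InV (gG o ℂ) (gA ι ℂ) (gB ι ℂ) X → toC (C * B) *ᵥ vc X = vc X := by
    intro X hX
    rw [e_vc h2, ef_of H hX]
  have hda : d ≠ a := Ne.symm had
  have hba : b ≠ a := Ne.symm hab
  have hdb : d ≠ b := Ne.symm hbd
  have hee : ep o ℂ a * ep o ℂ b ≠ 0 := by
    intro h0
    have : ep o ℂ a * ep o ℂ b * (ep o ℂ a * ep o ℂ b) = 1 := by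
      calc ep o ℂ a * ep o ℂ b * (ep o ℂ a * ep o ℂ b) = (ep o ℂ a * ep o ℂ a) * (ep o ℂ b * ep o ℂ b) := by ring
        _ = 1 := by rw [ep_sq, ep_sq, one_mul]
    rw [h0, zero_mul] at this
    exact zero_ne_one this
  have tq : (qi ℂ).trace = 0 := by
    rw [Matrix.trace, Fin.sum_univ_four]
    simp [qi]
  have hD : InV (gG o ℂ) (gA ι ℂ) (gB ι ℂ) (bl a a 1 - bl b b (1 : Matrix (Fin 4) (Fin 4) ℂ)) := by
    refine ⟨?_, ?_, ?_, ?_⟩
    · rw [sub_mul, mul_sub, bl_gA, gA_bl, bl_gA, gA_bl, one_mul, mul_one]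
    · rw [sub_mul, mul_sub, bl_gB, gB_bl, bl_gB, gB_bl, one_mul, mul_one]
    · rw [Matrix.transpose_sub, bl_tr, bl_tr, mul_sub, sub_mul, gG_bl, gG_bl, smul_mul_assoc, smul_mul_assoc, bl_gG,
        bl_gG, smul_smul, smul_smul, ep_sq, ep_sq, one_smul, one_smul, Matrix.transpose_one]
    · rw [Matrix.trace_sub, bl_trace, bl_trace, if_pos rfl, if_pos rfl, sub_self]
  refine not_full hO (J := Jz o (zc z)) (c := -Complex.I) (fun X => mx_mulVec _ _)
    (hmem _ (Xb_mem o hab inC_one)) (hmem _ (Xb_mem o hab inC_qi)) (hmem _ (Xb_mem o hbd inC_one))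
    (hmem _ (Xb_mem o hda inC_one)) (hmem _ hD) ?_ ?_ ?_ ?_ ?_ ?_ ?_ ?_ ?_ ?_
  · rw [Xb]
    simp only [add_mul, mul_add, smul_mul_assoc, mul_smul_comm, bl_mul, bl_mul_ne hab, bl_mul_ne hba, Matrix.trace_add,
      Matrix.trace_smul, bl_trace, if_pos, Matrix.trace_zero, smul_zero, add_zero, zero_add, Matrix.transpose_one,
      mul_one, Matrix.trace_one, Fintype.card_fin, smul_eq_mul]
    rw [← mul_add]
    refine mul_ne_zero hee ?_
    norm_num
  · rw [Xb]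
    simp only [add_mul, mul_add, smul_mul_assoc, mul_smul_comm, bl_mul, bl_mul_ne hab, bl_mul_ne hba, Matrix.trace_add,
      Matrix.trace_smul, bl_trace, if_pos, Matrix.trace_zero, smul_zero, add_zero, zero_add, qi_tr, mul_neg, neg_mul,
      qi_sq, neg_neg, Matrix.trace_one, Fintype.card_fin, smul_eq_mul]
    rw [← mul_add]
    refine mul_ne_zero hee ?_
    norm_num
  · rw [Xb, Xb]
    simp only [add_mul, mul_add, smul_mul_assoc, mul_smul_comm, bl_mul, bl_mul_ne hab, bl_mul_ne hba, Matrix.trace_add,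
      Matrix.trace_smul, bl_trace, if_pos, Matrix.trace_zero, smul_zero, add_zero, zero_add, Matrix.transpose_one,
      mul_one, qi_tr, Matrix.trace_neg, tq, neg_zero]
  · rw [Xb, Xb]
    simp [add_mul, mul_add, bl_mul, bl_mul_ne hab, bl_mul_ne hba, bl_mul_ne had, bl_mul_ne hda, bl_mul_ne hbd,
      bl_mul_ne hdb, bl_trace, had, hda, hab, hba, hbd, hdb]
  · rw [Xb, Xb]
    simp [add_mul, mul_add, bl_mul, bl_mul_ne hab, bl_mul_ne hba, bl_mul_ne had, bl_mul_ne hda, bl_mul_ne hbd,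
      bl_mul_ne hdb, bl_trace, had, hda, hab, hba, hbd, hdb]
  · rw [Xb, Xb]
    simp [add_mul, mul_add, bl_mul, bl_mul_ne hab, bl_mul_ne hba, bl_mul_ne had, bl_mul_ne hda, bl_mul_ne hbd,
      bl_mul_ne hdb, bl_trace, had, hda, hab, hba, hbd, hdb]
  · rw [Xb, Xb]
    simp [add_mul, mul_add, bl_mul, bl_mul_ne hab, bl_mul_ne hba, bl_mul_ne had, bl_mul_ne hda, bl_mul_ne hbd,
      bl_mul_ne hdb, bl_trace, had, hda, hab, hba, hbd, hdb]
  · rw [Xb]
    simp [add_mul, mul_sub, bl_mul, bl_mul_ne hab, bl_mul_ne hba, bl_trace, hab, hba]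
  · rw [Xb]
    simp [add_mul, mul_sub, bl_mul, bl_mul_ne hab, bl_mul_ne hba, bl_trace, hab, hba]
  · rw [quart]
    have e1 : Xb o a b (1 : Matrix (Fin 4) (Fin 4) ℂ) * Xb o b d 1 = bl a d 1 := by
      rw [Xb, Xb]
      simp [add_mul, mul_add, bl_mul, bl_mul_ne hab, bl_mul_ne hba, bl_mul_ne had, bl_mul_ne hda, bl_mul_ne hbd,
        bl_mul_ne hdb]
    have e2 : bl a d (1 : Matrix (Fin 4) (Fin 4) ℂ) * Xb o d a 1 = bl a a 1 := by
      rw [Xb]
      simp [mul_add, bl_mul, bl_mul_ne had, bl_mul_ne hda]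
    have e3 : bl a a (1 : Matrix (Fin 4) (Fin 4) ℂ) * (bl a a 1 - bl b b 1) = bl a a 1 := by
      rw [mul_sub, bl_mul, bl_mul_ne hab, sub_zero, one_mul]
    rw [e1, e2, e3, bl_trace, if_pos rfl, Matrix.trace_one, Fintype.card_fin]
    norm_num

end

end QU55

namespace MH

/-- **Construction QUAT**: Hodge numbers `s, (s² - s) / 2, s` for `s = 2 m - 2`, `m ≥ 3`. -/
theorem sharp_quaternion (m : ℕ) (hm : 3 ≤ m) :
    ∃ (n : Type) (_ : Fintype n) (_ : DecidableEq n) (Q : Matrix n n ℚ) (P : ℤ → Matrix n n ℂ), IsHW 2 Q {0, 1, 2} P ∧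
      (∀ A : Matrix n n ℚ, (∀ p, toC A * P p = P p * toC A) → ∃ c : ℚ, A = c • (1 : Matrix n n ℚ)) ∧
      (P 2).rank + 2 = 2 * m ∧ 2 * (P 1).rank + (P 2).rank = (P 2).rank ^ 2 ∧
        ∃ g : GL n ℂ, IsGQ 2 Q g ∧ g ∉ MT {0, 1, 2} P := by
  obtain ⟨k, rfl⟩ : ∃ k, m = k + 3 := ⟨m - 3, by omega⟩
  let o : Fin (k + 3) := 0
  have : Nonempty (Fin (k + 3) × Fin 4) := ⟨(o, 0)⟩
  have HQ := QU55.qd_g o (R := ℚ)
  have HC := QU55.qd_g o (R := ℂ)
  have hid : QU55.mx (QU55.efL (QU55.gG o ℚ) (QU55.gA (Fin (k + 3)) ℚ) (QU55.gB (Fin (k + 3)) ℚ)) *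
      QU55.mx (QU55.efL (QU55.gG o ℚ) (QU55.gA (Fin (k + 3)) ℚ) (QU55.gB (Fin (k + 3)) ℚ)) =
      QU55.mx (QU55.efL (QU55.gG o ℚ) (QU55.gA (Fin (k + 3)) ℚ) (QU55.gB (Fin (k + 3)) ℚ)) := by
    rw [QU55.mx_mul, QU55.ef_idem HQ]
  obtain ⟨B, C, h1, h2⟩ := SH94.exists_fact hid
  have hset : ({2, 1, 0} : Finset ℤ) = {0, 1, 2} := by decide
  -- the dimension
  have hcard : Fintype.card (Fin (QU55.mx (QU55.efL (QU55.gG o ℚ) (QU55.gA (Fin (k + 3)) ℚ)
      (QU55.gB (Fin (k + 3)) ℚ))).rank) = 2 * (2 * k + 4) + (k + 2) * (2 * k + 3) := by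
    have e1 : (B * C).trace = (C * B).trace := Matrix.trace_mul_comm _ _
    rw [h1, h2, Matrix.trace_one, QU55.tr_e HQ, Fintype.card_prod, Fintype.card_fin (k + 3), Fintype.card_fin 4] at e1
    have e2 : ((Fintype.card (Fin (QU55.mx (QU55.efL (QU55.gG o ℚ) (QU55.gA (Fin (k + 3)) ℚ)
      (QU55.gB (Fin (k + 3)) ℚ))).rank) : ℕ) : ℚ) = ((2 * (2 * k + 4) + (k + 2) * (2 * k + 3) : ℕ) : ℚ) := by
      rw [e1]
      push_cast
      ring
    exact_mod_cast e2
  -- the family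
  have : BaireSpace (QU55.Tz o) := (QU55.isOpen_Tz o).baireSpace
  have : Nonempty (QU55.Tz o) := ⟨⟨_, QU55.base_mem o⟩⟩
  have hO : ∀ t : QU55.Tz o, QU55.Opr (MH.PGN.T (Fin (k + 3) × Fin 4) ℚ) B C (QU55.KK o t.1) :=
    fun t => QU55.opr_fam h1 h2 t.2
  have hx : (0 : Fin (k + 3)) ≠ 1 := by
    intro h
    have := congrArg Fin.val h
    simp at this
  have hy : (0 : Fin (k + 3)) ≠ 2 := by
    intro h
    have := congrArg Fin.val h
    rw [Fin.val_zero, Fin.val_two] at this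
    omega
  have hz : (1 : Fin (k + 3)) ≠ 2 := by
    intro h
    have := congrArg Fin.val h
    rw [Fin.val_one, Fin.val_two] at this
    omega
  have hcH : Continuous fun t : QU55.Tz o => QU55.Opr.sm B C (QU55.KK o t.1) := by
    have h3 : Continuous fun t : QU55.Tz o => QU55.KK o t.1 :=
      continuousOn_iff_continuous_domRestrict.1 QU55.cont_KK
    exact (continuous_const.matrix_mul h3).matrix_mul continuous_const
  obtain ⟨t, ht⟩ := exists_generic27 (fun (t : QU55.Tz o) p => PH24 (QU55.Opr.sm B C (QU55.KK o t.1)) p) (by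
    intro p
    have h4 : Continuous fun t : QU55.Tz o => QU55.Opr.sm B C (QU55.KK o t.1) * QU55.Opr.sm B C (QU55.KK o t.1) :=
      hcH.matrix_mul hcH
    unfold PH24
    split_ifs
    · exact (h4.add hcH).const_smul (1 / 2 : ℂ)
    · exact (h4.sub hcH).const_smul (1 / 2 : ℂ)
    · exact continuous_const.sub h4
    · exact continuous_const) (by
    intro U hU hne A hA
    have hU' : IsOpen (Subtype.val '' U) := (QU55.isOpen_Tz o).isOpenMap_subtype_val U hU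
    refine QU55.fam_end h1 h2 hx hU' (hne.image _) ?_ A ?_
    · rintro _ ⟨z, _, rfl⟩
      exact z.2
    · rintro _ ⟨z, hz, rfl⟩
      exact PH24_comm fun p => hA z hz p)
  obtain ⟨g, g1, g2, g3⟩ := QU55.fam_not h1 h2 t.2 hx hy hz
  have hJz : QU55.hc o (QU55.zc t.1) ≠ 0 := by
    rw [QU55.hc_zc]
    exact_mod_cast t.2.1
  have hmxe : toC (C * B) = QU55.mx (QU55.efL (QU55.gG o ℂ) (QU55.gA (Fin (k + 3)) ℂ) (QU55.gB (Fin (k + 3)) ℂ)) := by
    rw [h2, QU55.toC_mx_ef, QU55.toC_gG, QU55.toC_gA, QU55.toC_gB]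
  have htr : (QU55.Opr.sm B C (QU55.KK o t.1)).trace = 0 := by
    rw [(hO t).trace', hmxe, QU55.KK, QU55.mx_mul, QU55.tr_ad HC (QU55.Jz_mem o)]
  have htr2 : (QU55.Opr.sm B C (QU55.KK o t.1) * QU55.Opr.sm B C (QU55.KK o t.1)).trace = 2 * (2 * k + 4 : ℕ) := by
    rw [(hO t).trace2, hmxe, QU55.KK, Matrix.mul_assoc, QU55.mx_mul, QU55.mx_mul, QU55.tr_ad2 HC (QU55.Jz_mem o),
      QU55.Jz_trace o hJz, neg_mul_neg, Complex.I_mul_I, Fintype.card_prod, Fintype.card_fin, Fintype.card_fin]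
    push_cast
    ring
  obtain ⟨r2, r1⟩ := PH24_ranks (hO t).cube htr htr2 hcard
  refine ⟨_, inferInstance, inferInstance, Cᵀ * MH.PGN.T (Fin (k + 3) × Fin 4) ℚ * C,
    PH24 (QU55.Opr.sm B C (QU55.KK o t.1)), ?_, ht, ?_, ?_, g, isGQ_of24 g1 g2, ?_⟩
  · rw [← hset]
    exact (hO t).isHW
  · rw [r2]
    ring
  · rw [r2, r1]
    ring
  · rw [← hset]
    exact g3

end MH
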