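import Pool.Agent.Helper55.QU.Dic

/-!
AllGeometricGenera (MP_b8862a_ag), construction QUAT: the quartic form `tr (X A Y D)`.
-/

set_option linter.unusedSectionVars false

open Matrix
open scoped Kronecker

namespace QU55

variable {W m : Type*} [Fintype W] [DecidableEq W] [Fintype m] [DecidableEq m] {R : Type*} [CommRing R]

/-- the quartic form -/
def quart (X A Y D : Matrix W W R) : R := (X * A * Y * D).trace

theorem quart_sum1 (c : m → R) (X : m → Matrix W W R) (A Y D : Matrix W W R) :
    quart (∑ i, c i • X i) A Y D = ∑ i, c i * quart (X i) A Y D := by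
  simp only [quart, Finset.sum_mul, Matrix.smul_mul, Matrix.trace_sum, Matrix.trace_smul, smul_eq_mul]

theorem quart_sum2 (c : m → R) (X : m → Matrix W W R) (A Y D : Matrix W W R) :
    quart A (∑ i, c i • X i) Y D = ∑ i, c i * quart A (X i) Y D := by
  simp only [quart, Finset.sum_mul, Finset.mul_sum, Matrix.smul_mul, Matrix.mul_smul, Matrix.trace_sum,
    Matrix.trace_smul, smul_eq_mul]

theorem quart_sum3 (c : m → R) (X : m → Matrix W W R) (A Y D : Matrix W W R) :
    quart A Y (∑ i, c i • X i) D = ∑ i, c i * quart A Y (X i) D := by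
  simp only [quart, Finset.sum_mul, Finset.mul_sum, Matrix.smul_mul, Matrix.mul_smul, Matrix.trace_sum,
    Matrix.trace_smul, smul_eq_mul]

theorem quart_sum4 (c : m → R) (X : m → Matrix W W R) (A Y D : Matrix W W R) :
    quart A Y D (∑ i, c i • X i) = ∑ i, c i * quart A Y D (X i) := by
  simp only [quart, Finset.mul_sum, Matrix.mul_smul, Matrix.trace_sum, Matrix.trace_smul, smul_eq_mul]

/-- the columns as matrices -/
def vv (C : Matrix (W × W) m R) (i : m) : Matrix W W R := mt fun p => C p i

theorem mt_mulVec (C : Matrix (W × W) m R) (x : m → R) : mt (C *ᵥ x) = ∑ i, x i • vv C i := by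
  ext p q
  rw [Matrix.sum_apply]
  show (C *ᵥ x) (p, q) = _
  rw [Matrix.mulVec, dotProduct]
  refine Finset.sum_congr rfl fun i _ => ?_
  rw [Matrix.smul_apply, smul_eq_mul, mul_comm]
  rfl

/-- the matrix of the quartic form -/
def Th (C : Matrix (W × W) m R) : Matrix (m × m) (m × m) R :=
  fun p q => quart (vv C q.1) (vv C p.1) (vv C q.2) (vv C p.2)

theorem Th_form (C : Matrix (W × W) m R) (a d x y : m → R) :
    (fun p : m × m => a p.1 * d p.2) ⬝ᵥ (Th C *ᵥ fun p : m × m => x p.1 * y p.2) =
      quart (mt (C *ᵥ x)) (mt (C *ᵥ a)) (mt (C *ᵥ y)) (mt (C *ᵥ d)) := by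
  rw [mt_mulVec, mt_mulVec, mt_mulVec, mt_mulVec, quart_sum2]
  simp only [quart_sum4, quart_sum1, quart_sum3]
  rw [dotProduct, Fintype.sum_prod_type]
  refine Finset.sum_congr rfl fun i _ => ?_
  rw [Finset.mul_sum]
  refine Finset.sum_congr rfl fun j _ => ?_
  rw [Matrix.mulVec, dotProduct, Fintype.sum_prod_type, Finset.sum_comm, Finset.mul_sum, Finset.mul_sum,
    Finset.mul_sum]
  refine Finset.sum_congr rfl fun k _ => ?_
  rw [Finset.mul_sum, Finset.mul_sum, Finset.mul_sum, Finset.mul_sum]
  refine Finset.sum_congr rfl fun l _ => ?_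
  rw [Th]
  ring

theorem Th_map {R' : Type*} [CommRing R'] (f : R →+* R') (C : Matrix (W × W) m R) :
    (Th C).map f = Th (C.map f) := by
  ext p q
  rw [Matrix.map_apply, Th, Th, quart, quart]
  have e : ∀ i, (vv C i).map f = vv (C.map f) i := fun i => rfl
  rw [← e, ← e, ← e, ← e, ← Matrix.map_mul, ← Matrix.map_mul, ← Matrix.map_mul]
  simp only [Matrix.trace, Matrix.diag_apply, Matrix.map_apply, map_sum]

/-- the quartic form is invariant -/
theorem Th_inv {C : Matrix (W × W) m R} {H : Matrix m m R} {J : Matrix W W R} {c : R}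
    (h : ∀ i, c • (J * vv C i - vv C i * J) = ∑ i', H i' i • vv C i') :
    Th C * (H ⊗ₖ (1 : Matrix m m R) + (1 : Matrix m m R) ⊗ₖ H) =
      -((H ⊗ₖ (1 : Matrix m m R) + (1 : Matrix m m R) ⊗ₖ H)ᵀ * Th C) := by
  ext ⟨a, d⟩ ⟨x, y⟩
  have l1 : (Th C * (H ⊗ₖ (1 : Matrix m m R))) (a, d) (x, y) =
      quart (c • (J * vv C x - vv C x * J)) (vv C a) (vv C y) (vv C d) := by
    rw [h, quart_sum1, Matrix.mul_apply, Fintype.sum_prod_type]
    refine Finset.sum_congr rfl fun i _ => ?_
    rw [Finset.sum_eq_single y]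
    · rw [Matrix.kroneckerMap_apply, Matrix.one_apply_eq, mul_one, mul_comm]
      rfl
    · intro j _ hj
      rw [Matrix.kroneckerMap_apply, Matrix.one_apply_ne hj, mul_zero, mul_zero]
    · intro h
      exact absurd (Finset.mem_univ _) h
  have l2 : (Th C * ((1 : Matrix m m R) ⊗ₖ H)) (a, d) (x, y) =
      quart (vv C x) (vv C a) (c • (J * vv C y - vv C y * J)) (vv C d) := by
    rw [h, quart_sum3, Matrix.mul_apply, Fintype.sum_prod_type, Finset.sum_comm]
    refine Finset.sum_congr rfl fun i _ => ?_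
    rw [Finset.sum_eq_single x]
    · rw [Matrix.kroneckerMap_apply, Matrix.one_apply_eq, one_mul, mul_comm]
      rfl
    · intro j _ hj
      rw [Matrix.kroneckerMap_apply, Matrix.one_apply_ne hj, zero_mul, mul_zero]
    · intro h
      exact absurd (Finset.mem_univ _) h
  have l3 : ((H ⊗ₖ (1 : Matrix m m R))ᵀ * Th C) (a, d) (x, y) =
      quart (vv C x) (c • (J * vv C a - vv C a * J)) (vv C y) (vv C d) := by
    rw [h, quart_sum2, Matrix.mul_apply, Fintype.sum_prod_type]
    refine Finset.sum_congr rfl fun i _ => ?_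
    rw [Finset.sum_eq_single d]
    · rw [Matrix.transpose_apply, Matrix.kroneckerMap_apply, Matrix.one_apply_eq, mul_one]
      rfl
    · intro j _ hj
      rw [Matrix.transpose_apply, Matrix.kroneckerMap_apply, Matrix.one_apply_ne hj, mul_zero, zero_mul]
    · intro h
      exact absurd (Finset.mem_univ _) h
  have l4 : (((1 : Matrix m m R) ⊗ₖ H)ᵀ * Th C) (a, d) (x, y) =
      quart (vv C x) (vv C a) (vv C y) (c • (J * vv C d - vv C d * J)) := by
    rw [h, quart_sum4, Matrix.mul_apply, Fintype.sum_prod_type, Finset.sum_comm]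
    refine Finset.sum_congr rfl fun i _ => ?_
    rw [Finset.sum_eq_single a]
    · rw [Matrix.transpose_apply, Matrix.kroneckerMap_apply, Matrix.one_apply_eq, one_mul]
      rfl
    · intro j _ hj
      rw [Matrix.transpose_apply, Matrix.kroneckerMap_apply, Matrix.one_apply_ne hj, zero_mul, zero_mul]
    · intro h
      exact absurd (Finset.mem_univ _) h
  rw [Matrix.mul_add, Matrix.add_apply, l1, l2, Matrix.neg_apply, Matrix.transpose_add, Matrix.add_mul,
    Matrix.add_apply, l3, l4]
  simp only [quart, Matrix.smul_mul, Matrix.mul_smul, Matrix.trace_smul, Matrix.mul_sub, Matrix.sub_mul,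
    Matrix.trace_sub, smul_eq_mul]
  have e : (vv C x * vv C a * vv C y * (vv C d * J)).trace = (J * vv C x * vv C a * vv C y * vv C d).trace := by
    rw [← Matrix.mul_assoc, Matrix.trace_mul_comm]
    simp only [Matrix.mul_assoc]
  rw [e]
  simp only [Matrix.mul_assoc]
  ring

end QU55
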