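import Pool.Agent.Helper55.QU.Dic

/-!
AllGeometricGenera (MP_b8862a_ag), construction QUAT: the space of the quaternionic hermitian matrices of trace zero and
the projection to it.
-/

set_option linter.unusedSectionVars false

open Matrix

namespace QU55

variable {W : Type*} [Fintype W] [DecidableEq W]

section ring
variable {R : Type*} [CommRing R]

/-- the relations between the form and the right multiplications -/
structure Qd (G A B : Matrix W W R) : Prop where
  gg : G * G = 1
  gt : Gᵀ = G
  aa : A * A = -1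
  at' : Aᵀ = -A
  bb : B * B = -1
  bt : Bᵀ = -B
  ba : B * A = -(A * B)
  ga : G * A = A * G
  gb : G * B = B * G

/-- the space of the Hodge structure -/
structure InV (G A B X : Matrix W W R) : Prop where
  xa : X * A = A * X
  xb : X * B = B * X
  sy : G * Xᵀ * G = X
  tr : X.trace = 0

/-- the Lie algebra -/
structure InG (G A B J : Matrix W W R) : Prop where
  xa : J * A = A * J
  xb : J * B = B * J
  sk : G * Jᵀ * G = -J

variable {G A B : Matrix W W R} (H : Qd G A B)
include H

theorem Qd.aa' (X : Matrix W W R) : A * (A * X) = -X := by rw [← mul_assoc, H.aa, neg_one_mul]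
theorem Qd.bb' (X : Matrix W W R) : B * (B * X) = -X := by rw [← mul_assoc, H.bb, neg_one_mul]
theorem Qd.ba' (X : Matrix W W R) : B * (A * X) = -(A * (B * X)) := by rw [← mul_assoc, H.ba, neg_mul, mul_assoc]
theorem Qd.gg' (X : Matrix W W R) : G * (G * X) = X := by rw [← mul_assoc, H.gg, one_mul]
theorem Qd.ga' (X : Matrix W W R) : G * (A * X) = A * (G * X) := by rw [← mul_assoc, H.ga, mul_assoc]
theorem Qd.gb' (X : Matrix W W R) : G * (B * X) = B * (G * X) := by rw [← mul_assoc, H.gb, mul_assoc]

end ring

section field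
variable {K : Type*} [Field K] [CharZero K]

/-- the sum over the group of the right multiplications -/
def s1 (A B X : Matrix W W K) : Matrix W W K := X - A * X * A - B * X * B + A * B * X * (B * A)

/-- the projection to the space -/
noncomputable def efL (G A B : Matrix W W K) : Matrix W W K →ₗ[K] Matrix W W K where
  toFun X := (1 / 8 : K) • (s1 A B X + G * (s1 A B X)ᵀ * G) - (X.trace / Fintype.card W) • (1 : Matrix W W K)
  map_add' X Y := by
    have e : s1 A B (X + Y) = s1 A B X + s1 A B Y := by
      unfold s1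
      simp only [mul_add, add_mul]
      abel
    rw [e, Matrix.transpose_add, Matrix.trace_add, add_div, add_smul, mul_add, add_mul]
    module
  map_smul' c X := by
    have e : s1 A B (c • X) = c • s1 A B X := by
      unfold s1
      simp only [mul_smul_comm, smul_mul_assoc, smul_add, smul_sub]
    rw [e, Matrix.transpose_smul, Matrix.trace_smul, smul_eq_mul, mul_smul_comm, smul_mul_assoc, ← smul_add,
      RingHom.id_apply, smul_sub, smul_comm (1 / 8 : K) c, mul_div_assoc, smul_smul c (X.trace / _)]

theorem efL_apply (G A B X : Matrix W W K) : efL G A B X =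
    (1 / 8 : K) • (s1 A B X + G * (s1 A B X)ᵀ * G) - (X.trace / Fintype.card W) • (1 : Matrix W W K) := rfl

variable {G A B : Matrix W W K} (H : Qd G A B)
include H

theorem s1_a (X : Matrix W W K) : s1 A B X * A = A * s1 A B X := by
  unfold s1
  simp only [mul_add, add_mul, mul_sub, sub_mul, mul_assoc, H.aa, H.bb, H.ba, H.aa', H.bb', H.ba', neg_mul, mul_neg,
    neg_neg, mul_one]
  abel

theorem s1_b (X : Matrix W W K) : s1 A B X * B = B * s1 A B X := by
  unfold s1
  simp only [mul_add, add_mul, mul_sub, sub_mul, mul_assoc, H.aa, H.bb, H.ba, H.aa', H.bb', H.ba', neg_mul, mul_neg,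
    neg_neg, mul_one]
  abel

theorem s1_trace (X : Matrix W W K) : (s1 A B X).trace = 4 * X.trace := by
  unfold s1
  have e1 : (A * X * A).trace = -X.trace := by
    rw [Matrix.trace_mul_comm, ← mul_assoc, H.aa, neg_one_mul, Matrix.trace_neg]
  have e2 : (B * X * B).trace = -X.trace := by
    rw [Matrix.trace_mul_comm, ← mul_assoc, H.bb, neg_one_mul, Matrix.trace_neg]
  have e3 : (A * B * X * (B * A)).trace = X.trace := by
    rw [Matrix.trace_mul_comm]
    have : B * A * (A * B * X) = X := by
      simp only [mul_assoc, H.aa', H.bb', mul_neg, neg_neg]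
    rw [this]
  rw [Matrix.trace_add, Matrix.trace_sub, Matrix.trace_sub, e1, e2, e3]
  ring

theorem s1_of {X : Matrix W W K} (h1 : X * A = A * X) (h2 : X * B = B * X) : s1 A B X = (4 : K) • X := by
  have e1 : A * X * A = -X := by rw [← h1, mul_assoc, H.aa, mul_neg, mul_one]
  have e2 : B * X * B = -X := by rw [← h2, mul_assoc, H.bb, mul_neg, mul_one]
  have e3 : A * B * X * (B * A) = X := by
    have a1 : A * B * X = X * (A * B) := by rw [← mul_assoc X, h1, mul_assoc A X, h2, ← mul_assoc]
    have a2 : A * B * (B * A) = 1 := by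
      rw [mul_assoc, ← mul_assoc B, H.bb, neg_one_mul, mul_neg, H.aa, neg_neg]
    rw [a1, mul_assoc, a2, mul_one]
  unfold s1
  rw [e1, e2, e3, show (4 : K) = 1 + 1 + 1 + 1 by norm_num, add_smul, add_smul, add_smul, one_smul]
  abel

theorem gtg_a {X : Matrix W W K} (h1 : X * A = A * X) : G * Xᵀ * G * A = A * (G * Xᵀ * G) := by
  have e1 : Xᵀ * A = A * Xᵀ := by
    have := congrArg Matrix.transpose h1
    rw [Matrix.transpose_mul, Matrix.transpose_mul, H.at', Matrix.neg_mul, Matrix.mul_neg, neg_inj] at this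
    exact this.symm
  rw [mul_assoc, H.ga, ← mul_assoc, mul_assoc G, e1, ← mul_assoc, H.ga]
  simp only [mul_assoc]

theorem gtg_b {X : Matrix W W K} (h1 : X * B = B * X) : G * Xᵀ * G * B = B * (G * Xᵀ * G) := by
  have e1 : Xᵀ * B = B * Xᵀ := by
    have := congrArg Matrix.transpose h1
    rw [Matrix.transpose_mul, Matrix.transpose_mul, H.bt, Matrix.neg_mul, Matrix.mul_neg, neg_inj] at this
    exact this.symm
  rw [mul_assoc, H.gb, ← mul_assoc, mul_assoc G, e1, ← mul_assoc, H.gb]
  simp only [mul_assoc]

theorem ef_mem [Nonempty W] (X : Matrix W W K) : InV G A B (efL G A B X) := by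
  have hc : (Fintype.card W : K) ≠ 0 := Nat.cast_ne_zero.2 Fintype.card_ne_zero
  refine ⟨?_, ?_, ?_, ?_⟩
  · rw [efL_apply, sub_mul, mul_sub, smul_mul_assoc, mul_smul_comm, smul_mul_assoc, mul_smul_comm, one_mul, mul_one,
      add_mul, mul_add, s1_a H, gtg_a H (s1_a H X)]
  · rw [efL_apply, sub_mul, mul_sub, smul_mul_assoc, mul_smul_comm, smul_mul_assoc, mul_smul_comm, one_mul, mul_one,
      add_mul, mul_add, s1_b H, gtg_b H (s1_b H X)]
  · rw [efL_apply, Matrix.transpose_sub, Matrix.transpose_smul, Matrix.transpose_smul, Matrix.transpose_add,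
      Matrix.transpose_one, mul_sub, sub_mul, mul_smul_comm, smul_mul_assoc, mul_smul_comm, smul_mul_assoc, mul_one,
      H.gg, mul_add, add_mul, Matrix.transpose_mul, Matrix.transpose_mul, Matrix.transpose_transpose, H.gt]
    have e : G * (G * (s1 A B X * G)) * G = s1 A B X := by
      rw [H.gg', mul_assoc, H.gg, mul_one]
    rw [e, add_comm]
  · have e1 : (G * (s1 A B X)ᵀ * G).trace = (s1 A B X).trace := by
      rw [Matrix.trace_mul_comm, ← mul_assoc, H.gg, one_mul, Matrix.trace_transpose]
    rw [efL_apply, Matrix.trace_sub, Matrix.trace_smul, Matrix.trace_smul, Matrix.trace_add, e1, s1_trace H,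
      Matrix.trace_one, smul_eq_mul, smul_eq_mul, div_mul_cancel₀ _ hc]
    ring

theorem ef_of {X : Matrix W W K} (h : InV G A B X) : efL G A B X = X := by
  rw [efL_apply, s1_of H h.xa h.xb, Matrix.transpose_smul, mul_smul_comm, smul_mul_assoc, h.sy, h.tr, zero_div,
    zero_smul, sub_zero, ← add_smul, smul_smul]
  norm_num

theorem ef_idem [Nonempty W] : efL G A B ∘ₗ efL G A B = efL G A B := by
  apply LinearMap.ext
  intro X
  exact ef_of H (ef_mem H X)

theorem s1_left {J : Matrix W W K} (h1 : J * A = A * J) (h2 : J * B = B * J) (X : Matrix W W K) :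
    s1 A B (J * X) = J * s1 A B X := by
  have a' : ∀ Y, A * (J * Y) = J * (A * Y) := fun Y => by rw [← mul_assoc, ← h1, mul_assoc]
  have b' : ∀ Y, B * (J * Y) = J * (B * Y) := fun Y => by rw [← mul_assoc, ← h2, mul_assoc]
  unfold s1
  simp only [mul_add, mul_sub, mul_assoc, a', b']

theorem s1_right {J : Matrix W W K} (h1 : J * A = A * J) (h2 : J * B = B * J) (X : Matrix W W K) :
    s1 A B (X * J) = s1 A B X * J := by
  have a' : ∀ Y, J * (A * Y) = A * (J * Y) := fun Y => by rw [← mul_assoc, h1, mul_assoc]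
  have b' : ∀ Y, J * (B * Y) = B * (J * Y) := fun Y => by rw [← mul_assoc, h2, mul_assoc]
  unfold s1
  simp only [add_mul, sub_mul, mul_assoc, a', b', h1, h2]

/-- the projection commutes with the Lie algebra -/
theorem ef_ad {J : Matrix W W K} (hJ : InG G A B J) (X : Matrix W W K) :
    efL G A B (J * X - X * J) = J * efL G A B X - efL G A B X * J := by
  have e0 : s1 A B (J * X - X * J) = J * s1 A B X - s1 A B X * J := by
    rw [← s1_left H hJ.xa hJ.xb, ← s1_right H hJ.xa hJ.xb]
    unfold s1
    simp only [mul_sub, sub_mul]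
    abel
  have e1 : ∀ Y : Matrix W W K, G * (J * Y - Y * J)ᵀ * G = J * (G * Yᵀ * G) - (G * Yᵀ * G) * J := by
    intro Y
    have e2 : G * Jᵀ = -(J * G) := by
      calc G * Jᵀ = G * Jᵀ * (G * G) := by rw [H.gg, mul_one]
        _ = G * Jᵀ * G * G := by simp only [mul_assoc]
        _ = -(J * G) := by rw [hJ.sk, neg_mul]
    have e3 : Jᵀ * G = -(G * J) := by
      calc Jᵀ * G = G * G * Jᵀ * G := by rw [H.gg, one_mul]
        _ = G * (G * Jᵀ * G) := by simp only [mul_assoc]
        _ = -(G * J) := by rw [hJ.sk, mul_neg]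
    rw [Matrix.transpose_sub, Matrix.transpose_mul, Matrix.transpose_mul, mul_sub, sub_mul]
    have e4 : G * (Yᵀ * Jᵀ) * G = -(G * Yᵀ * G * J) := by
      rw [mul_assoc, mul_assoc, e3]
      simp only [mul_neg, mul_assoc]
    have e5 : G * (Jᵀ * Yᵀ) * G = -(J * (G * Yᵀ * G)) := by
      rw [← mul_assoc, e2]
      simp only [neg_mul, mul_assoc]
    rw [e4, e5]
    abel
  rw [efL_apply, efL_apply, e0, e1, mul_sub, sub_mul, mul_smul_comm, smul_mul_assoc, mul_smul_comm, smul_mul_assoc,
    mul_one, one_mul, mul_add, add_mul, Matrix.trace_sub, Matrix.trace_mul_comm, sub_self, zero_div, zero_smul, sub_zero,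
    smul_add, smul_add, smul_add, smul_sub, smul_sub]
  abel

end field

end QU55
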